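import Mathlib

/-!
Arithmetic part: Dirichlet convolutions of completely multiplicative functions.
-/

open ArithmeticFunction
open scoped ComplexOrder

namespace Run7.h718.Cmo

/-- `g` is completely multiplicative on the positive integers. -/
structure CM (g : ArithmeticFunction ℂ) : Prop where
  one : g 1 = 1
  mul : ∀ m n : ℕ, 0 < m → 0 < n → g (m * n) = g m * g n

/-- the logarithm as an operation on arithmetic functions -/
noncomputable def lg (u : ArithmeticFunction ℂ) : ArithmeticFunction ℂ :=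
  ⟨fun n => (Real.log n : ℂ) * u n, by simp⟩

@[simp] lemma lg_apply (u : ArithmeticFunction ℂ) (n : ℕ) : lg u n = (Real.log n : ℂ) * u n := rfl

lemma lg_mul (u v : ArithmeticFunction ℂ) : lg (u * v) = lg u * v + u * lg v := by
  ext n
  simp only [lg_apply, mul_apply, ArithmeticFunction.add_apply, Finset.mul_sum]
  rw [← Finset.sum_add_distrib]
  refine Finset.sum_congr rfl fun x hx => ?_
  have h1 := Nat.mem_divisorsAntidiagonal.mp hx
  have hx1 : x.1 ≠ 0 := by
    rintro h; apply h1.2; rw [← h1.1, h, zero_mul]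
  have hx2 : x.2 ≠ 0 := by
    rintro h; apply h1.2; rw [← h1.1, h, mul_zero]
  rw [← h1.1]
  push_cast
  rw [Real.log_mul (by exact_mod_cast hx1) (by exact_mod_cast hx2)]
  push_cast
  ring

/-- the von Mangoldt coefficients of a completely multiplicative function -/
noncomputable def vm (g : ArithmeticFunction ℂ) : ArithmeticFunction ℂ :=
  ⟨fun n => (Λ n : ℂ) * g n, by simp⟩

@[simp] lemma vm_apply (u : ArithmeticFunction ℂ) (n : ℕ) : vm u n = (Λ n : ℂ) * u n := rfl

lemma CM.lg_eq {g : ArithmeticFunction ℂ} (hg : CM g) : lg g = vm g * g := by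
  ext n
  rcases Nat.eq_zero_or_pos n with rfl | hn
  · simp
  simp only [lg_apply, mul_apply, vm_apply]
  have h1 : ∀ x ∈ n.divisorsAntidiagonal, (Λ x.1 : ℂ) * g x.1 * g x.2 = (Λ x.1 : ℂ) * g n := by
    intro x hx
    have h1 := Nat.mem_divisorsAntidiagonal.mp hx
    have hx1 : x.1 ≠ 0 := by
      rintro h; apply h1.2; rw [← h1.1, h, zero_mul]
    have hx2 : x.2 ≠ 0 := by
      rintro h; apply h1.2; rw [← h1.1, h, mul_zero]
    rw [mul_assoc, ← hg.mul _ _ (Nat.pos_of_ne_zero hx1) (Nat.pos_of_ne_zero hx2), h1.1]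
  rw [Finset.sum_congr rfl h1, ← Finset.sum_mul]
  congr 1
  have h2 := vonMangoldt_sum (n := n)
  rw [Nat.sum_divisorsAntidiagonal (f := fun i _ => (Λ i : ℂ)), ← h2]
  push_cast
  rfl

/-- `u` satisfies `log · u = L * u`. -/
def LD (u L : ArithmeticFunction ℂ) : Prop := lg u = L * u

lemma LD.mul {u v L M : ArithmeticFunction ℂ} (hu : LD u L) (hv : LD v M) :
    LD (u * v) (L + M) := by
  unfold LD at *
  rw [lg_mul, hu, hv]
  ring

lemma CM.LD {g : ArithmeticFunction ℂ} (hg : CM g) : Cmo.LD g (vm g) := hg.lg_eq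

lemma LD.nonneg {u L : ArithmeticFunction ℂ} (h : LD u L) (h1 : 0 ≤ u 1) (hL1 : L 1 = 0)
    (hL : ∀ n, 0 ≤ L n) : ∀ n, 0 ≤ u n := by
  intro n
  induction n using Nat.strong_induction_on with
  | _ n ih =>
    rcases Nat.eq_zero_or_pos n with rfl | hn
    · simp
    rcases Nat.eq_or_lt_of_le (Nat.succ_le_of_lt hn) with h2 | h2
    · have : n = 1 := h2.symm
      rw [this]; exact h1
    have h3 : lg u n = (L * u) n := by rw [h]
    simp only [lg_apply, mul_apply] at h3
    have hlog : 0 < Real.log n := Real.log_pos (by exact_mod_cast h2)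
    have h4 : (0:ℂ) ≤ (Real.log n : ℂ) * u n := by
      rw [h3]
      refine Finset.sum_nonneg fun x hx => ?_
      have h1 := Nat.mem_divisorsAntidiagonal.mp hx
      have hx1 : x.1 ≠ 0 := by
        rintro h; apply h1.2; rw [← h1.1, h, zero_mul]
      have hx2 : x.2 ≠ 0 := by
        rintro h; apply h1.2; rw [← h1.1, h, mul_zero]
      by_cases hx1' : x.1 = 1
      · rw [hx1', hL1, zero_mul]
      · refine mul_nonneg (hL _) (ih _ ?_)
        rw [← h1.1]
        have : 2 ≤ x.1 := by omega
        have h5 : 0 < x.2 := Nat.pos_of_ne_zero hx2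
        nlinarith
    have h5 : u n = ((Real.log n)⁻¹ : ℂ) * ((Real.log n : ℂ) * u n) := by
      rw [← mul_assoc, inv_mul_cancel₀, one_mul]
      exact_mod_cast hlog.ne'
    rw [h5]
    refine mul_nonneg ?_ h4
    rw [← Complex.ofReal_inv]
    exact_mod_cast (inv_pos.mpr hlog).le

/-- restriction of an arithmetic function to the `N`-smooth numbers -/
noncomputable def res (N : ℕ) (u : ArithmeticFunction ℂ) : ArithmeticFunction ℂ :=
  ⟨fun n => Set.indicator (Nat.smoothNumbers N) u n, by simp [Set.indicator]⟩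

lemma res_apply (N : ℕ) (u : ArithmeticFunction ℂ) (n : ℕ) :
    res N u n = Set.indicator (Nat.smoothNumbers N) u n := rfl

lemma res_mul (N : ℕ) (u v : ArithmeticFunction ℂ) : res N (u * v) = res N u * res N v := by
  ext n
  rw [res_apply, mul_apply]
  by_cases hn : n ∈ Nat.smoothNumbers N
  · rw [Set.indicator_of_mem hn, mul_apply]
    refine Finset.sum_congr rfl fun x hx => ?_
    have h1 := Nat.mem_divisorsAntidiagonal.mp hx
    rw [res_apply, res_apply, Set.indicator_of_mem, Set.indicator_of_mem]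
    · exact Nat.mem_smoothNumbers_of_dvd hn (Dvd.intro_left _ h1.1)
    · exact Nat.mem_smoothNumbers_of_dvd hn (Dvd.intro _ h1.1)
  · rw [Set.indicator_of_notMem hn]
    symm
    refine Finset.sum_eq_zero fun x hx => ?_
    have h1 := Nat.mem_divisorsAntidiagonal.mp hx
    rw [res_apply, res_apply]
    by_cases h2 : x.1 ∈ Nat.smoothNumbers N
    · by_cases h3 : x.2 ∈ Nat.smoothNumbers N
      · exact absurd (h1.1 ▸ Nat.mul_mem_smoothNumbers h2 h3) hn
      · rw [Set.indicator_of_notMem h3, mul_zero]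
    · rw [Set.indicator_of_notMem h2, zero_mul]

lemma res_le (N : ℕ) (u : ArithmeticFunction ℂ) (hu : ∀ n, 0 ≤ u n) (n : ℕ) :
    0 ≤ u n - res N u n := by
  rw [res_apply]
  by_cases hn : n ∈ Nat.smoothNumbers N
  · rw [Set.indicator_of_mem hn, sub_self]
  · rw [Set.indicator_of_notMem hn, sub_zero]; exact hu n

end Run7.h718.Cmo
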