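import Mathlib
import Pool.Agent.Run7.h718.CmoArith

/-!
Landau positivity on a half plane and Euler products over smooth numbers.
-/

open ArithmeticFunction Filter Topology
open scoped ComplexOrder

namespace Run7.h718.Cmo

/-- If `f` is holomorphic on a ball and the derivatives at the centre alternate in sign
(including the value), then `0 ≤ f z` for `z ≤ c` in the ball. -/
lemma nonneg_of_alternating {f : ℂ → ℂ} {c : ℂ} {r : ℝ}
    (hf : DifferentiableOn ℂ f (Metric.ball c r)) (h : ∀ n, 0 ≤ (-1) ^ n * iteratedDeriv n f c)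
    ⦃z : ℂ⦄ (hz₁ : z ≤ c) (hz₂ : z ∈ Metric.ball c r) : 0 ≤ f z := by
  have h1 : DifferentiableOn ℂ (fun w => f (-w)) (Metric.ball (-c) r) := by
    refine hf.comp differentiable_neg.differentiableOn fun w hw => ?_
    rw [Metric.mem_ball, Complex.dist_eq] at hw ⊢
    rwa [← norm_neg, show -(-w - c) = w - -c by ring]
  have h2 := h1.nonneg_of_iteratedDeriv_nonneg (fun n => by
    have := h n
    rwa [iteratedDeriv_comp_neg, neg_neg, smul_eq_mul]) (neg_le_neg_iff.mpr hz₁) (by
    rw [Metric.mem_ball, Complex.dist_eq] at hz₂ ⊢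
    rwa [← norm_neg, show -(-z - -c) = z - c by ring])
  simpa using h2

/-- Landau: nonnegative coefficients, continuation to `Re s > b`, implies nonnegative values. -/
lemma landau {d : ℕ → ℂ} (hd : 0 ≤ d) {x₀ b : ℝ} (habs : LSeries.abscissaOfAbsConv d ≤ x₀)
    {Φ : ℂ → ℂ} (hΦ : DifferentiableOn ℂ Φ {s | b < s.re})
    (heq : {s : ℂ | x₀ < s.re}.EqOn Φ (LSeries d)) {σ : ℝ} (hσ : b < σ) :
    0 ≤ Φ σ := by
  set c : ℝ := max x₀ σ + 1 with hc
  have hcx : x₀ < c := (le_max_left x₀ σ).trans_lt (lt_add_one _)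
  have hcσ : σ < c := (le_max_right x₀ σ).trans_lt (lt_add_one _)
  have hax : LSeries.abscissaOfAbsConv d < c := habs.trans_lt (by exact_mod_cast hcx)
  refine nonneg_of_alternating (c := (c:ℂ)) (r := c - b) (hΦ.mono ?_) (fun n => ?_) ?_ ?_
  · intro w hw
    rw [Metric.mem_ball, Complex.dist_eq] at hw
    have h1 := Complex.abs_re_le_norm (w - c)
    rw [Complex.sub_re, Complex.ofReal_re] at h1
    have h2 := (abs_lt.mp (h1.trans_lt hw)).1
    show b < w.re
    linarith
  · have hs : IsOpen {s : ℂ | x₀ < s.re} := Complex.continuous_re.isOpen_preimage _ isOpen_Ioi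
    have hmem : (c:ℂ) ∈ {s : ℂ | x₀ < s.re} := by simpa using hcx
    rw [heq.iteratedDeriv_of_isOpen hs n hmem]
    exact LSeries.iteratedDeriv_alternating hd hax n
  · exact_mod_cast hcσ.le
  · rw [Metric.mem_ball, Complex.dist_eq, ← Complex.ofReal_sub, Complex.norm_real,
      Real.norm_eq_abs, abs_sub_comm, abs_of_pos (by linarith)]
    linarith

/-- the completely multiplicative function `n ↦ g n / n ^ s` as a monoid homomorphism -/
noncomputable def tw (g : ArithmeticFunction ℂ) (hg : CM g) (s : ℂ) : ℕ →* ℂ where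
  toFun n := g n * (n : ℂ) ^ (-s)
  map_one' := by simp [hg.one]
  map_mul' m n := by
    rcases Nat.eq_zero_or_pos m with rfl | hm
    · simp
    rcases Nat.eq_zero_or_pos n with rfl | hn
    · simp
    rw [hg.mul m n hm hn, Nat.cast_mul, Complex.natCast_mul_natCast_cpow]
    ring

lemma term_eq (u : ArithmeticFunction ℂ) (s : ℂ) (n : ℕ) :
    LSeries.term u s n = u n * (n : ℂ) ^ (-s) := by
  rw [LSeries.term_def]
  split_ifs with h
  · simp [h]
  · rw [Complex.cpow_neg, div_eq_mul_inv]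

/-- finite Euler product -/
noncomputable def EP (g : ArithmeticFunction ℂ) (N : ℕ) (s : ℂ) : ℂ :=
  ∏ p ∈ N.primesBelow, (1 - g p * (p : ℂ) ^ (-s))⁻¹

lemma norm_bound {g : ArithmeticFunction ℂ} (hb : ∀ n, ‖g n‖ ≤ 1) {s : ℂ} (hs : 0 < s.re)
    {p : ℕ} (hp : p.Prime) : ‖g p * (p : ℂ) ^ (-s)‖ < 1 := by
  rw [norm_mul, Complex.norm_natCast_cpow_of_pos hp.pos, Complex.neg_re]
  have h1 : (p:ℝ) ^ (-s.re) < 1 :=
    Real.rpow_lt_one_of_one_lt_of_neg (by exact_mod_cast hp.one_lt) (by linarith)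
  have h2 : 0 ≤ (p:ℝ) ^ (-s.re) := by positivity
  calc ‖g p‖ * (p:ℝ) ^ (-s.re) ≤ 1 * (p:ℝ) ^ (-s.re) := by gcongr; exact hb p
    _ < 1 := by linarith

lemma LSeries_res {g : ArithmeticFunction ℂ} (hg : CM g) (hb : ∀ n, ‖g n‖ ≤ 1) (N : ℕ) {s : ℂ}
    (hs : 0 < s.re) : LSeries (res N g) s = EP g N s := by
  have h := (EulerProduct.summable_and_hasSum_smoothNumbers_prod_primesBelow_geometric
    (f := tw g hg s) (fun {p} hp => norm_bound hb hs hp) N).2
  have h3 : HasSum (Set.indicator (Nat.smoothNumbers N) (fun n => tw g hg s n))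
      (∏ p ∈ N.primesBelow, (1 - (tw g hg s) p)⁻¹) :=
    (hasSum_subtype_iff_indicator (f := fun n => tw g hg s n) (s := Nat.smoothNumbers N)).mp h
  have h4 : (fun n => LSeries.term (res N g) s n)
      = Set.indicator (Nat.smoothNumbers N) (fun n => tw g hg s n) := by
    funext n
    rw [term_eq, res_apply]
    by_cases hn : n ∈ Nat.smoothNumbers N
    · rw [Set.indicator_of_mem hn, Set.indicator_of_mem hn]; rfl
    · rw [Set.indicator_of_notMem hn, Set.indicator_of_notMem hn, zero_mul]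
  rw [LSeries, h4, h3.tsum_eq]
  rfl

lemma res_norm_le (N : ℕ) (g : ArithmeticFunction ℂ) (n : ℕ) : ‖res N g n‖ ≤ ‖g n‖ := by
  rw [res_apply]
  exact norm_indicator_le_norm_self _ _

lemma summable_of_bdd {g : ArithmeticFunction ℂ} (hb : ∀ n, ‖g n‖ ≤ 1) {s : ℂ} (hs : 1 < s.re) :
    LSeriesSummable g s :=
  LSeriesSummable_of_bounded_of_one_lt_re (m := 1) (fun n _ => hb n) hs

end Run7.h718.Cmo
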