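import Mathlib
import Pool.Agent.Run7.h718.CmoLandau

/-!
The Mellin transform of the summatory function.
-/

open ArithmeticFunction Filter Topology MeasureTheory Set
open scoped ComplexOrder

namespace Run7.h718.Cmo

/-- the summatory function -/
noncomputable def Su (f : ℕ → ℂ) (N : ℕ) : ℂ := ∑ n ∈ Finset.Icc 1 N, f n

/-- the summatory function as a function of a real variable, cut off below `1` -/
noncomputable def Sf (f : ℕ → ℂ) (t : ℝ) : ℂ := (Ioi (1:ℝ)).indicator (fun t => Su f ⌊t⌋₊) t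

/-- its Mellin transform -/
noncomputable def G (f : ℕ → ℂ) (s : ℂ) : ℂ := mellin (Sf f) (-s)

lemma G_eq (f : ℕ → ℂ) (s : ℂ) :
    G f s = ∫ t in Ioi (1:ℝ), (Su f ⌊t⌋₊) * (t:ℂ) ^ (-(s + 1)) := by
  unfold G mellin
  have h1 : ∀ t : ℝ, (t:ℂ) ^ (-s - 1) • Sf f t
      = (Ioi (1:ℝ)).indicator (fun t : ℝ => (Su f ⌊t⌋₊) * (t:ℂ) ^ (-(s + 1))) t := by
    intro t
    unfold Sf
    by_cases ht : t ∈ Ioi (1:ℝ)
    · rw [indicator_of_mem ht, indicator_of_mem ht, smul_eq_mul, mul_comm]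
      congr 2
      ring
    · rw [indicator_of_notMem ht, indicator_of_notMem ht, smul_zero]
  simp_rw [h1]
  rw [setIntegral_indicator measurableSet_Ioi, Ioi_inter_Ioi]
  norm_num

lemma meas_Sf (f : ℕ → ℂ) : Measurable (Sf f) := by
  refine Measurable.indicator ?_ measurableSet_Ioi
  exact (measurable_from_top (f := Su f)).comp Nat.measurable_floor

lemma norm_Sf_le {f : ℕ → ℂ} {C : ℝ} (hC : ∀ N, ‖Su f N‖ ≤ C) (t : ℝ) : ‖Sf f t‖ ≤ C := by
  unfold Sf
  by_cases ht : t ∈ Ioi (1:ℝ)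
  · rw [indicator_of_mem ht]; exact hC _
  · rw [indicator_of_notMem ht, norm_zero]; exact (norm_nonneg _).trans (hC 0)

lemma locInt_Sf {f : ℕ → ℂ} {C : ℝ} (hC : ∀ N, ‖Su f N‖ ≤ C) :
    LocallyIntegrableOn (Sf f) (Ioi 0) := by
  refine LocallyIntegrable.locallyIntegrableOn ?_ _
  refine (locallyIntegrable_const C).mono (meas_Sf f).aestronglyMeasurable ?_
  refine Eventually.of_forall fun t => ?_
  rw [Real.norm_eq_abs]
  exact (norm_Sf_le hC t).trans (le_abs_self C)

/-- from a bound at integers to a bound at reals -/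
lemma bound_real {f : ℕ → ℂ} {c c' : ℝ} (hc : 0 ≤ c) (hcc : c < c')
    (hS : ∀ᶠ N : ℕ in atTop, ‖Su f N‖ ≤ c / Real.sqrt N) :
    ∀ᶠ t : ℝ in atTop, ‖Su f ⌊t⌋₊‖ ≤ c' * t ^ (-(1/2) : ℝ) := by
  have h1 : ∀ᶠ t : ℝ in atTop, ‖Su f ⌊t⌋₊‖ ≤ c / Real.sqrt (⌊t⌋₊ : ℝ) :=
    tendsto_nat_floor_atTop.eventually hS
  have hc' : 0 < c' := hc.trans_lt hcc
  -- `√t / √⌊t⌋ → 1`
  have h2 : ∀ᶠ t : ℝ in atTop, c * Real.sqrt t ≤ c' * Real.sqrt (⌊t⌋₊ : ℝ) := by
    have h3 : Tendsto (fun t : ℝ => (⌊t⌋₊ : ℝ) / t) atTop (𝓝 1) := tendsto_nat_floor_div_atTop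
    have h4 : (c / c') ^ 2 < 1 := by
      have : c / c' < 1 := (div_lt_one hc').mpr hcc
      have h5 : 0 ≤ c / c' := by positivity
      nlinarith
    filter_upwards [h3.eventually (lt_mem_nhds h4), eventually_gt_atTop 0] with t ht ht0
    have h5 : (c / c') ^ 2 * t ≤ (⌊t⌋₊ : ℝ) := by
      rw [lt_div_iff₀ ht0] at ht
      exact ht.le
    have h6 : Real.sqrt ((c / c') ^ 2 * t) ≤ Real.sqrt (⌊t⌋₊ : ℝ) := Real.sqrt_le_sqrt h5
    rw [Real.sqrt_mul (by positivity), Real.sqrt_sq (by positivity)] at h6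
    calc c * Real.sqrt t = c' * (c / c' * Real.sqrt t) := by field_simp
      _ ≤ _ := by gcongr
  filter_upwards [h1, h2, eventually_ge_atTop 1] with t h1 h2 ht
  refine h1.trans ?_
  have hfl : (1:ℝ) ≤ (⌊t⌋₊ : ℝ) := by exact_mod_cast (Nat.le_floor (by exact_mod_cast ht) : 1 ≤ ⌊t⌋₊)
  have hs : 0 < Real.sqrt (⌊t⌋₊ : ℝ) := Real.sqrt_pos.mpr (by linarith)
  rw [Real.rpow_neg (by linarith), ← Real.sqrt_eq_rpow, div_le_iff₀ hs]
  have hst : 0 < Real.sqrt t := Real.sqrt_pos.mpr (by linarith)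
  rw [mul_assoc, mul_comm (Real.sqrt t)⁻¹, ← mul_assoc, ← div_eq_mul_inv, le_div_iff₀ hst]
  exact h2

lemma isBigO_Sf {f : ℕ → ℂ} {c : ℝ} (hc : 0 ≤ c)
    (hS : ∀ᶠ N : ℕ in atTop, ‖Su f N‖ ≤ c / Real.sqrt N) :
    Sf f =O[atTop] fun t : ℝ => t ^ (-(1/2) : ℝ) := by
  refine Asymptotics.IsBigO.of_bound (c + 1) ?_
  filter_upwards [bound_real hc (lt_add_one c) hS, eventually_gt_atTop 1] with t ht ht1
  unfold Sf
  rw [indicator_of_mem (show t ∈ Ioi (1:ℝ) from ht1)]
  rw [Real.norm_of_nonneg (by positivity)]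
  exact ht

lemma G_differentiable {f : ℕ → ℂ} {C : ℝ} (hC : ∀ N, ‖Su f N‖ ≤ C) {c : ℝ} (hc : 0 ≤ c)
    (hS : ∀ᶠ N : ℕ in atTop, ‖Su f N‖ ≤ c / Real.sqrt N) :
    DifferentiableOn ℂ (G f) {s | -(1/2) < s.re} := by
  intro s hs
  refine DifferentiableAt.differentiableWithinAt ?_
  have hs' : -(1/2) < s.re := hs
  have h1 : DifferentiableAt ℂ (mellin (Sf f)) (-s) := by
    refine mellin_differentiableAt_of_isBigO_rpow (a := 1/2) (b := -s.re - 1) (locInt_Sf hC)
      (isBigO_Sf hc hS) ?_ ?_ ?_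
    · rw [Complex.neg_re]; linarith
    · refine Asymptotics.IsBigO.of_bound 1 ?_
      filter_upwards [Ioo_mem_nhdsGT (show (0:ℝ) < 1 by norm_num)] with t ht
      unfold Sf
      rw [indicator_of_notMem (by simpa using ht.2.le), norm_zero]
      positivity
    · rw [Complex.neg_re]; linarith
  exact h1.comp s differentiableAt_id.neg

lemma LSeries_eq_G {f : ℕ → ℂ} {C : ℝ} (hC : ∀ N, ‖Su f N‖ ≤ C) {s : ℂ} (hs : 0 < s.re)
    (hsum : LSeriesSummable f s) : LSeries f s = s * G f s := by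
  rw [G_eq, LSeries_eq_mul_integral f le_rfl hs hsum]
  · rfl
  · refine Asymptotics.IsBigO.of_bound C (Eventually.of_forall fun N => ?_)
    have := hC N
    unfold Su at this
    simpa using this

/-- upper bound for the Mellin transform near `-1/2` -/
lemma G_bound {f : ℕ → ℂ} {C : ℝ} (hC : ∀ N, ‖Su f N‖ ≤ C) {c' T : ℝ} (hT : 1 ≤ T)
    (hc' : 0 ≤ c')
    (hS : ∀ t : ℝ, T ≤ t → ‖Su f ⌊t⌋₊‖ ≤ c' * t ^ (-(1/2) : ℝ)) {σ : ℝ} (h1 : -(1/2) < σ) :
    ‖G f σ‖ ≤ C * T + c' / (σ + 1/2) := by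
  have hC0 : 0 ≤ C := (norm_nonneg _).trans (hC 0)
  rw [G_eq]
  have hi1 : IntegrableOn (fun t : ℝ => c' * t ^ (-(3/2) - σ)) (Ioi 1) :=
    (integrableOn_Ioi_rpow_of_lt (by linarith) one_pos).const_mul c'
  have hi2 : IntegrableOn (fun t : ℝ => (Icc 1 T).indicator (fun _ => C) t) (Ioi 1) := by
    refine Integrable.integrableOn ?_
    exact (integrable_indicator_iff measurableSet_Icc).mpr (integrableOn_const (by simp))
  calc ‖∫ t in Ioi (1:ℝ), (Su f ⌊t⌋₊) * (t:ℂ) ^ (-((σ:ℂ) + 1))‖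
      ≤ ∫ t in Ioi (1:ℝ), ((Icc 1 T).indicator (fun _ => C) t + c' * t ^ (-(3/2) - σ)) := by
        refine norm_integral_le_of_norm_le (hi2.add hi1) ?_
        refine (ae_restrict_iff' measurableSet_Ioi).mpr (Eventually.of_forall fun t ht => ?_)
        have ht1 : 1 < t := ht
        have ht0 : 0 < t := by linarith
        rw [norm_mul, Complex.norm_cpow_eq_rpow_re_of_pos ht0]
        simp only [Complex.neg_re, Complex.add_re, Complex.ofReal_re, Complex.one_re]
        by_cases htT : t ≤ T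
        · rw [indicator_of_mem (show t ∈ Icc 1 T from ⟨ht1.le, htT⟩)]
          have h2 : t ^ (-(σ + 1)) ≤ 1 := by
            refine Real.rpow_le_one_of_one_le_of_nonpos ht1.le (by linarith)
          have h3 : ‖Su f ⌊t⌋₊‖ * t ^ (-(σ + 1)) ≤ C * 1 := by
            gcongr
            exact hC _
          have h4 : 0 ≤ c' * t ^ (-(3/2) - σ) := by positivity
          linarith
        · rw [indicator_of_notMem (fun h => htT h.2), zero_add]
          push Not at htT
          calc ‖Su f ⌊t⌋₊‖ * t ^ (-(σ + 1)) ≤ (c' * t ^ (-(1/2) : ℝ)) * t ^ (-(σ + 1)) := by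
                gcongr
                exact hS t htT.le
            _ = c' * t ^ (-(3/2) - σ) := by
                rw [mul_assoc, ← Real.rpow_add ht0]
                congr 2
                ring
    _ = (∫ t in Ioi (1:ℝ), (Icc 1 T).indicator (fun _ => C) t)
          + ∫ t in Ioi (1:ℝ), c' * t ^ (-(3/2) - σ) := integral_add hi2 hi1
    _ ≤ C * T + c' / (σ + 1/2) := by
        refine add_le_add ?_ (le_of_eq ?_)
        · calc (∫ t in Ioi (1:ℝ), (Icc 1 T).indicator (fun _ => C) t)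
              ≤ ∫ t, (Icc 1 T).indicator (fun _ => C) t := by
                refine setIntegral_le_integral
                  ((integrable_indicator_iff measurableSet_Icc).mpr
                    (integrableOn_const (by simp)))
                  (Eventually.of_forall fun t => ?_)
                exact indicator_nonneg (fun _ _ => hC0) t
            _ = C * (T - 1) := by
                rw [integral_indicator measurableSet_Icc]
                simp [hT]
                ring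
            _ ≤ C * T := by nlinarith
        · rw [integral_const_mul, integral_Ioi_rpow_of_lt (by linarith) one_pos]
          simp only [Real.one_rpow]
          have h6 : -(3/2) - σ + 1 = -(σ + 1/2) := by ring
          rw [h6, neg_div_neg_eq]
          ring

end Run7.h718.Cmo
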