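import Mathlib
import Pool.Agent.Run7.h718.CmoMellin

/-!
The core inequality.
-/

open ArithmeticFunction Filter Topology MeasureTheory Set
open scoped ComplexOrder

namespace Run7.h718.Cmo

/-- `n ↦ 1/n` -/
noncomputable def Z : ArithmeticFunction ℂ := ⟨fun n => (n:ℂ)⁻¹, by simp⟩

@[simp] lemma Z_apply (n : ℕ) : Z n = (n:ℂ)⁻¹ := rfl

lemma Z_CM : CM Z where
  one := by simp
  mul m n _ _ := by simp [mul_comm]

lemma Z_norm (n : ℕ) : ‖Z n‖ ≤ 1 := by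
  rw [Z_apply, norm_inv, Complex.norm_natCast]
  rcases Nat.eq_zero_or_pos n with rfl | h
  · simp
  · exact inv_le_one_of_one_le₀ (by exact_mod_cast h)

lemma LSeries_Z {s : ℂ} (hs : 0 < s.re) : LSeries Z s = riemannZeta (1 + s) := by
  rw [zeta_eq_tsum_one_div_nat_cpow (by simpa using hs), LSeries]
  refine tsum_congr fun n => ?_
  rw [term_eq, Z_apply]
  rcases Nat.eq_zero_or_pos n with rfl | h
  · have : (1:ℂ) + s ≠ 0 := by
      intro h0
      have := congrArg Complex.re h0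
      simp at this
      linarith
    simp [Complex.zero_cpow this]
  · have hn : (n:ℂ) ≠ 0 := by exact_mod_cast h.ne'
    rw [Complex.cpow_add _ _ hn, Complex.cpow_one, Complex.cpow_neg, one_div, mul_inv]

/-- complex conjugate -/
noncomputable def cj (g : ArithmeticFunction ℂ) : ArithmeticFunction ℂ :=
  ⟨fun n => starRingEnd ℂ (g n), by simp⟩

@[simp] lemma cj_apply (g : ArithmeticFunction ℂ) (n : ℕ) : cj g n = starRingEnd ℂ (g n) := rfl

lemma CM.cj {g : ArithmeticFunction ℂ} (hg : CM g) : CM (cj g) where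
  one := by simp [hg.one]
  mul m n hm hn := by simp [hg.mul m n hm hn]

/-- the entire function `(w - 1) ζ(w)` -/
noncomputable def z1 : ℂ → ℂ := DirichletCharacter.LFunctionTrivChar₁ 1

lemma z1_diff : Differentiable ℂ z1 := DirichletCharacter.differentiable_LFunctionTrivChar₁ 1

lemma z1_eq {w : ℂ} (hw : w ≠ 1) : z1 w = (w - 1) * riemannZeta w := by
  unfold z1 DirichletCharacter.LFunctionTrivChar₁
  rw [Function.update_of_ne hw, DirichletCharacter.LFunctionTrivChar,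
    DirichletCharacter.LFunction_modOne_eq]

lemma z1_one : z1 1 = 1 := by
  unfold z1 DirichletCharacter.LFunctionTrivChar₁
  simp

lemma norm_le_of_nonneg {a b : ℂ} (ha : 0 ≤ a) (hab : 0 ≤ b - a) : ‖a‖ ≤ ‖b‖ := by
  have h1 := Complex.le_def.mp ha
  have h2 := Complex.le_def.mp hab
  simp only [Complex.zero_re, Complex.zero_im, Complex.sub_re, Complex.sub_im] at h1 h2
  have h3 : a = (a.re : ℂ) := Complex.ext rfl (by simp [← h1.2])
  rw [h3, Complex.norm_real, Real.norm_of_nonneg h1.1]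
  calc a.re ≤ b.re := by linarith
    _ ≤ |b.re| := le_abs_self _
    _ ≤ ‖b‖ := Complex.abs_re_le_norm b

lemma EP_diff {g : ArithmeticFunction ℂ} (hg : ∀ p : ℕ, p.Prime → ‖g p‖ ≤ (p:ℝ) ^ (-(1/2) : ℝ))
    (N : ℕ) : DifferentiableOn ℂ (EP g N) {s | -(1/2) < s.re} := by
  unfold EP
  refine DifferentiableOn.fun_finsetProd fun p hp => ?_
  have hpp : p.Prime := Nat.prime_of_mem_primesBelow hp
  refine DifferentiableOn.inv ?_ ?_
  · refine DifferentiableOn.sub (differentiableOn_const _) (DifferentiableOn.const_mul ?_ _)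
    intro s _
    refine DifferentiableAt.differentiableWithinAt ?_
    refine DifferentiableAt.const_cpow differentiableAt_id.neg (Or.inl ?_)
    exact_mod_cast hpp.ne_zero
  · intro s hs h0
    have hs' : -(1/2) < s.re := hs
    have h1 : ‖g p * (p : ℂ) ^ (-s)‖ < 1 := by
      rw [norm_mul, Complex.norm_natCast_cpow_of_pos hpp.pos, Complex.neg_re]
      have hp0 : (0:ℝ) < p := by exact_mod_cast hpp.pos
      calc ‖g p‖ * (p:ℝ) ^ (-s.re) ≤ (p:ℝ) ^ (-(1/2) : ℝ) * (p:ℝ) ^ (-s.re) := by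
            gcongr
            exact hg p hpp
        _ = (p:ℝ) ^ (-(1/2) - s.re) := by rw [← Real.rpow_add hp0]; rfl
        _ < 1 := Real.rpow_lt_one_of_one_lt_of_neg (by exact_mod_cast hpp.one_lt) (by linarith)
    have h2 : g p * (p : ℂ) ^ (-s) = 1 := by
      rw [sub_eq_zero] at h0
      exact h0.symm
    rw [h2] at h1
    simp at h1

lemma LSeries_res_mul {u v : ArithmeticFunction ℂ} {N : ℕ} {s : ℂ}
    (hu : LSeriesSummable (res N u) s) (hv : LSeriesSummable (res N v) s) :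
    LSeries (res N (u * v)) s = LSeries (res N u) s * LSeries (res N v) s := by
  rw [res_mul]
  exact LSeries_mul' hu hv

lemma res_bdd {g : ArithmeticFunction ℂ} (hb : ∀ n, ‖g n‖ ≤ 1) (N : ℕ) (n : ℕ) :
    ‖res N g n‖ ≤ 1 := (res_norm_le N g n).trans (hb n)

lemma res_summable {u : ArithmeticFunction ℂ} {s : ℂ} (hu : LSeriesSummable u s) (N : ℕ) :
    LSeriesSummable (res N u) s := by
  refine Summable.of_norm_bounded (g := fun n => ‖LSeries.term u s n‖) hu.norm fun n => ?_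
  rw [term_eq, term_eq, norm_mul, norm_mul]
  gcongr
  exact res_norm_le N u n

/-- The data of the argument. -/
structure Dat (f b k : ArithmeticFunction ℂ) : Prop where
  hf : CM f
  hb : CM b
  f1 : ∀ n, ‖f n‖ ≤ 1
  b1 : ∀ n, ‖b n‖ ≤ 1
  fac : b = Z * k
  ks : LSeriesSummable k (-(1/2) : ℝ)
  fp : ∀ p : ℕ, p.Prime → ‖f p‖ ≤ (p:ℝ) ^ (-(1/2) : ℝ)
  bp : ∀ p : ℕ, p.Prime → ‖b p‖ ≤ (p:ℝ) ^ (-(1/2) : ℝ)
  pos : ∀ p j : ℕ, p.Prime → 0 ≤ b (p ^ j) + b (p ^ j) + f (p ^ j) + cj f (p ^ j)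
  loc : ∀ p : ℕ, p.Prime → ∀ σ : ℝ, -(1/2) < σ → σ < 0 →
    ‖1 - b p * (p:ℂ) ^ (-(σ:ℂ))‖ * ‖1 - f p * (p:ℂ) ^ (-(σ:ℂ))‖ ≤ 1 - (p:ℝ) ^ (-(2 + 2 * σ))

namespace Dat

variable {f b k : ArithmeticFunction ℂ}

/-- the function with nonnegative coefficients -/
noncomputable def D (f b : ArithmeticFunction ℂ) : ArithmeticFunction ℂ := b * b * f * cj f

lemma D_nonneg (h : Dat f b k) (n : ℕ) : 0 ≤ D f b n := by
  have h1 : LD (D f b) (vm b + vm b + vm f + vm (cj f)) :=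
    (((h.hb.LD.mul h.hb.LD).mul h.hf.LD).mul h.hf.cj.LD)
  have hL : ∀ n, (vm b + vm b + vm f + vm (cj f)) n
      = (Λ n : ℂ) * (b n + b n + f n + cj f n) := by
    intro n
    simp only [ArithmeticFunction.add_apply, vm_apply]
    ring
  refine h1.nonneg ?_ ?_ ?_ n
  · have : D f b 1 = 1 := by
      unfold D
      simp [h.hb.one, h.hf.one]
    rw [this]
    exact zero_le_one
  · rw [hL]
    simp
  · intro n
    rw [hL]
    by_cases hn : IsPrimePow n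
    · obtain ⟨p, j, hp, _, rfl⟩ := hn
      refine mul_nonneg ?_ (h.pos p j hp.nat_prime)
      exact_mod_cast vonMangoldt_nonneg
    · rw [vonMangoldt_eq_zero_iff.mpr hn]
      simp

lemma summable_b (h : Dat f b k) {s : ℂ} (hs : 1 < s.re) : LSeriesSummable b s :=
  summable_of_bdd h.b1 hs

lemma summable_f (h : Dat f b k) {s : ℂ} (hs : 1 < s.re) : LSeriesSummable f s :=
  summable_of_bdd h.f1 hs

lemma cj1 (h : Dat f b k) (n : ℕ) : ‖cj f n‖ ≤ 1 := by simpa using h.f1 n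

lemma summable_cj (h : Dat f b k) {s : ℂ} (hs : 1 < s.re) : LSeriesSummable (cj f) s :=
  summable_of_bdd h.cj1 hs

lemma summable_D (h : Dat f b k) {s : ℂ} (hs : 1 < s.re) : LSeriesSummable (D f b) s := by
  unfold D
  exact LSeriesSummable_mul (LSeriesSummable_mul (LSeriesSummable_mul (h.summable_b hs)
    (h.summable_b hs)) (h.summable_f hs)) (h.summable_cj hs)

lemma LSeries_D (h : Dat f b k) {s : ℂ} (hs : 1 < s.re) :
    LSeries (D f b) s = LSeries b s * LSeries b s * LSeries f s * LSeries (cj f) s := by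
  unfold D
  rw [LSeries_mul' (LSeriesSummable_mul (LSeriesSummable_mul (h.summable_b hs)
    (h.summable_b hs)) (h.summable_f hs)) (h.summable_cj hs),
    LSeries_mul' (LSeriesSummable_mul (h.summable_b hs) (h.summable_b hs)) (h.summable_f hs),
    LSeries_mul' (h.summable_b hs) (h.summable_b hs)]

/-- finite Euler product of `D` -/
noncomputable def E (f b : ArithmeticFunction ℂ) (N : ℕ) (s : ℂ) : ℂ :=
  EP b N s * EP b N s * EP f N s * EP (cj f) N s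

lemma LSeries_resD (h : Dat f b k) (N : ℕ) {s : ℂ} (hs : 1 < s.re) :
    LSeries (res N (D f b)) s = E f b N s := by
  have hs0 : 0 < s.re := by linarith
  have h1 := res_summable (h.summable_b hs) N
  have h2 := res_summable (h.summable_f hs) N
  have h3 := res_summable (h.summable_cj hs) N
  have h4 : LSeriesSummable (res N (b * b)) s := by rw [res_mul]; exact LSeriesSummable_mul h1 h1
  have h5 : LSeriesSummable (res N (b * b * f)) s := by
    rw [res_mul]; exact LSeriesSummable_mul h4 h2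
  unfold D E
  rw [LSeries_res_mul h5 h3, LSeries_res_mul h4 h2, LSeries_res_mul h1 h1,
    LSeries_res h.hb h.b1 N hs0, LSeries_res h.hf h.f1 N hs0, LSeries_res h.hf.cj h.cj1 N hs0]

lemma E_diff (h : Dat f b k) (N : ℕ) : DifferentiableOn ℂ (E f b N) {s | -(1/2) < s.re} := by
  unfold E
  exact (((EP_diff h.bp N).mul (EP_diff h.bp N)).mul (EP_diff h.fp N)).mul
    (EP_diff (fun p hp => by simpa using h.fp p hp) N)

/-- the continuation of `B F` -/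
noncomputable def H (k f : ArithmeticFunction ℂ) (s : ℂ) : ℂ := z1 (1 + s) * LSeries k s * G f s

lemma absc_k (h : Dat f b k) : LSeries.abscissaOfAbsConv k ≤ (-(1/2) : ℝ) := by
  have := h.ks.abscissaOfAbsConv_le
  simpa using this

lemma H_diff (h : Dat f b k) {g : ArithmeticFunction ℂ} {C c : ℝ} (hC : ∀ N, ‖Su g N‖ ≤ C)
    (hc : 0 ≤ c) (hS : ∀ᶠ N : ℕ in atTop, ‖Su g N‖ ≤ c / Real.sqrt N) :
    DifferentiableOn ℂ (H k g) {s | -(1/2) < s.re} := by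
  unfold H
  refine DifferentiableOn.mul (DifferentiableOn.mul ?_ ?_) (G_differentiable hC hc hS)
  · exact (z1_diff.comp ((differentiable_const 1).add differentiable_id)).differentiableOn
  · refine (LSeries_differentiableOn k).mono fun s hs => ?_
    refine h.absc_k.trans_lt ?_
    exact_mod_cast (show (-(1/2) : ℝ) < s.re from hs)

lemma H_eq (h : Dat f b k) {g : ArithmeticFunction ℂ} {C : ℝ} (hC : ∀ N, ‖Su g N‖ ≤ C)
    {s : ℂ} (hs : 1 < s.re) (hg : LSeriesSummable g s) :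
    H k g s = LSeries b s * LSeries g s := by
  have hs0 : 0 < s.re := by linarith
  have hk : LSeriesSummable k s := by
    refine LSeriesSummable_of_abscissaOfAbsConv_lt_re (h.absc_k.trans_lt ?_)
    exact_mod_cast (show (-(1/2) : ℝ) < s.re by linarith)
  have hne : 1 + s ≠ 1 := by
    intro h0
    have := congrArg Complex.re h0
    simp at this
    linarith
  unfold H
  rw [z1_eq hne, LSeries_eq_G hC hs0 hg, h.fac, LSeries_mul' (summable_of_bdd Z_norm hs) hk,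
    LSeries_Z hs0]
  ring

lemma key (h : Dat f b k) {C c : ℝ} (hC : ∀ N, ‖Su f N‖ ≤ C) (hC' : ∀ N, ‖Su (cj f) N‖ ≤ C)
    (hc : 0 ≤ c)
    (hS : ∀ᶠ N : ℕ in atTop, ‖Su f N‖ ≤ c / Real.sqrt N)
    (hS' : ∀ᶠ N : ℕ in atTop, ‖Su (cj f) N‖ ≤ c / Real.sqrt N) (N : ℕ) {σ : ℝ}
    (hσ : -(1/2) < σ) : ‖E f b N σ‖ ≤ ‖H k f σ‖ * ‖H k (cj f) σ‖ := by
  have hΦ : DifferentiableOn ℂ (fun s => H k f s * H k (cj f) s) {s | -(1/2) < s.re} :=
    (h.H_diff hC hc hS).mul (h.H_diff hC' hc hS')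
  have hΦe : ∀ s : ℂ, 1 < s.re → H k f s * H k (cj f) s = LSeries (D f b) s := by
    intro s hs
    rw [h.H_eq hC hs (h.summable_f hs), h.H_eq hC' hs (h.summable_cj hs), h.LSeries_D hs]
    ring
  have hab : ∀ u : ℕ → ℂ, (∀ s : ℂ, 1 < s.re → LSeriesSummable u s) →
      LSeries.abscissaOfAbsConv u ≤ (1:ℝ) := by
    intro u hu
    refine LSeries.abscissaOfAbsConv_le_of_forall_lt_LSeriesSummable fun y hy => hu y ?_
    simpa using hy
  have h1 : 0 ≤ E f b N σ := by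
    refine landau (d := res N (D f b)) (x₀ := 1) (b := -(1/2)) ?_ ?_ (h.E_diff N) ?_ hσ
    · intro n
      rw [res_apply]
      exact indicator_nonneg (fun _ _ => h.D_nonneg _) n
    · exact hab _ fun s hs => res_summable (h.summable_D hs) N
    · intro s hs
      exact (h.LSeries_resD N hs).symm
  have h2 : 0 ≤ (fun s => H k f s * H k (cj f) s - E f b N s) (σ:ℂ) := by
    refine landau (d := ⇑(D f b) - ⇑(res N (D f b))) (x₀ := 1) (b := -(1/2)) ?_ ?_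
      (hΦ.sub (h.E_diff N)) ?_ hσ
    · intro n
      exact res_le N _ h.D_nonneg n
    · exact hab _ fun s hs => (h.summable_D hs).sub (res_summable (h.summable_D hs) N)
    · intro s hs
      have hs' : 1 < s.re := hs
      show H k f s * H k (cj f) s - E f b N s = _
      rw [hΦe s hs', LSeries_sub (h.summable_D hs') (res_summable (h.summable_D hs') N),
        h.LSeries_resD N hs']
  rw [← norm_mul]
  exact norm_le_of_nonneg h1 h2

lemma lower (h : Dat f b k) (N : ℕ) {σ : ℝ} (hσ : -(1/2) < σ) (hσ0 : σ < 0) :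
    ‖∏ p ∈ N.primesBelow, (1 - (p:ℂ) ^ (-(2 + 2 * (σ:ℂ))))⁻¹‖ ^ 2 ≤ ‖E f b N σ‖ := by
  have h1 : ∀ g : ArithmeticFunction ℂ, (∀ p : ℕ, p.Prime →
      ‖1 - b p * (p:ℂ) ^ (-(σ:ℂ))‖ * ‖1 - g p * (p:ℂ) ^ (-(σ:ℂ))‖ ≤ 1 - (p:ℝ) ^ (-(2 + 2 * σ))) →
      (∀ p : ℕ, p.Prime → 0 < ‖1 - g p * (p:ℂ) ^ (-(σ:ℂ))‖) →
      (∀ p : ℕ, p.Prime → 0 < ‖1 - b p * (p:ℂ) ^ (-(σ:ℂ))‖) →
      ‖∏ p ∈ N.primesBelow, (1 - (p:ℂ) ^ (-(2 + 2 * (σ:ℂ))))⁻¹‖ ≤ ‖EP b N σ‖ * ‖EP g N σ‖ := by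
    intro g hg hg0 hb0
    unfold EP
    rw [← norm_mul, ← Finset.prod_mul_distrib, norm_prod, norm_prod]
    refine Finset.prod_le_prod (fun _ _ => norm_nonneg _) fun p hp => ?_
    have hpp : p.Prime := Nat.prime_of_mem_primesBelow hp
    have hp0 : (0:ℝ) < p := by exact_mod_cast hpp.pos
    rw [norm_inv, norm_mul, norm_inv, norm_inv, ← mul_inv]
    have h2 : ‖1 - (p:ℂ) ^ (-(2 + 2 * (σ:ℂ)))‖ = 1 - (p:ℝ) ^ (-(2 + 2 * σ)) := by
      have h3 : (1:ℂ) - (p:ℂ) ^ (-(2 + 2 * (σ:ℂ))) = ((1 - (p:ℝ) ^ (-(2 + 2 * σ)) : ℝ) : ℂ) := by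
        push_cast
        rw [Complex.ofReal_cpow hp0.le]
        push_cast
        rfl
      rw [h3, Complex.norm_real, Real.norm_of_nonneg]
      have : (p:ℝ) ^ (-(2 + 2 * σ)) < 1 :=
        Real.rpow_lt_one_of_one_lt_of_neg (by exact_mod_cast hpp.one_lt) (by linarith)
      linarith
    rw [h2]
    exact inv_anti₀ (mul_pos (hb0 p hpp) (hg0 p hpp)) (hg p hpp)
  have hpos : ∀ g : ArithmeticFunction ℂ, (∀ p : ℕ, p.Prime → ‖g p‖ ≤ (p:ℝ) ^ (-(1/2) : ℝ)) →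
      ∀ p : ℕ, p.Prime → 0 < ‖1 - g p * (p:ℂ) ^ (-(σ:ℂ))‖ := by
    intro g hg p hpp
    have hp0 : (0:ℝ) < p := by exact_mod_cast hpp.pos
    have h1 : ‖g p * (p : ℂ) ^ (-(σ:ℂ))‖ < 1 := by
      rw [norm_mul, Complex.norm_natCast_cpow_of_pos hpp.pos, Complex.neg_re, Complex.ofReal_re]
      calc ‖g p‖ * (p:ℝ) ^ (-σ) ≤ (p:ℝ) ^ (-(1/2) : ℝ) * (p:ℝ) ^ (-σ) := by
            gcongr
            exact hg p hpp
        _ = (p:ℝ) ^ (-(1/2) - σ) := by rw [← Real.rpow_add hp0]; rfl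
        _ < 1 := Real.rpow_lt_one_of_one_lt_of_neg (by exact_mod_cast hpp.one_lt) (by linarith)
    refine norm_pos_iff.mpr fun h0 => ?_
    rw [sub_eq_zero] at h0
    rw [← h0] at h1
    simp at h1
  have hfl := fun p hp => h.loc p hp σ hσ hσ0
  have hcl : ∀ p : ℕ, p.Prime →
      ‖1 - b p * (p:ℂ) ^ (-(σ:ℂ))‖ * ‖1 - cj f p * (p:ℂ) ^ (-(σ:ℂ))‖
        ≤ 1 - (p:ℝ) ^ (-(2 + 2 * σ)) := by
    intro p hp
    have hp0 : (0:ℝ) < p := by exact_mod_cast hp.pos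
    have h3 : (p:ℂ) ^ (-(σ:ℂ)) = (((p:ℝ) ^ (-σ) : ℝ) : ℂ) := by
      rw [Complex.ofReal_cpow hp0.le]
      push_cast
      rfl
    have h2 : ‖1 - cj f p * (p:ℂ) ^ (-(σ:ℂ))‖ = ‖1 - f p * (p:ℂ) ^ (-(σ:ℂ))‖ := by
      rw [cj_apply, ← Complex.norm_conj (1 - f p * (p:ℂ) ^ (-(σ:ℂ))), h3]
      simp
    rw [h2]
    exact hfl p hp
  have hb0 := hpos b h.bp
  have h3 := h1 f hfl (hpos f h.fp) hb0
  have h4 := h1 (cj f) hcl (hpos (cj f) (fun p hp => by simpa using h.fp p hp)) hb0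
  unfold E
  rw [norm_mul, norm_mul, norm_mul, sq]
  calc _ ≤ (‖EP b N σ‖ * ‖EP f N σ‖) * (‖EP b N σ‖ * ‖EP (cj f) N σ‖) := by
        gcongr
    _ = _ := by ring

/-- The core inequality. -/
theorem core (h : Dat f b k) {c K₀ : ℝ} (hc : 0 ≤ c)
    (hS : ∀ᶠ N : ℕ in atTop, ‖Su f N‖ ≤ c / Real.sqrt N)
    (hK : ∀ σ : ℝ, -(1/2) < σ → ‖LSeries k σ‖ ≤ K₀) :
    1 ≤ c * ‖riemannZeta (1/2)‖ * K₀ := by
  -- boundedness
  have hbdd : ∃ C : ℝ, ∀ N, ‖Su f N‖ ≤ C := by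
    obtain ⟨M, hM⟩ := eventually_atTop.mp hS
    refine ⟨∑ N ∈ Finset.range (M + 1), ‖Su f N‖ + c, fun N => ?_⟩
    by_cases hN : N < M + 1
    · have h1 := Finset.single_le_sum (f := fun N => ‖Su f N‖) (fun i _ => norm_nonneg _)
        (Finset.mem_range.mpr hN)
      have h2 : ‖Su f N‖ ≤ ∑ x ∈ Finset.range (M + 1), ‖Su f x‖ := h1
      linarith
    · have h1 := hM N (by omega)
      have h2 : c / Real.sqrt N ≤ c := by
        refine div_le_self hc ?_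
        rw [Real.one_le_sqrt]
        exact_mod_cast (by omega : 1 ≤ N)
      have h3 : 0 ≤ ∑ N ∈ Finset.range (M + 1), ‖Su f N‖ :=
        Finset.sum_nonneg fun _ _ => norm_nonneg _
      linarith
  obtain ⟨C, hC⟩ := hbdd
  have hcj : ∀ N, ‖Su (cj f) N‖ = ‖Su f N‖ := by
    intro N
    unfold Su
    simp only [cj_apply]
    rw [← map_sum, Complex.norm_conj]
  have hC' : ∀ N, ‖Su (cj f) N‖ ≤ C := fun N => by rw [hcj]; exact hC N
  have hS' : ∀ᶠ N : ℕ in atTop, ‖Su (cj f) N‖ ≤ c / Real.sqrt N := by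
    filter_upwards [hS] with N hN
    rw [hcj]; exact hN
  have hK0 : 0 ≤ K₀ := (norm_nonneg _).trans (hK 0 (by norm_num))
  -- every `c' > c` works
  refine le_of_forall_gt_imp_ge_of_dense ?_ |>.trans le_rfl
  intro x hx
  by_contra hx1
  push Not at hx1
  obtain ⟨c', hcc, hc'⟩ : ∃ c' > c, c' * ‖riemannZeta (1/2)‖ * K₀ < x := by
    have hcont : Tendsto (fun c' : ℝ => c' * ‖riemannZeta (1/2)‖ * K₀) (𝓝[>] c)
        (𝓝 (c * ‖riemannZeta (1/2)‖ * K₀)) :=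
      ((continuous_id.mul continuous_const).mul continuous_const).continuousAt.tendsto.mono_left
        nhdsWithin_le_nhds
    obtain ⟨c', h1, h2⟩ := ((hcont.eventually (gt_mem_nhds hx)).and
      self_mem_nhdsWithin).exists
    exact ⟨c', h2, h1⟩
  have hc'0 : 0 ≤ c' := hc.trans hcc.le
  obtain ⟨T₀, hT₀⟩ := eventually_atTop.mp (bound_real hc hcc hS)
  obtain ⟨T₁, hT₁⟩ := eventually_atTop.mp (bound_real hc hcc hS')
  set T := max 1 (max T₀ T₁) with hT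
  have hT1 : 1 ≤ T := le_max_left _ _
  have hb1 : ∀ t : ℝ, T ≤ t → ‖Su f ⌊t⌋₊‖ ≤ c' * t ^ (-(1/2) : ℝ) := fun t ht =>
    hT₀ t (((le_max_left _ _).trans (le_max_right _ _)).trans ht)
  have hb2 : ∀ t : ℝ, T ≤ t → ‖Su (cj f) ⌊t⌋₊‖ ≤ c' * t ^ (-(1/2) : ℝ) := fun t ht =>
    hT₁ t (((le_max_right _ _).trans (le_max_right _ _)).trans ht)
  have hmain : ∀ σ : ℝ, -(1/2) < σ → σ < 0 →
      ‖z1 (2 + 2 * (σ:ℂ))‖ ≤ ‖z1 (1 + (σ:ℂ))‖ * K₀ * ((1 + 2 * σ) * (C * T) + 2 * c') := by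
    intro σ hσ hσ0
    have hx0 : 0 < 1 + 2 * σ := by linarith
    have hC0 : 0 ≤ C := (norm_nonneg _).trans (hC 0)
    set W : ℝ := ‖z1 (1 + (σ:ℂ))‖ * K₀ * (C * T + c' / (σ + 1/2)) with hW
    have hW0 : 0 ≤ W := by
      have : 0 ≤ c' / (σ + 1/2) := div_nonneg hc'0 (by linarith)
      have : 0 ≤ C * T := mul_nonneg hC0 (by linarith)
      positivity
    have hH : ∀ g : ArithmeticFunction ℂ, ‖G g σ‖ ≤ C * T + c' / (σ + 1/2) → ‖H k g σ‖ ≤ W := by
      intro g hg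
      unfold H
      rw [norm_mul, norm_mul, hW]
      gcongr
      exact hK σ hσ
    have hH1 := hH f (G_bound hC hT1 hc'0 hb1 hσ)
    have hH2 := hH (cj f) (G_bound hC' hT1 hc'0 hb2 hσ)
    have hN : ∀ N : ℕ, ‖∏ p ∈ N.primesBelow, (1 - (p:ℂ) ^ (-(2 + 2 * (σ:ℂ))))⁻¹‖ ≤ W := by
      intro N
      have h1 := (h.lower N hσ hσ0).trans (h.key hC hC' hc hS hS' N hσ)
      have h2 : ‖H k f σ‖ * ‖H k (cj f) σ‖ ≤ W * W := by gcongr
      have h3 := h1.trans h2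
      rw [← sq] at h3
      exact (sq_le_sq₀ (norm_nonneg _) hW0).mp h3
    have hre : 1 < (2 + 2 * (σ:ℂ)).re := by simp; linarith
    have hlim := (riemannZeta_eulerProduct hre).norm
    have hz : ‖riemannZeta (2 + 2 * (σ:ℂ))‖ ≤ W := le_of_tendsto' hlim hN
    have hne : (2 + 2 * (σ:ℂ)) ≠ 1 := by
      intro h0
      rw [h0] at hre
      simp at hre
    rw [z1_eq hne, norm_mul]
    have h5 : ‖(2 + 2 * (σ:ℂ)) - 1‖ = 1 + 2 * σ := by
      rw [show (2 + 2 * (σ:ℂ)) - 1 = ((1 + 2 * σ : ℝ) : ℂ) by push_cast; ring,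
        Complex.norm_real, Real.norm_of_nonneg hx0.le]
    rw [h5]
    calc (1 + 2 * σ) * ‖riemannZeta (2 + 2 * (σ:ℂ))‖ ≤ (1 + 2 * σ) * W := by gcongr
      _ = ‖z1 (1 + (σ:ℂ))‖ * K₀ * ((1 + 2 * σ) * (C * T) + 2 * c') := by
        rw [hW]
        have h6 : (1 + 2 * σ) * (c' / (σ + 1/2)) = 2 * c' := by
          have h7 : σ + 1/2 ≠ 0 := by linarith
          rw [show 1 + 2 * σ = 2 * (σ + 1/2) by ring, mul_assoc, mul_div_cancel₀ _ h7]
        calc (1 + 2 * σ) * (‖z1 (1 + (σ:ℂ))‖ * K₀ * (C * T + c' / (σ + 1/2)))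
            = ‖z1 (1 + (σ:ℂ))‖ * K₀ * ((1 + 2 * σ) * (C * T)
                + (1 + 2 * σ) * (c' / (σ + 1/2))) := by ring
          _ = _ := by rw [h6]
  -- the limit `σ → -1/2`
  have hl1 : Tendsto (fun σ : ℝ => ‖z1 (2 + 2 * (σ:ℂ))‖) (𝓝[>] (-(1/2) : ℝ)) (𝓝 1) := by
    have hcont : Continuous (fun σ : ℝ => ‖z1 (2 + 2 * (σ:ℂ))‖) :=
      (z1_diff.continuous.comp (by fun_prop)).norm
    have h1 := hcont.tendsto (-(1/2) : ℝ)
    have h2 : ‖z1 (2 + 2 * (((-(1/2) : ℝ)) : ℂ))‖ = 1 := by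
      rw [show (2:ℂ) + 2 * (((-(1/2) : ℝ)) : ℂ) = 1 by push_cast; ring, z1_one, norm_one]
    rw [h2] at h1
    exact h1.mono_left nhdsWithin_le_nhds
  have hl2 : Tendsto (fun σ : ℝ => ‖z1 (1 + (σ:ℂ))‖ * K₀ * ((1 + 2 * σ) * (C * T) + 2 * c'))
      (𝓝[>] (-(1/2) : ℝ)) (𝓝 (c' * ‖riemannZeta (1/2)‖ * K₀)) := by
    have hcont : Continuous
        (fun σ : ℝ => ‖z1 (1 + (σ:ℂ))‖ * K₀ * ((1 + 2 * σ) * (C * T) + 2 * c')) := by
      have : Continuous (fun σ : ℝ => ‖z1 (1 + (σ:ℂ))‖) :=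
        (z1_diff.continuous.comp (by fun_prop)).norm
      fun_prop
    have h1 := hcont.tendsto (-(1/2) : ℝ)
    have h2 : ‖z1 (1 + (((-(1/2) : ℝ)) : ℂ))‖ = (1/2) * ‖riemannZeta (1/2)‖ := by
      rw [show (1:ℂ) + (((-(1/2) : ℝ)) : ℂ) = 1/2 by push_cast; ring, z1_eq (by norm_num),
        norm_mul]
      congr 1
      norm_num
    rw [h2] at h1
    have h3 : (1/2) * ‖riemannZeta (1/2)‖ * K₀ * ((1 + 2 * (-(1/2) : ℝ)) * (C * T) + 2 * c')
        = c' * ‖riemannZeta (1/2)‖ * K₀ := by ring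
    rw [h3] at h1
    exact h1.mono_left nhdsWithin_le_nhds
  have hfin : (1:ℝ) ≤ c' * ‖riemannZeta (1/2)‖ * K₀ := by
    refine le_of_tendsto_of_tendsto hl1 hl2 ?_
    filter_upwards [Ioo_mem_nhdsGT (show (-(1/2) : ℝ) < 0 by norm_num)] with σ hσ
    exact hmain σ hσ.1 hσ.2
  linarith

end Dat

end Run7.h718.Cmo
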