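import Mathlib
import Pool.Agent.Run7.h718.CmoCore

/-!
From the core inequality to classes of completely multiplicative functions.
-/

open ArithmeticFunction Filter Topology Set
open scoped ComplexOrder

namespace Run7.h718.Cmo

lemma CM.pow {g : ArithmeticFunction ℂ} (hg : CM g) {n : ℕ} (hn : 0 < n) (j : ℕ) :
    g (n ^ j) = g n ^ j := by
  induction j with
  | zero => simp [hg.one]
  | succ j ih => rw [pow_succ, hg.mul _ _ (pow_pos hn j) hn, ih, pow_succ]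

lemma CM.le_one {g : ArithmeticFunction ℂ} (hg : CM g)
    (h : ∀ p : ℕ, p.Prime → ‖g p‖ ≤ 1) (n : ℕ) : ‖g n‖ ≤ 1 := by
  induction n using Nat.recOnMul with
  | zero => simp
  | one => simp [hg.one]
  | prime p hp => exact h p hp
  | mul a b ha hb =>
    rcases Nat.eq_zero_or_pos a with rfl | ha0
    · simp
    rcases Nat.eq_zero_or_pos b with rfl | hb0
    · simp
    rw [hg.mul a b ha0 hb0, norm_mul]
    exact mul_le_one₀ ha (norm_nonneg _) hb

lemma Su_sub (f : ℕ → ℂ) {n : ℕ} (hn : 1 ≤ n) : f n = Su f n - Su f (n - 1) := by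
  unfold Su
  obtain ⟨m, rfl⟩ := Nat.exists_eq_add_of_le' hn
  rw [Nat.add_sub_cancel, Finset.sum_Icc_succ_top (by omega)]
  ring

/-- eventual smallness of the summatory function bounds the coefficients -/
lemma coeff_bound {f : ℕ → ℂ} {c : ℝ} (hc : 0 ≤ c)
    (hS : ∀ᶠ N : ℕ in atTop, ‖Su f N‖ ≤ c / Real.sqrt N) :
    ∀ᶠ n : ℕ in atTop, ‖f n‖ ≤ 3 * c / Real.sqrt n := by
  obtain ⟨M, hM⟩ := eventually_atTop.mp hS
  filter_upwards [eventually_ge_atTop (max (M + 1) 2)] with n hn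
  have h1 : M + 1 ≤ n := (le_max_left _ _).trans hn
  have h2 : 2 ≤ n := (le_max_right _ _).trans hn
  rw [Su_sub f (by omega : 1 ≤ n)]
  have h3 := hM n (by omega)
  have h4 := hM (n - 1) (by omega)
  have hn0 : (0:ℝ) < n := by exact_mod_cast (by omega : 0 < n)
  have hs : 0 < Real.sqrt n := Real.sqrt_pos.mpr hn0
  have h5 : Real.sqrt n ≤ 2 * Real.sqrt ((n - 1 : ℕ) : ℝ) := by
    have h6 : (n:ℝ) ≤ 4 * ((n - 1 : ℕ) : ℝ) := by
      have : n ≤ 4 * (n - 1) := by omega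
      exact_mod_cast this
    calc Real.sqrt n ≤ Real.sqrt (4 * ((n - 1 : ℕ) : ℝ)) := Real.sqrt_le_sqrt h6
      _ = 2 * Real.sqrt ((n - 1 : ℕ) : ℝ) := by
        rw [Real.sqrt_mul (by norm_num), show (4:ℝ) = 2 ^ 2 by norm_num,
          Real.sqrt_sq (by norm_num)]
  have h7 : 0 < Real.sqrt ((n - 1 : ℕ) : ℝ) := by
    have : 0 < 2 * Real.sqrt ((n - 1 : ℕ) : ℝ) := hs.trans_le h5
    linarith
  have h8 : c / Real.sqrt ((n - 1 : ℕ) : ℝ) ≤ 2 * c / Real.sqrt n := by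
    rw [div_le_div_iff₀ h7 hs]
    nlinarith
  calc ‖Su f n - Su f (n - 1)‖ ≤ ‖Su f n‖ + ‖Su f (n - 1)‖ := norm_sub_le _ _
    _ ≤ c / Real.sqrt n + 2 * c / Real.sqrt n := add_le_add h3 (h4.trans h8)
    _ = 3 * c / Real.sqrt n := by ring

lemma sqrt_pow_nat (n j : ℕ) : Real.sqrt ((n ^ j : ℕ) : ℝ) = Real.sqrt n ^ j := by
  push_cast
  rw [Real.sqrt_eq_iff_mul_self_eq (by positivity) (by positivity), ← mul_pow,
    Real.mul_self_sqrt (by positivity)]

lemma prime_bound {f : ArithmeticFunction ℂ} (hf : CM f) {c : ℝ} (hc : 0 ≤ c)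
    (hS : ∀ᶠ N : ℕ in atTop, ‖Su f N‖ ≤ c / Real.sqrt N) {p : ℕ} (hp : p.Prime) :
    ∀ᶠ j : ℕ in atTop, (‖f p‖ * Real.sqrt p) ^ j ≤ 3 * c := by
  have h1 : Tendsto (fun j : ℕ => p ^ j) atTop atTop := tendsto_pow_atTop_atTop_of_one_lt hp.one_lt
  filter_upwards [h1.eventually (coeff_bound hc hS)] with j hj
  have hs : 0 < Real.sqrt p := Real.sqrt_pos.mpr (by exact_mod_cast hp.pos)
  rw [hf.pow hp.pos, sqrt_pow_nat, norm_pow, le_div_iff₀ (by positivity)] at hj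
  rw [mul_pow]
  exact hj

lemma prime_le {f : ArithmeticFunction ℂ} (hf : CM f) {c : ℝ} (hc : 0 ≤ c)
    (hS : ∀ᶠ N : ℕ in atTop, ‖Su f N‖ ≤ c / Real.sqrt N) {p : ℕ} (hp : p.Prime) :
    ‖f p‖ * Real.sqrt p ≤ 1 := by
  by_contra h
  push Not at h
  have h1 := tendsto_pow_atTop_atTop_of_one_lt h
  obtain ⟨j, h2, h3⟩ := ((h1.eventually (eventually_gt_atTop (3 * c))).and
    (prime_bound hf hc hS hp)).exists
  linarith

lemma prime_lt {f : ArithmeticFunction ℂ} (hf : CM f)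
    (hS : ∀ c : ℝ, 0 < c → ∀ᶠ N : ℕ in atTop, ‖Su f N‖ ≤ c / Real.sqrt N) {p : ℕ}
    (hp : p.Prime) : ‖f p‖ * Real.sqrt p < 1 := by
  by_contra h
  push Not at h
  obtain ⟨j, h3⟩ := (prime_bound hf (by norm_num : (0:ℝ) ≤ 1/4) (hS _ (by norm_num)) hp).exists
  have h4 : 1 ≤ (‖f p‖ * Real.sqrt p) ^ j := one_le_pow₀ h
  linarith

lemma rpow_half {p : ℕ} (hp : p.Prime) {x : ℝ} (h : x * Real.sqrt p ≤ 1) :
    x ≤ (p:ℝ) ^ (-(1/2) : ℝ) := by
  have hs : 0 < Real.sqrt p := Real.sqrt_pos.mpr (by exact_mod_cast hp.pos)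
  rw [Real.rpow_neg (by positivity), ← Real.sqrt_eq_rpow]
  rw [← le_div_iff₀ hs] at h
  simpa using h

/-- Building the data from local conditions. -/
lemma mkDat {f b k : ArithmeticFunction ℂ} (hf : CM f) (hb : CM b) (fac : b = Z * k)
    (ks : LSeriesSummable k (-(1/2) : ℝ)) {r : ℕ → ℝ}
    (hbr : ∀ p : ℕ, p.Prime → b p = (r p : ℂ))
    (hr1 : ∀ p : ℕ, p.Prime → (p:ℝ)⁻¹ ≤ r p)
    (hr2 : ∀ p : ℕ, p.Prime → r p * Real.sqrt p ≤ 1)
    (hfp : ∀ p : ℕ, p.Prime → ‖f p‖ * Real.sqrt p ≤ 1)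
    (hfr : ∀ p : ℕ, p.Prime → 0 ≤ f p ∨ ‖f p‖ ≤ r p) : Dat f b k := by
  have hr0 : ∀ p : ℕ, p.Prime → 0 < r p := fun p hp =>
    (inv_pos.mpr (by exact_mod_cast hp.pos : (0:ℝ) < p)).trans_le (hr1 p hp)
  have hbn : ∀ p : ℕ, p.Prime → ‖b p‖ = r p := by
    intro p hp
    rw [hbr p hp, Complex.norm_real, Real.norm_of_nonneg (hr0 p hp).le]
  have hle1 : ∀ p : ℕ, p.Prime → (p:ℝ) ^ (-(1/2) : ℝ) ≤ 1 := fun p hp =>
    Real.rpow_le_one_of_one_le_of_nonpos (by exact_mod_cast hp.one_lt.le) (by norm_num)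
  have hfp' : ∀ p : ℕ, p.Prime → ‖f p‖ ≤ (p:ℝ) ^ (-(1/2) : ℝ) := fun p hp =>
    rpow_half hp (hfp p hp)
  have hbp' : ∀ p : ℕ, p.Prime → ‖b p‖ ≤ (p:ℝ) ^ (-(1/2) : ℝ) := fun p hp => by
    rw [hbn p hp]
    exact rpow_half hp (hr2 p hp)
  refine ⟨hf, hb, hf.le_one fun p hp => (hfp' p hp).trans (hle1 p hp),
    hb.le_one fun p hp => (hbp' p hp).trans (hle1 p hp), fac, ks, hfp', hbp', ?_, ?_⟩
  · intro p j hp
    rw [cj_apply, hb.pow hp.pos, hf.pow hp.pos, hbr p hp]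
    have hrr : (0:ℝ) ≤ r p ^ j := pow_nonneg (hr0 p hp).le j
    have hb0 : (0:ℂ) ≤ (r p : ℂ) ^ j := by exact_mod_cast hrr
    rcases hfr p hp with h | h
    · have h1 : (0:ℂ) ≤ f p ^ j := pow_nonneg h j
      have h2 : (0:ℂ) ≤ (starRingEnd ℂ) (f p ^ j) := by
        have h3 := Complex.le_def.mp h1
        simp only [Complex.zero_re, Complex.zero_im] at h3
        refine Complex.le_def.mpr ⟨?_, ?_⟩
        · rw [Complex.conj_re]; exact h3.1
        · rw [Complex.conj_im, ← h3.2]; simp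
      exact add_nonneg (add_nonneg (add_nonneg hb0 hb0) h1) h2
    · have h1 : ‖f p ^ j‖ ≤ r p ^ j := by
        rw [norm_pow]
        exact pow_le_pow_left₀ (norm_nonneg _) h j
      have h2 : (r p : ℂ) ^ j + (r p : ℂ) ^ j + f p ^ j + (starRingEnd ℂ) (f p ^ j)
          = ((2 * (r p ^ j) + 2 * (f p ^ j).re : ℝ) : ℂ) := by
        rw [add_assoc _ (f p ^ j), Complex.add_conj]
        push_cast
        ring
      rw [h2]
      have h3 := Complex.abs_re_le_norm (f p ^ j)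
      have h4 := (abs_le.mp (h3.trans h1)).1
      exact_mod_cast (by linarith : (0:ℝ) ≤ 2 * (r p ^ j) + 2 * (f p ^ j).re)
  · intro p hp σ hσ hσ0
    have hp0 : (0:ℝ) < p := by exact_mod_cast hp.pos
    have hp1 : (1:ℝ) < p := by exact_mod_cast hp.one_lt
    set x : ℝ := (p:ℝ) ^ (-σ) with hx
    have hx0 : 0 < x := Real.rpow_pos_of_pos hp0 _
    have hxs : x < Real.sqrt p := by
      rw [Real.sqrt_eq_rpow]
      exact Real.rpow_lt_rpow_of_exponent_lt hp1 (by linarith)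
    have h3 : (p:ℂ) ^ (-(σ:ℂ)) = (x : ℂ) := by
      rw [hx, Complex.ofReal_cpow hp0.le]
      push_cast
      rfl
    have h4 : (p:ℝ) ^ (-(2 + 2 * σ)) = (x / p) ^ 2 := by
      rw [hx, ← Real.rpow_sub_one hp0.ne', ← Real.rpow_natCast, ← Real.rpow_mul hp0.le]
      congr 1
      push_cast
      ring
    rw [h3, h4, hbr p hp]
    have hrx0 : 0 < r p * x := mul_pos (hr0 p hp) hx0
    have hrx1 : r p * x < 1 :=
      (mul_lt_mul_of_pos_left hxs (hr0 p hp)).trans_le (hr2 p hp)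
    have hxp : x / p ≤ r p * x := by
      rw [div_eq_inv_mul]
      exact mul_le_mul_of_nonneg_right (hr1 p hp) hx0.le
    have hxp0 : 0 < x / p := by positivity
    have h5 : ‖(1:ℂ) - (r p : ℂ) * (x:ℂ)‖ = 1 - r p * x := by
      rw [show (1:ℂ) - (r p : ℂ) * (x:ℂ) = ((1 - r p * x : ℝ) : ℂ) by push_cast; ring,
        Complex.norm_real, Real.norm_of_nonneg (by linarith)]
    rw [h5]
    rcases hfr p hp with h | h
    · have h6 : f p = ((f p).re : ℂ) := by
        have h7 := Complex.le_def.mp h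
        exact Complex.ext rfl (by simpa using h7.2.symm)
      have h7 : 0 ≤ (f p).re := (Complex.le_def.mp h).1
      have h8 : ‖f p‖ = (f p).re := by
        conv_lhs => rw [h6]
        rw [Complex.norm_real, Real.norm_of_nonneg h7]
      have h9 : (f p).re * x ≤ 1 := by
        have := hfp p hp
        rw [h8] at this
        refine le_trans ?_ this
        exact mul_le_mul_of_nonneg_left hxs.le h7
      have h10 : ‖(1:ℂ) - f p * (x:ℂ)‖ ≤ 1 := by
        rw [h6, show (1:ℂ) - ((f p).re : ℂ) * (x:ℂ) = ((1 - (f p).re * x : ℝ) : ℂ) by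
          push_cast; ring, Complex.norm_real, Real.norm_of_nonneg (by linarith)]
        have : 0 ≤ (f p).re * x := mul_nonneg h7 hx0.le
        linarith
      calc (1 - r p * x) * ‖(1:ℂ) - f p * (x:ℂ)‖ ≤ (1 - r p * x) * 1 :=
            mul_le_mul_of_nonneg_left h10 (by linarith)
        _ ≤ 1 - (x / p) ^ 2 := by nlinarith
    · have h10 : ‖(1:ℂ) - f p * (x:ℂ)‖ ≤ 1 + r p * x := by
        calc ‖(1:ℂ) - f p * (x:ℂ)‖ ≤ ‖(1:ℂ)‖ + ‖f p * (x:ℂ)‖ := norm_sub_le _ _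
          _ ≤ 1 + r p * x := by
            rw [norm_one, norm_mul, Complex.norm_real, Real.norm_of_nonneg hx0.le]
            gcongr
      calc (1 - r p * x) * ‖(1:ℂ) - f p * (x:ℂ)‖ ≤ (1 - r p * x) * (1 + r p * x) :=
            mul_le_mul_of_nonneg_left h10 (by linarith)
        _ ≤ 1 - (x / p) ^ 2 := by nlinarith

/-- The basic class. -/
theorem basic {f : ArithmeticFunction ℂ} (hf : CM f)
    (hcl : ∀ p : ℕ, p.Prime → 0 ≤ f p ∨ ‖f p‖ ≤ (p:ℝ)⁻¹) {c : ℝ} (hc : 0 ≤ c)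
    (hS : ∀ᶠ N : ℕ in atTop, ‖Su f N‖ ≤ c / Real.sqrt N) :
    1 ≤ c * ‖riemannZeta (1/2)‖ := by
  have hk1 : LSeries.term (⇑(1 : ArithmeticFunction ℂ)) = LSeries.term LSeries.delta := by
    funext s n
    rw [term_eq]
    by_cases hn : n = 1
    · subst hn; simp [LSeries.term, LSeries.delta]
    · rw [ArithmeticFunction.one_apply_ne hn, zero_mul, LSeries.term_def]
      simp [LSeries.delta, hn]
  have hD : Dat f Z 1 := by
    refine mkDat hf Z_CM (by simp) ?_ (r := fun p => (p:ℝ)⁻¹) (fun p _ => by simp)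
      (fun p _ => le_rfl) (fun p hp => ?_) (fun p hp => prime_le hf hc hS hp) hcl
    · unfold LSeriesSummable
      rw [hk1]
      refine summable_of_finite_support ((Set.finite_singleton 1).subset fun n hn => ?_)
      rw [Function.mem_support, LSeries.term_delta] at hn
      by_contra h
      exact hn (if_neg h)
    · have hp0 : (0:ℝ) < p := by exact_mod_cast hp.pos
      rw [inv_mul_le_iff₀ hp0, mul_one]
      exact Real.sqrt_le_self_iff.mpr (Or.inr (by exact_mod_cast hp.one_lt.le))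
  have h := hD.core (K₀ := 1) hc hS (fun σ _ => by
    unfold LSeries
    rw [hk1]
    have := congrFun LSeries_delta (σ:ℂ)
    unfold LSeries at this
    rw [this]
    simp)
  simpa using h

end Run7.h718.Cmo
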