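import Mathlib
import Pool.Agent.Run7.h718.CmoClass

/-!
The class defined by a summability condition.
-/

open ArithmeticFunction Filter Topology Set
open scoped ComplexOrder

namespace Run7.h718.Cmo

/-- the completely multiplicative function with prescribed values at primes -/
noncomputable def bf (r : ℕ → ℝ) : ArithmeticFunction ℂ :=
  ⟨fun n => if n = 0 then 0 else (n.primeFactorsList.map (fun p => (r p : ℂ))).prod, by simp⟩

lemma bf_apply (r : ℕ → ℝ) {n : ℕ} (hn : n ≠ 0) :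
    bf r n = (n.primeFactorsList.map (fun p => (r p : ℂ))).prod := if_neg hn

lemma bf_CM (r : ℕ → ℝ) : CM (bf r) where
  one := by rw [bf_apply r one_ne_zero]; simp
  mul m n hm hn := by
    rw [bf_apply r hm.ne', bf_apply r hn.ne', bf_apply r (mul_pos hm hn).ne']
    rw [((Nat.perm_primeFactorsList_mul hm.ne' hn.ne').map _).prod_eq, List.map_append,
      List.prod_append]

lemma bf_prime (r : ℕ → ℝ) {p : ℕ} (hp : p.Prime) : bf r p = (r p : ℂ) := by
  rw [bf_apply r hp.ne_zero, Nat.primeFactorsList_prime hp]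
  simp

/-- the Dirichlet inverse of `Z` -/
noncomputable def Zi : ArithmeticFunction ℂ := ⟨fun n => ((moebius n : ℤ) : ℂ) * (n:ℂ)⁻¹, by simp⟩

lemma Zi_apply (n : ℕ) : Zi n = ((moebius n : ℤ) : ℂ) * (n:ℂ)⁻¹ := rfl

lemma Z_mul_Zi : Z * Zi = 1 := by
  ext n
  rcases Nat.eq_zero_or_pos n with rfl | hn
  · simp
  rw [mul_apply]
  have h1 : ∀ x ∈ n.divisorsAntidiagonal, Z x.1 * Zi x.2 = (n:ℂ)⁻¹ * ((moebius x.2 : ℤ) : ℂ) := by
    intro x hx
    have h1 := Nat.mem_divisorsAntidiagonal.mp hx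
    rw [Z_apply, Zi_apply, ← h1.1]
    push_cast
    rw [mul_inv]
    ring
  rw [Finset.sum_congr rfl h1, ← Finset.mul_sum]
  have h2 : ∑ x ∈ n.divisorsAntidiagonal, ((moebius x.2 : ℤ) : ℂ) = (1 : ArithmeticFunction ℂ) n := by
    have h3 : (((zeta : ArithmeticFunction ℂ) * (moebius : ArithmeticFunction ℂ) : ArithmeticFunction ℂ)) n = (1 : ArithmeticFunction ℂ) n := by
      rw [coe_zeta_mul_coe_moebius]
    rw [← h3, mul_apply]
    refine Finset.sum_congr rfl fun x hx => ?_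
    have h1 := Nat.mem_divisorsAntidiagonal.mp hx
    have hx1 : x.1 ≠ 0 := by
      rintro h; apply h1.2; rw [← h1.1, h, zero_mul]
    simp [hx1]
  rw [h2]
  by_cases h : n = 1
  · subst h; simp
  · rw [ArithmeticFunction.one_apply_ne h, mul_zero]

lemma lg_one : lg (1 : ArithmeticFunction ℂ) = 0 := by
  ext n
  rw [lg_apply]
  by_cases h : n = 1
  · subst h; simp
  · rw [ArithmeticFunction.one_apply_ne h, mul_zero]; rfl

lemma LD_Zi : LD Zi (-vm Z) := by
  unfold LD
  have h1 : lg (Z * Zi) = 0 := by rw [Z_mul_Zi, lg_one]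
  rw [lg_mul, Z_CM.lg_eq, mul_assoc, Z_mul_Zi, mul_one] at h1
  -- `vm Z + Z * lg Zi = 0`
  have h2 : Zi * (vm Z + Z * lg Zi) = 0 := by rw [h1, mul_zero]
  rw [mul_add, ← mul_assoc, mul_comm Zi Z, Z_mul_Zi, one_mul] at h2
  rw [eq_neg_of_add_eq_zero_right h2]
  ring

/-- the correcting arithmetic function -/
noncomputable def kf (r : ℕ → ℝ) : ArithmeticFunction ℂ := Zi * bf r

lemma bf_eq (r : ℕ → ℝ) : bf r = Z * kf r := by
  unfold kf
  rw [← mul_assoc, Z_mul_Zi, one_mul]

lemma kf_nonneg {r : ℕ → ℝ} (hr : ∀ p : ℕ, p.Prime → (p:ℝ)⁻¹ ≤ r p) (n : ℕ) : 0 ≤ kf r n := by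
  have h1 : LD (kf r) (-vm Z + vm (bf r)) := LD_Zi.mul (bf_CM r).LD
  have hL : ∀ n, (-vm Z + vm (bf r)) n = (Λ n : ℂ) * (bf r n - Z n) := by
    intro n
    simp only [ArithmeticFunction.add_apply, vm_apply]
    have : (-vm Z) n = -((Λ n : ℂ) * Z n) := rfl
    rw [this]
    ring
  refine h1.nonneg ?_ ?_ ?_ n
  · have : kf r 1 = 1 := by
      unfold kf
      simp [(bf_CM r).one, Zi_apply]
    rw [this]
    exact zero_le_one
  · rw [hL]; simp
  · intro n
    rw [hL]
    by_cases hn : IsPrimePow n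
    · obtain ⟨p, j, hp, _, rfl⟩ := hn
      refine mul_nonneg (by exact_mod_cast vonMangoldt_nonneg) ?_
      rw [(bf_CM r).pow hp.nat_prime.pos, Z_CM.pow hp.nat_prime.pos, bf_prime r hp.nat_prime,
        Z_apply]
      have h2 : ((p:ℝ)⁻¹) ^ j ≤ r p ^ j := pow_le_pow_left₀ (by positivity) (hr p hp.nat_prime) j
      have h3 : (r p : ℂ) ^ j - ((p:ℂ)⁻¹) ^ j = ((r p ^ j - ((p:ℝ)⁻¹) ^ j : ℝ) : ℂ) := by
        push_cast; ring
      rw [h3]
      exact_mod_cast (by linarith : (0:ℝ) ≤ r p ^ j - ((p:ℝ)⁻¹) ^ j)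
    · rw [vonMangoldt_eq_zero_iff.mpr hn]
      simp

lemma LSeries_res_gen {g : ArithmeticFunction ℂ} (hg : CM g) {s : ℂ}
    (h : ∀ {p : ℕ}, p.Prime → ‖g p * (p : ℂ) ^ (-s)‖ < 1) (N : ℕ) :
    LSeriesSummable (res N g) s ∧ LSeries (res N g) s = EP g N s := by
  have h0 := EulerProduct.summable_and_hasSum_smoothNumbers_prod_primesBelow_geometric
    (f := tw g hg s) (fun {p} hp => h hp) N
  have h3 : HasSum (Set.indicator (Nat.smoothNumbers N) (fun n => tw g hg s n))
      (∏ p ∈ N.primesBelow, (1 - (tw g hg s) p)⁻¹) :=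
    (hasSum_subtype_iff_indicator (f := fun n => tw g hg s n) (s := Nat.smoothNumbers N)).mp h0.2
  have h4 : (fun n => LSeries.term (res N g) s n)
      = Set.indicator (Nat.smoothNumbers N) (fun n => tw g hg s n) := by
    funext n
    rw [term_eq, res_apply]
    by_cases hn : n ∈ Nat.smoothNumbers N
    · rw [Set.indicator_of_mem hn, Set.indicator_of_mem hn]; rfl
    · rw [Set.indicator_of_notMem hn, Set.indicator_of_notMem hn, zero_mul]
  constructor
  · unfold LSeriesSummable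
    rw [show LSeries.term (res N g) s = fun n => LSeries.term (res N g) s n from rfl, h4]
    exact h3.summable
  · rw [LSeries, h4, h3.tsum_eq]
    rfl

lemma half_cpow {p : ℕ} (hp : p.Prime) :
    (p:ℂ) ^ (-(((-(1/2) : ℝ)) : ℂ)) = ((Real.sqrt p : ℝ) : ℂ) := by
  rw [Real.sqrt_eq_rpow, Complex.ofReal_cpow (by positivity)]
  push_cast
  congr 1
  ring

lemma kf_summable {r : ℕ → ℝ} (hr : ∀ p : ℕ, p.Prime → (p:ℝ)⁻¹ ≤ r p)
    (hr2 : ∀ p : ℕ, p.Prime → r p * Real.sqrt p < 1)
    (hsum : Summable fun p : Nat.Primes => Real.sqrt (p:ℕ) * (r p - ((p:ℕ):ℝ)⁻¹)) :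
    LSeriesSummable (kf r) (-(1/2) : ℝ) := by
  set s : ℂ := ((-(1/2) : ℝ) : ℂ) with hs
  have hr0 : ∀ p : ℕ, p.Prime → 0 < r p := fun p hp =>
    (inv_pos.mpr (by exact_mod_cast hp.pos : (0:ℝ) < p)).trans_le (hr p hp)
  have hb : ∀ {p : ℕ}, p.Prime → ‖bf r p * (p : ℂ) ^ (-s)‖ < 1 := by
    intro p hp
    rw [hs, half_cpow hp, bf_prime r hp, ← Complex.ofReal_mul, Complex.norm_real,
      Real.norm_of_nonneg (mul_nonneg (hr0 p hp).le (Real.sqrt_nonneg _))]
    exact hr2 p hp
  have hZ : ∀ {p : ℕ}, p.Prime → ‖Z p * (p : ℂ) ^ (-s)‖ < 1 := by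
    intro p hp
    have h1 : Z p = (((p:ℝ)⁻¹ : ℝ) : ℂ) := by rw [Z_apply]; push_cast; rfl
    rw [hs, half_cpow hp, h1, ← Complex.ofReal_mul, Complex.norm_real,
      Real.norm_of_nonneg (by positivity)]
    exact (mul_le_mul_of_nonneg_right (hr p hp) (Real.sqrt_nonneg _)).trans_lt (hr2 p hp)
  -- the local excess
  set y : ℕ → ℝ := Set.indicator {p : ℕ | p.Prime}
    (fun p => Real.sqrt p * (r p - (p:ℝ)⁻¹) / (1 - r p * Real.sqrt p)) with hy
  have hw : Summable (Set.indicator {p : ℕ | p.Prime}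
      (fun p : ℕ => Real.sqrt p * (r p - (p:ℝ)⁻¹))) := by
    rw [← summable_subtype_iff_indicator]
    exact hsum
  have hy0 : ∀ p, 0 ≤ y p := by
    intro p
    rw [hy]
    refine indicator_nonneg (fun p hp => ?_) p
    have hp' : p.Prime := hp
    refine div_nonneg (mul_nonneg (Real.sqrt_nonneg _) ?_) ?_
    · linarith [hr p hp']
    · linarith [hr2 p hp']
  have hysum : Summable y := by
    refine Summable.of_norm_bounded_eventually_nat (g := fun n => 2 * Set.indicator
      {p : ℕ | p.Prime} (fun p : ℕ => Real.sqrt p * (r p - (p:ℝ)⁻¹)) n) (hw.mul_left 2) ?_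
    have hw0 := hw.tendsto_atTop_zero
    filter_upwards [hw0.eventually (gt_mem_nhds (show (0:ℝ) < 1/4 by norm_num)),
      eventually_ge_atTop 16] with p h1 h2
    rw [Real.norm_of_nonneg (hy0 p), hy]
    by_cases hp : p ∈ {p : ℕ | p.Prime}
    · rw [indicator_of_mem hp] at h1 ⊢
      rw [indicator_of_mem hp]
      have hp' : p.Prime := hp
      have hp0 : (0:ℝ) < p := by exact_mod_cast hp'.pos
      have h16 : (4:ℝ) ≤ Real.sqrt p := by
        rw [show (4:ℝ) = Real.sqrt 16 by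
          rw [show (16:ℝ) = 4 ^ 2 by norm_num, Real.sqrt_sq (by norm_num)]]
        exact Real.sqrt_le_sqrt (by exact_mod_cast h2)
      have h3 : Real.sqrt p * (p:ℝ)⁻¹ ≤ 1/4 := by
        have h4 : Real.sqrt p * Real.sqrt p = p := Real.mul_self_sqrt hp0.le
        have h5 : 0 < Real.sqrt p := by linarith
        rw [← div_eq_mul_inv, div_le_iff₀ hp0]
        nlinarith
      have h6 : r p * Real.sqrt p ≤ 1/2 := by nlinarith
      have h7 : 0 ≤ Real.sqrt p * (r p - (p:ℝ)⁻¹) :=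
        mul_nonneg (Real.sqrt_nonneg _) (by linarith [hr p hp'])
      rw [div_le_iff₀ (by linarith)]
      nlinarith
    · rw [indicator_of_notMem hp, indicator_of_notMem hp]
      norm_num
  -- partial sums
  have hres : ∀ N, LSeriesSummable (res N (kf r)) s ∧
      ‖LSeries (res N (kf r)) s‖ ≤ Real.exp (∑' p, y p) := by
    intro N
    obtain ⟨hb1, hb2⟩ := LSeries_res_gen (bf_CM r) hb N
    obtain ⟨hZ1, hZ2⟩ := LSeries_res_gen Z_CM hZ N
    have hZi : LSeriesSummable (res N Zi) s := by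
      refine Summable.of_norm_bounded (g := fun n => ‖LSeries.term (res N Z) s n‖) hZ1.norm
        fun n => ?_
      rw [term_eq, term_eq, norm_mul, norm_mul]
      gcongr
      rw [res_apply, res_apply]
      by_cases hn : n ∈ Nat.smoothNumbers N
      · rw [indicator_of_mem hn, indicator_of_mem hn, Zi_apply, Z_apply, norm_mul]
        have h1 : ‖((moebius n : ℤ) : ℂ)‖ ≤ 1 := by
          rw [Complex.norm_intCast]
          exact_mod_cast abs_moebius_le_one
        calc ‖((moebius n : ℤ) : ℂ)‖ * ‖(n:ℂ)⁻¹‖ ≤ 1 * ‖(n:ℂ)⁻¹‖ := by gcongr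
          _ = ‖(n:ℂ)⁻¹‖ := one_mul _
      · rw [indicator_of_notMem hn, indicator_of_notMem hn]
    have hone : LSeries (res N Z) s * LSeries (res N Zi) s = 1 := by
      rw [← LSeries_res_mul hZ1 hZi, Z_mul_Zi]
      have h1 : LSeries.term (res N (1 : ArithmeticFunction ℂ)) s
          = fun n => if n = 1 then 1 else 0 := by
        funext n
        rw [term_eq, res_apply]
        by_cases hn : n = 1
        · subst hn
          rw [indicator_of_mem (Nat.mem_smoothNumbers.mpr ⟨one_ne_zero, by simp⟩)]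
          simp
        · rw [if_neg hn]
          by_cases hn' : n ∈ Nat.smoothNumbers N
          · rw [indicator_of_mem hn', ArithmeticFunction.one_apply_ne hn, zero_mul]
          · rw [indicator_of_notMem hn', zero_mul]
      rw [LSeries, h1, tsum_ite_eq]
    have hks : LSeriesSummable (res N (kf r)) s := by
      unfold kf
      rw [res_mul]
      exact LSeriesSummable_mul hZi hb1
    refine ⟨hks, ?_⟩
    have hval : LSeries (res N (kf r)) s = (EP Z N s)⁻¹ * EP (bf r) N s := by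
      unfold kf
      rw [LSeries_res_mul hZi hb1, hb2]
      congr 1
      rw [← hZ2]
      exact eq_inv_of_mul_eq_one_right hone
    rw [hval]
    unfold EP
    rw [← Finset.prod_inv_distrib, ← Finset.prod_mul_distrib, norm_prod]
    have hfac : ∀ p ∈ N.primesBelow, ‖(1 - Z p * (p:ℂ) ^ (-s))⁻¹⁻¹
        * (1 - bf r p * (p:ℂ) ^ (-s))⁻¹‖ ≤ Real.exp (y p) := by
      intro p hp
      have hp' : p.Prime := Nat.prime_of_mem_primesBelow hp
      have hp0 : (0:ℝ) < p := by exact_mod_cast hp'.pos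
      have h1 : Z p = (((p:ℝ)⁻¹ : ℝ) : ℂ) := by rw [Z_apply]; push_cast; rfl
      have h2 : 0 < 1 - r p * Real.sqrt p := by linarith [hr2 p hp']
      rw [inv_inv, hs, half_cpow hp', bf_prime r hp', h1, norm_mul, norm_inv]
      have h3 : ‖(1:ℂ) - (((p:ℝ)⁻¹ : ℝ) : ℂ) * ((Real.sqrt p : ℝ) : ℂ)‖
          = 1 - (p:ℝ)⁻¹ * Real.sqrt p := by
        rw [show (1:ℂ) - (((p:ℝ)⁻¹ : ℝ) : ℂ) * ((Real.sqrt p : ℝ) : ℂ)
          = ((1 - (p:ℝ)⁻¹ * Real.sqrt p : ℝ) : ℂ) by push_cast; ring, Complex.norm_real,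
          Real.norm_of_nonneg]
        have := mul_le_mul_of_nonneg_right (hr p hp') (Real.sqrt_nonneg (p:ℝ))
        linarith
      have h4 : ‖(1:ℂ) - ((r p : ℝ) : ℂ) * ((Real.sqrt p : ℝ) : ℂ)‖
          = 1 - r p * Real.sqrt p := by
        rw [show (1:ℂ) - ((r p : ℝ) : ℂ) * ((Real.sqrt p : ℝ) : ℂ)
          = ((1 - r p * Real.sqrt p : ℝ) : ℂ) by push_cast; ring, Complex.norm_real,
          Real.norm_of_nonneg h2.le]
      rw [h3, h4]
      have h5 : (1 - (p:ℝ)⁻¹ * Real.sqrt p) * (1 - r p * Real.sqrt p)⁻¹ = y p + 1 := by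
        rw [hy, indicator_of_mem (show p ∈ {p : ℕ | p.Prime} from hp'), ← div_eq_mul_inv,
          div_add_one h2.ne']
        congr 1
        ring
      rw [h5]
      exact Real.add_one_le_exp _
    calc _ ≤ ∏ p ∈ N.primesBelow, Real.exp (y p) :=
          Finset.prod_le_prod (fun _ _ => norm_nonneg _) hfac
      _ = Real.exp (∑ p ∈ N.primesBelow, y p) := (Real.exp_sum _ _).symm
      _ ≤ _ := Real.exp_le_exp.mpr (hysum.sum_le_tsum _ fun p _ => hy0 p)
  -- conclusion
  have hterm : ∀ u : ArithmeticFunction ℂ, (∀ n, 0 ≤ u n) → ∀ n, 0 ≤ LSeries.term u s n := by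
    intro u hu n
    rw [term_eq, hs]
    rcases Nat.eq_zero_or_pos n with rfl | hn
    · simp
    have h1 : (n:ℂ) ^ (-(((-(1/2) : ℝ)) : ℂ)) = (((n:ℝ) ^ ((1/2) : ℝ) : ℝ) : ℂ) := by
      rw [Complex.ofReal_cpow (by positivity)]
      push_cast
      congr 1
      ring
    rw [h1]
    refine mul_nonneg (hu n) ?_
    have : (0:ℝ) ≤ (n:ℝ) ^ ((1/2) : ℝ) := by positivity
    exact_mod_cast this
  have hsumk : Summable fun n => ‖LSeries.term (kf r) s n‖ := by
    refine summable_of_sum_range_le (c := Real.exp (∑' p, y p)) (fun _ => norm_nonneg _)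
      fun N => ?_
    obtain ⟨h1, h2⟩ := hres N
    have hres0 : ∀ n, 0 ≤ res N (kf r) n := fun n => by
      rw [res_apply]
      exact indicator_nonneg (fun _ _ => kf_nonneg hr _) n
    have h3 : ∀ n ∈ Finset.range N, ‖LSeries.term (kf r) s n‖
        = ‖LSeries.term (res N (kf r)) s n‖ := by
      intro n hn
      rw [term_eq, term_eq, res_apply]
      rcases Nat.eq_zero_or_pos n with rfl | hn0
      · have h5 : (0:ℕ) ∉ Nat.smoothNumbers N := fun h => Nat.ne_zero_of_mem_smoothNumbers h rfl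
        rw [indicator_of_notMem h5]
        simp
      · rw [indicator_of_mem]
        refine Nat.mem_smoothNumbers'.mpr fun p hp hpn => ?_
        exact (Nat.le_of_dvd hn0 hpn).trans_lt (Finset.mem_range.mp hn)
    rw [Finset.sum_congr rfl h3]
    have h4 : ∑ n ∈ Finset.range N, ‖LSeries.term (res N (kf r)) s n‖
        ≤ ∑' n, ‖LSeries.term (res N (kf r)) s n‖ :=
      h1.norm.sum_le_tsum _ fun _ _ => norm_nonneg _
    refine h4.trans (le_trans (le_of_eq ?_) h2)
    have h5 : ∀ n, LSeries.term (res N (kf r)) s n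
        = ((‖LSeries.term (res N (kf r)) s n‖ : ℝ) : ℂ) := by
      intro n
      have h6 := Complex.le_def.mp (hterm _ hres0 n)
      have h7 : LSeries.term (res N (kf r)) s n
          = ((LSeries.term (res N (kf r)) s n).re : ℂ) :=
        Complex.ext rfl (by simpa using h6.2.symm)
      conv_lhs => rw [h7]
      conv_rhs => rw [h7]
      rw [Complex.norm_real, Real.norm_of_nonneg h6.1]
    rw [LSeries, tsum_congr h5, ← Complex.ofReal_tsum, Complex.norm_real,
      Real.norm_of_nonneg (tsum_nonneg fun _ => norm_nonneg _)]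
  exact hsumk.of_norm

end Run7.h718.Cmo
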