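import Mathlib
import Pool.Agent.Run7.h718.CmoGen

/-!
The main theorems on completely multiplicative functions `f : ℕ → ℂ`.
-/

open ArithmeticFunction Filter Topology Set
open scoped ComplexOrder

namespace Run7.h718.Cmo

/-- complete multiplicativity of a function on the positive integers -/
def CMul (f : ℕ → ℂ) : Prop := f 1 = 1 ∧ ∀ m n : ℕ, 0 < m → 0 < n → f (m * n) = f m * f n

/-- the arithmetic function of `f` -/
noncomputable def af (f : ℕ → ℂ) : ArithmeticFunction ℂ := ⟨fun n => if n = 0 then 0 else f n, by simp⟩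

lemma af_apply (f : ℕ → ℂ) {n : ℕ} (hn : n ≠ 0) : af f n = f n := if_neg hn

lemma af_CM {f : ℕ → ℂ} (hf : CMul f) : CM (af f) where
  one := by rw [af_apply f one_ne_zero, hf.1]
  mul m n hm hn := by
    rw [af_apply f hm.ne', af_apply f hn.ne', af_apply f (mul_pos hm hn).ne', hf.2 m n hm hn]

lemma Su_af (f : ℕ → ℂ) (N : ℕ) : Su (af f) N = ∑ n ∈ Finset.Icc 1 N, f n := by
  unfold Su
  refine Finset.sum_congr rfl fun n hn => ?_
  have : 1 ≤ n := (Finset.mem_Icc.mp hn).1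
  exact af_apply f (by omega)

/-- The universal constant. -/
theorem universal {f : ℕ → ℂ} (hf : CMul f)
    (hcl : ∀ p : ℕ, p.Prime → ‖f p‖ ≤ 1 / p ∨ 0 ≤ f p) {c : ℝ}
    (hc : c * ‖riemannZeta (1/2)‖ < 1) (M : ℕ) :
    ∃ N : ℕ, M ≤ N ∧ 0 < N ∧ c / Real.sqrt N < ‖∑ n ∈ Finset.Icc 1 N, f n‖ := by
  -- enlarge `c` to a positive constant
  obtain ⟨c', hc'0, hcc, hc'⟩ : ∃ c' : ℝ, 0 ≤ c' ∧ c ≤ c' ∧ c' * ‖riemannZeta (1/2)‖ < 1 := by
    refine ⟨max c 0, le_max_right _ _, le_max_left _ _, ?_⟩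
    rcases le_total c 0 with h | h
    · rw [max_eq_right h]; simp
    · rw [max_eq_left h]; exact hc
  by_contra hcon
  push Not at hcon
  have hS : ∀ᶠ N : ℕ in atTop, ‖Su (af f) N‖ ≤ c' / Real.sqrt N := by
    filter_upwards [eventually_ge_atTop M, eventually_gt_atTop 0] with N hN hN0
    rw [Su_af]
    exact (hcon N hN hN0).trans (by gcongr)
  have := basic (af_CM hf) (fun p hp => by
    rw [af_apply f hp.ne_zero]
    rcases hcl p hp with h | h
    · right; simpa using h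
    · left; exact h) hc'0 hS
  linarith

/-- The class given by a summability condition. -/
theorem general {f : ℕ → ℂ} (hf : CMul f) {P : ℕ → Prop} (hP : ∀ p : ℕ, p.Prime → P p → 0 ≤ f p)
    (hsum : Summable fun p : {p : ℕ // p.Prime ∧ ¬ P p} =>
      Real.sqrt (p:ℕ) * max 0 (‖f p‖ - 1 / (p:ℕ))) :
    ∃ c : ℝ, 0 < c ∧ ∀ M : ℕ, ∃ N : ℕ, M ≤ N ∧ 0 < N ∧
      c / Real.sqrt N ≤ ‖∑ n ∈ Finset.Icc 1 N, f n‖ := by
  classical
  by_contra hcon
  push Not at hcon
  have hS : ∀ c : ℝ, 0 < c → ∀ᶠ N : ℕ in atTop, ‖Su (af f) N‖ ≤ c / Real.sqrt N := by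
    intro c hc
    obtain ⟨M, hM⟩ := hcon c hc
    filter_upwards [eventually_ge_atTop M, eventually_gt_atTop 0] with N hN hN0
    rw [Su_af]
    exact (hM N hN hN0).le
  have hfc := af_CM hf
  have hlt : ∀ p : ℕ, p.Prime → ‖f p‖ * Real.sqrt p < 1 := fun p hp => by
    have := prime_lt hfc hS hp
    rwa [af_apply f hp.ne_zero] at this
  set r : ℕ → ℝ := fun p => if P p then (p:ℝ)⁻¹ else max ‖f p‖ (p:ℝ)⁻¹ with hr
  have hr1 : ∀ p : ℕ, p.Prime → (p:ℝ)⁻¹ ≤ r p := by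
    intro p _
    simp only [hr]
    split_ifs
    · exact le_rfl
    · exact le_max_right _ _
  have hinv : ∀ p : ℕ, p.Prime → (p:ℝ)⁻¹ * Real.sqrt p < 1 := by
    intro p hp
    have hp1 : (1:ℝ) < p := by exact_mod_cast hp.one_lt
    have hp0 : (0:ℝ) < p := by linarith
    rw [inv_mul_lt_iff₀ hp0, mul_one]
    have h1 : 1 < Real.sqrt p := by
      rw [show (1:ℝ) = Real.sqrt 1 by simp]
      exact Real.sqrt_lt_sqrt zero_le_one hp1
    have h2 : Real.sqrt p * Real.sqrt p = p := Real.mul_self_sqrt hp0.le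
    nlinarith
  have hr2 : ∀ p : ℕ, p.Prime → r p * Real.sqrt p < 1 := by
    intro p hp
    simp only [hr]
    split_ifs
    · exact hinv p hp
    · rw [max_mul_of_nonneg _ _ (Real.sqrt_nonneg _)]
      exact max_lt (hlt p hp) (hinv p hp)
  have hrs : Summable fun p : Nat.Primes => Real.sqrt (p:ℕ) * (r p - ((p:ℕ):ℝ)⁻¹) := by
    have h1 : Summable (Set.indicator {p : ℕ | p.Prime ∧ ¬ P p}
        (fun p : ℕ => Real.sqrt p * max 0 (‖f p‖ - 1 / p))) := by
      rw [← summable_subtype_iff_indicator]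
      exact hsum
    have h2 : Summable (Set.indicator {p : ℕ | p.Prime}
        (fun p : ℕ => Real.sqrt p * (r p - (p:ℝ)⁻¹))) := by
      refine h1.congr fun p => ?_
      by_cases hp : p.Prime
      · rw [indicator_of_mem (show p ∈ {p : ℕ | p.Prime} from hp)]
        by_cases h : P p
        · rw [indicator_of_notMem (fun h' => h'.2 h)]
          simp only [hr, if_pos h, sub_self, mul_zero]
        · rw [indicator_of_mem (show p ∈ {p : ℕ | p.Prime ∧ ¬ P p} from ⟨hp, h⟩)]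
          simp only [hr, if_neg h]
          congr 1
          rw [one_div, max_sub_sub_right _ _ _ |>.symm, sub_self, max_comm]
      · rw [indicator_of_notMem (show p ∉ {p : ℕ | p.Prime} from hp),
          indicator_of_notMem (fun h' => hp h'.1)]
    have h3 := (summable_subtype_iff_indicator (f := fun p : ℕ =>
      Real.sqrt p * (r p - (p:ℝ)⁻¹)) (s := {p : ℕ | p.Prime})).mpr h2
    exact h3
  have hks := kf_summable hr1 hr2 hrs
  have hD : Dat (af f) (bf r) (kf r) := by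
    refine mkDat hfc (bf_CM r) (bf_eq r) hks (fun p hp => bf_prime r hp) hr1
      (fun p hp => (hr2 p hp).le) (fun p hp => ?_) (fun p hp => ?_)
    · rw [af_apply f hp.ne_zero]; exact (hlt p hp).le
    · rw [af_apply f hp.ne_zero]
      by_cases h : P p
      · exact Or.inl (hP p hp h)
      · right
        simp only [hr, if_neg h]
        exact le_max_left _ _
  -- the constant
  set K₀ : ℝ := ∑' n, ‖LSeries.term (kf r) ((-(1/2) : ℝ) : ℂ) n‖ with hK₀
  have hK0 : 0 ≤ K₀ := tsum_nonneg fun _ => norm_nonneg _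
  have hK : ∀ σ : ℝ, -(1/2) < σ → ‖LSeries (kf r) σ‖ ≤ K₀ := by
    intro σ hσ
    have hle : ∀ n, ‖LSeries.term (kf r) σ n‖ ≤ ‖LSeries.term (kf r) ((-(1/2) : ℝ) : ℂ) n‖ := by
      intro n
      refine LSeries.norm_term_le_of_re_le_re _ ?_ n
      simpa using hσ.le
    have hs2 : Summable fun n => ‖LSeries.term (kf r) σ n‖ :=
      Summable.of_nonneg_of_le (fun _ => norm_nonneg _) hle hks.norm
    exact (norm_tsum_le_tsum_norm hs2).trans (hs2.tsum_le_tsum hle hks.norm)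
  set A : ℝ := ‖riemannZeta (1/2)‖ * K₀ with hA
  have hA0 : 0 ≤ A := mul_nonneg (norm_nonneg _) hK0
  have h1 := hD.core (c := 1 / (2 * (A + 1))) (by positivity) (hS _ (by positivity)) hK
  rw [mul_assoc, ← hA, div_mul_eq_mul_div, one_mul, le_div_iff₀ (by positivity)] at h1
  linarith

/-- A large value of `f` forces large partial sums. -/
theorem largeValue {f : ℕ → ℂ} (hf : CMul f) {n : ℕ} (hn : 2 ≤ n) {a : ℝ} (ha : 0 ≤ a)
    (hfn : (n:ℝ) ^ (-a) ≤ ‖f n‖) :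
    ∃ c : ℝ, 0 < c ∧ ∀ M : ℕ, ∃ N : ℕ, M ≤ N ∧ 0 < N ∧
      c * (N:ℝ) ^ (-a) ≤ ‖∑ n ∈ Finset.Icc 1 N, f n‖ := by
  refine ⟨(2:ℝ) ^ (-a) / 2, by positivity, fun M => ?_⟩
  have hfc := af_CM hf
  have h1 : Tendsto (fun j : ℕ => n ^ j) atTop atTop :=
    tendsto_pow_atTop_atTop_of_one_lt (by omega)
  obtain ⟨j, hj⟩ := (h1.eventually (eventually_ge_atTop (M + 2))).exists
  have hn0 : (0:ℝ) < n := by exact_mod_cast (by omega : 0 < n)
  have h2 : ((n ^ j : ℕ) : ℝ) ^ (-a) ≤ ‖af f (n ^ j)‖ := by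
    rw [hfc.pow (by omega), norm_pow, af_apply f (by omega)]
    calc ((n ^ j : ℕ) : ℝ) ^ (-a) = ((n:ℝ) ^ (-a)) ^ j := by
          push_cast
          rw [← Real.rpow_natCast, ← Real.rpow_mul hn0.le, ← Real.rpow_natCast,
            ← Real.rpow_mul hn0.le, mul_comm]
      _ ≤ ‖f n‖ ^ j := pow_le_pow_left₀ (by positivity) hfn j
  have h3 := Su_sub (af f) (show 1 ≤ n ^ j by omega)
  rw [h3] at h2
  have h4 := norm_sub_le (Su (af f) (n ^ j)) (Su (af f) (n ^ j - 1))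
  set x : ℝ := ((n ^ j : ℕ) : ℝ) with hx
  have hx0 : 0 < x := by rw [hx]; exact_mod_cast (by omega : 0 < n ^ j)
  have h2a : (2:ℝ) ^ (-a) ≤ 1 := Real.rpow_le_one_of_one_le_of_nonpos (by norm_num) (by linarith)
  have hxa : 0 < x ^ (-a) := Real.rpow_pos_of_pos hx0 _
  rcases le_or_gt (x ^ (-a) / 2) ‖Su (af f) (n ^ j)‖ with h | h
  · refine ⟨n ^ j, by omega, by omega, ?_⟩
    rw [← Su_af, ← hx]
    refine le_trans ?_ h
    nlinarith
  · refine ⟨n ^ j - 1, by omega, by omega, ?_⟩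
    rw [← Su_af]
    have h5 : x ^ (-a) / 2 ≤ ‖Su (af f) (n ^ j - 1)‖ := by linarith
    refine le_trans ?_ h5
    have h6 : x / 2 ≤ ((n ^ j - 1 : ℕ) : ℝ) := by
      have h7 : n ^ j ≤ 2 * (n ^ j - 1) := by omega
      have h8 : x ≤ 2 * ((n ^ j - 1 : ℕ) : ℝ) := by
        rw [hx]; exact_mod_cast h7
      linarith
    have h9 : ((n ^ j - 1 : ℕ) : ℝ) ^ (-a) ≤ (x / 2) ^ (-a) :=
      Real.rpow_le_rpow_of_nonpos (by positivity) h6 (by linarith)
    have h10 : (x / 2) ^ (-a) = x ^ (-a) * ((2:ℝ) ^ (-a))⁻¹ := by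
      rw [Real.div_rpow hx0.le (by norm_num), div_eq_mul_inv]
    have h11 : 0 < (2:ℝ) ^ (-a) := by positivity
    calc (2:ℝ) ^ (-a) / 2 * ((n ^ j - 1 : ℕ) : ℝ) ^ (-a)
        ≤ (2:ℝ) ^ (-a) / 2 * (x ^ (-a) * ((2:ℝ) ^ (-a))⁻¹) := by
          rw [← h10]; gcongr
      _ = x ^ (-a) / 2 := by field_simp

/-- Every completely multiplicative function. -/
theorem powerSaving {f : ℕ → ℂ} (hf : CMul f) :
    ∃ δ : ℝ, 0 < δ ∧ ∃ c : ℝ, 0 < c ∧ ∀ M : ℕ, ∃ N : ℕ, M ≤ N ∧ 0 < N ∧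
      c * (N:ℝ) ^ (-1 + δ) ≤ ‖∑ n ∈ Finset.Icc 1 N, f n‖ := by
  by_cases h : ∀ p : ℕ, p.Prime → ‖f p‖ ≤ 1 / p
  · refine ⟨1/2, by norm_num, 1 / (2 * (‖riemannZeta (1/2)‖ + 1)), by positivity, fun M => ?_⟩
    obtain ⟨N, h1, h2, h3⟩ := universal hf (fun p hp => Or.inl (h p hp))
      (c := 1 / (2 * (‖riemannZeta (1/2)‖ + 1))) (by
        rw [div_mul_eq_mul_div, one_mul, div_lt_one (by positivity)]
        have := norm_nonneg (riemannZeta (1/2))
        linarith) M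
    refine ⟨N, h1, h2, ?_⟩
    rw [show (-1 + 1/2 : ℝ) = -(1/2) by norm_num, Real.rpow_neg (by positivity),
      ← Real.sqrt_eq_rpow, ← div_eq_mul_inv]
    exact h3.le
  · push Not at h
    obtain ⟨p, hp, hfp⟩ := h
    have hp0 : (0:ℝ) < p := by exact_mod_cast hp.pos
    have hp1 : (1:ℝ) < p := by exact_mod_cast hp.one_lt
    have hlog : 0 < Real.log p := Real.log_pos hp1
    have hf0 : 0 < ‖f p‖ := (by positivity : (0:ℝ) < 1 / p).trans hfp
    set a : ℝ := max 0 (-Real.log ‖f p‖ / Real.log p) with ha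
    have ha1 : a < 1 := by
      refine max_lt one_pos ?_
      rw [div_lt_one hlog]
      have h1 := Real.log_lt_log (by positivity) hfp
      rw [Real.log_div one_ne_zero hp0.ne', Real.log_one] at h1
      linarith
    have h2 : (p:ℝ) ^ (-a) ≤ ‖f p‖ := by
      rw [Real.rpow_def_of_pos hp0]
      calc Real.exp (Real.log p * -a) ≤ Real.exp (Real.log ‖f p‖) := by
            refine Real.exp_le_exp.mpr ?_
            have h3 : -Real.log ‖f p‖ / Real.log p ≤ a := le_max_right _ _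
            rw [div_le_iff₀ hlog] at h3
            linarith
        _ = ‖f p‖ := Real.exp_log hf0
    obtain ⟨c, hc, h3⟩ := largeValue hf hp.two_le (le_max_left 0 _) h2
    refine ⟨1 - a, by linarith, c, hc, fun M => ?_⟩
    obtain ⟨N, h4, h5, h6⟩ := h3 M
    refine ⟨N, h4, h5, ?_⟩
    rw [show (-1 + (1 - a)) = -a by ring]
    exact h6

end Run7.h718.Cmo
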