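import Pool.Agent.Run7.h718.Disc

open Set Metric Filter Topology
open scoped NNReal

namespace Run7.h718

variable {E : Type*} [NormedAddCommGroup E] [NormedSpace ℂ E]
variable {Y : E → E} {K M : ℝ≥0} {δ δ₂ : ℝ}

/-- continuity principle: reachability on the boundary circle of an analytic disc of
(base point, complex time) implies reachability inside. -/
theorem cp [CompleteSpace E] (S : Setup Y K M δ δ₂) {c : ℂ} {ϱ : ℝ} (hϱ : 0 < ϱ)
    {z : ℂ → E} {T : ℂ → ℂ}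
    (hz : ∀ s ∈ closedBall c ϱ, DifferentiableAt ℂ z s)
    (hT : ∀ s ∈ closedBall c ϱ, DifferentiableAt ℂ T s)
    (h0 : ∀ s ∈ closedBall c ϱ, ‖z s‖ < δ)
    (hb : ∀ s ∈ sphere c ϱ, ∀ x ∈ Icc (0:ℝ) 1, ‖Φ Y (z s) (x * T s)‖ < δ) :
    ∀ s ∈ closedBall c ϱ, ∀ x ∈ Icc (0:ℝ) 1, ‖Φ Y (z s) (x * T s)‖ < δ := by
  by_contra hcon
  push Not at hcon
  obtain ⟨s₁, hs₁, x₁, hx₁, hN₁⟩ := hcon
  set N : ℝ × ℂ → ℝ := fun p => ‖Φ Y (z p.2) (p.1 * T p.2)‖ with hN
  have hzc : ContinuousOn z (closedBall c ϱ) := fun s hs => (hz s hs).continuousAt.continuousWithinAt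
  have hTc : ContinuousOn T (closedBall c ϱ) := fun s hs => (hT s hs).continuousAt.continuousWithinAt
  have hNc : ContinuousOn N (Icc (0:ℝ) 1 ×ˢ closedBall c ϱ) := by
    have hm : MapsTo Prod.snd (Icc (0:ℝ) 1 ×ˢ closedBall c ϱ) (closedBall c ϱ) := fun p hp => hp.2
    have h1 : ContinuousOn (fun p : ℝ × ℂ => z p.2) (Icc (0:ℝ) 1 ×ˢ closedBall c ϱ) :=
      hzc.comp continuousOn_snd hm
    have h2 : ContinuousOn (fun p : ℝ × ℂ => (p.1 : ℂ) * T p.2) (Icc (0:ℝ) 1 ×ˢ closedBall c ϱ) :=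
      ((Complex.continuous_ofReal.comp continuous_fst).continuousOn).mul
        (hTc.comp continuousOn_snd hm)
    exact ((continuous_Φ S.g).comp_continuousOn (h1.prodMk h2)).norm
  -- the maximum over the boundary
  set B : Set (ℝ × ℂ) := (Icc (0:ℝ) 1 ×ˢ sphere c ϱ) ∪ ({0} ×ˢ closedBall c ϱ) with hB
  have hBc : IsCompact B :=
    (isCompact_Icc.prod (isCompact_sphere c ϱ)).union
      (isCompact_singleton.prod (isCompact_closedBall c ϱ))
  have hBsub : B ⊆ Icc (0:ℝ) 1 ×ˢ closedBall c ϱ := by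
    rintro ⟨x, s⟩ (⟨hx, hs⟩ | ⟨hx, hs⟩)
    · exact ⟨hx, sphere_subset_closedBall hs⟩
    · refine ⟨?_, hs⟩
      simp only [mem_singleton_iff] at hx
      simp [hx]
  have hBne : B.Nonempty := ⟨(0, c), Or.inr ⟨rfl, mem_closedBall_self hϱ.le⟩⟩
  obtain ⟨p, hpB, hpmax⟩ := hBc.exists_isMaxOn hBne (hNc.mono hBsub)
  set m := N p with hm
  have hmδ : m < δ := by
    rcases hpB with ⟨hx, hs⟩ | ⟨hx, hs⟩
    · exact hb p.2 hs p.1 hx
    · have hx0 : p.1 = 0 := hx
      simp only [hm, hN, hx0]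
      simp only [Complex.ofReal_zero, zero_mul, Φ_zero S.g]
      exact h0 _ hs
  set δ' := (m + δ) / 2 with hδ'
  have hmδ' : m < δ' := by rw [hδ']; linarith
  have hδ'δ : δ' < δ := by rw [hδ']; linarith
  -- the bad set
  set C : Set (ℝ × ℂ) := (Icc (0:ℝ) 1 ×ˢ closedBall c ϱ) ∩ N ⁻¹' (Ici δ') with hC
  have hCc : IsCompact C := by
    refine (isCompact_Icc.prod (isCompact_closedBall c ϱ)).of_isClosed_subset ?_ inter_subset_left
    exact hNc.preimage_isClosed_of_isClosed (isClosed_Icc.prod isClosed_closedBall) isClosed_Ici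
  have hCne : C.Nonempty := ⟨(x₁, s₁), ⟨hx₁, hs₁⟩, by
    simp only [mem_preimage, mem_Ici, hN]
    exact hδ'δ.le.trans hN₁⟩
  obtain ⟨q, hqC, hqmin⟩ := hCc.exists_isMinOn hCne continuous_fst.continuousOn
  obtain ⟨⟨hq1, hq2⟩, hq3⟩ := hqC
  set x₀ := q.1 with hx₀
  have hlt : ∀ x ∈ Icc (0:ℝ) 1, x < x₀ → ∀ s ∈ closedBall c ϱ, N (x, s) < δ' := by
    intro x hx hxx s hs
    by_contra hge
    push Not at hge
    have := hqmin (show (x, s) ∈ C from ⟨⟨hx, hs⟩, hge⟩)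
    simp only [mem_ofPred_eq] at this
    linarith
  have hx₀pos : 0 < x₀ := by
    rcases hq1.1.lt_or_eq with h | h
    · exact h
    · exfalso
      have h2 := hpmax (show (x₀, q.2) ∈ B from Or.inr ⟨h.symm, hq2⟩)
      simp only [mem_ofPred_eq] at h2
      have h3 : δ' ≤ N q := hq3
      have h4 : N q ≤ m := h2
      linarith
  -- at `x₀` the norm is at most `δ'`
  have hle : ∀ s ∈ closedBall c ϱ, N (x₀, s) ≤ δ' := by
    intro s hs
    have hcont : ContinuousWithinAt (fun x : ℝ => N (x, s)) (Ico 0 x₀) x₀ := by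
      have h1 : ContinuousWithinAt N (Icc (0:ℝ) 1 ×ˢ closedBall c ϱ) (x₀, s) := hNc _ ⟨hq1, hs⟩
      have h5 : ContinuousWithinAt (fun x : ℝ => (x, s)) (Ico 0 x₀) x₀ :=
        (Continuous.prodMk continuous_id continuous_const).continuousWithinAt
      exact ContinuousWithinAt.comp (g := N) (f := fun x : ℝ => (x, s)) h1 h5
        (fun x hx => ⟨⟨hx.1, hx.2.le.trans hq1.2⟩, hs⟩)
    have hne : (𝓝[Ico 0 x₀] x₀).NeBot := by
      rw [← mem_closure_iff_nhdsWithin_neBot, closure_Ico hx₀pos.ne]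
      exact right_mem_Icc.2 hx₀pos.le
    refine le_of_tendsto hcont.tendsto ?_
    filter_upwards [self_mem_nhdsWithin] with x hx
    exact (hlt x ⟨hx.1, hx.2.le.trans hq1.2⟩ hx.2 s hs).le
  have hle' : ∀ s ∈ closedBall c ϱ, ∀ x ∈ Icc (0:ℝ) 1, ‖Φ Y (z s) (x * (x₀ * T s))‖ ≤ δ := by
    intro s hs x hx
    have hxx : x * x₀ ∈ Icc (0:ℝ) 1 :=
      ⟨mul_nonneg hx.1 hq1.1, mul_le_one₀ hx.2 hq1.1 hq1.2⟩
    have he : (x : ℂ) * (x₀ * T s) = ((x * x₀ : ℝ) : ℂ) * T s := by push_cast; ring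
    rw [he]
    rcases lt_or_eq_of_le (show x * x₀ ≤ x₀ from mul_le_of_le_one_left hq1.1 hx.2) with h | h
    · exact (hlt _ hxx h s hs).le.trans hδ'δ.le
    · rw [h]
      exact (hle s hs).trans hδ'δ.le
  have hTd : ∀ s ∈ closedBall c ϱ, DifferentiableAt ℂ (fun s => (x₀ : ℂ) * T s) s := fun s hs =>
    (hT s hs).const_mul _
  have hhol : DiffContOnCl ℂ (fun s => Φ Y (z s) (x₀ * T s)) (ball c ϱ) := by
    refine ⟨?_, ?_⟩
    · exact hol_Φ S.g S.δlt S.diff isOpen_ball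
        (fun s hs => (hz s (ball_subset_closedBall hs)).differentiableWithinAt)
        (fun s hs => (hTd s (ball_subset_closedBall hs)).differentiableWithinAt)
        (fun s hs x hx => hle' s (ball_subset_closedBall hs) x hx)
    · rw [closure_ball c hϱ.ne']
      have h2 : ContinuousOn (fun s => (z s, (x₀ : ℂ) * T s)) (closedBall c ϱ) :=
        hzc.prodMk (continuousOn_const.mul hTc)
      exact (continuous_Φ S.g).comp_continuousOn h2
  have hfin := Complex.norm_le_of_forall_mem_frontier_norm_le isBounded_ball hhol (C := m) (by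
    intro s hs
    rw [frontier_ball c hϱ.ne'] at hs
    have := hpmax (show (x₀, s) ∈ B from Or.inl ⟨hq1, hs⟩)
    exact this) (z := q.2) (by rw [closure_ball c hϱ.ne']; exact hq2)
  have h3 : δ' ≤ N q := hq3
  have h4 : N q ≤ m := hfin
  linarith

end Run7.h718
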