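import Pool.Agent.Run7.h718.Hol

open Set Metric Filter Topology
open scoped NNReal

namespace Run7.h718

variable {E : Type*} [NormedAddCommGroup E] [NormedSpace ℂ E]
variable {Y : E → E} {K M : ℝ≥0} {δ δ₂ : ℝ}

/-- The standing hypotheses on a vector field `Y`. -/
structure Setup (Y : E → E) (K M : ℝ≥0) (δ δ₂ : ℝ) : Prop where
  g : GField Y K M
  δpos : 0 < δ
  δlt : δ < δ₂
  diff : ∀ z ∈ ball (0:E) δ₂, DifferentiableAt ℂ Y z
  zero : Y 0 = 0
  iso : ∀ z, ‖z‖ ≤ δ → Y z = 0 → z = 0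

/-- the flow from `z` stays in the ball of radius `δ` for all complex times of modulus `< r`. -/
def Disc (Y : E → E) (δ : ℝ) (z : E) (r : ℝ) : Prop := ∀ t : ℂ, ‖t‖ < r → ‖Φ Y z t‖ < δ

lemma Disc.mono {z : E} {r r' : ℝ} (h : Disc Y δ z r) (hr : r' ≤ r) : Disc Y δ z r' :=
  fun t ht => h t (ht.trans_le hr)

lemma norm_real_mul_le {x : ℝ} (hx : x ∈ Icc (0:ℝ) 1) (t : ℂ) : ‖(x : ℂ) * t‖ ≤ ‖t‖ := by
  rw [norm_mul, Complex.norm_real, Real.norm_eq_abs, abs_of_nonneg hx.1]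
  exact mul_le_of_le_one_left (norm_nonneg _) hx.2

lemma hasDerivAt_Φ_of_ball [CompleteSpace E] (S : Setup Y K M δ δ₂) {z : E} {r : ℝ}
    (hb : ∀ t : ℂ, ‖t‖ < r → ‖Φ Y z t‖ ≤ δ) {t : ℂ} (ht : ‖t‖ < r) :
    HasDerivAt (Φ Y z) (Y (Φ Y z t)) t := by
  have hr : 0 < r := (norm_nonneg t).trans_lt ht
  have hd : DifferentiableOn ℂ (fun s => Φ Y z s) (ball 0 r) := by
    refine hol_Φ S.g S.δlt S.diff isOpen_ball (differentiableOn_const z) differentiableOn_id ?_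
    intro s hs x hx
    rw [mem_ball_zero_iff] at hs
    exact hb _ ((norm_real_mul_le hx s).trans_lt hs)
  have hda : DifferentiableAt ℂ (Φ Y z) t :=
    (hd t (mem_ball_zero_iff.2 ht)).differentiableAt
      (isOpen_ball.mem_nhds (mem_ball_zero_iff.2 ht))
  -- choose a nonzero direction `a` and `x ∈ [0,1]` with `x * a = t`
  obtain ⟨a, ha, x, hx, hxa⟩ : ∃ a : ℂ, a ≠ 0 ∧ ∃ x ∈ Icc (0:ℝ) 1, (x : ℂ) * a = t := by
    by_cases h : t = 0
    · exact ⟨1, one_ne_zero, 0, by simp, by simp [h]⟩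
    · exact ⟨t, h, 1, by simp, by simp⟩
  have h1 := (isSol_Φ S.g z a).2 x hx
  have h2 : HasDerivAt (fun x : ℝ => (x : ℂ) * a) a x := by
    have : HasDerivAt (fun x : ℝ => (x : ℂ)) 1 x := Complex.ofRealCLM.hasDerivAt
    simpa using this.mul_const a
  have h3 : HasDerivAt (fun x : ℝ => Φ Y z ((x : ℂ) * a)) (a • deriv (Φ Y z) t) x := by
    have h4 : HasDerivAt (Φ Y z) (deriv (Φ Y z) t) ((x : ℂ) * a) := by
      rw [hxa]; exact hda.hasDerivAt
    exact HasDerivAt.scomp x h4 h2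
  have hu : UniqueDiffWithinAt ℝ (Icc (0:ℝ) 1) x := uniqueDiffOn_Icc (by norm_num) x hx
  have := hu.eq_deriv _ h1 h3.hasDerivWithinAt
  have h5 : Y (Φ Y z ((x : ℂ) * a)) = deriv (Φ Y z) t := smul_right_injective E ha this
  rw [hxa] at h5
  rw [h5]
  exact hda.hasDerivAt

lemma Disc.hasDerivAt [CompleteSpace E] (S : Setup Y K M δ δ₂) {z : E} {r : ℝ}
    (h : Disc Y δ z r) {t : ℂ} (ht : ‖t‖ < r) : HasDerivAt (Φ Y z) (Y (Φ Y z t)) t :=
  hasDerivAt_Φ_of_ball S (fun t ht => (h t ht).le) ht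

lemma norm_seg_lt {a b : ℂ} {r : ℝ} (ha : ‖a‖ < r) (hb : ‖b‖ < r) {x : ℝ}
    (hx : x ∈ Icc (0:ℝ) 1) : ‖a + x * (b - a)‖ < r := by
  have hc := convex_ball (0:ℂ) r
  have : (1 - x) • a + x • b ∈ ball (0:ℂ) r :=
    hc (mem_ball_zero_iff.2 ha) (mem_ball_zero_iff.2 hb) (by linarith [hx.2]) hx.1 (by ring)
  rw [mem_ball_zero_iff] at this
  have he : (1 - x) • a + x • b = a + x * (b - a) := by
    simp only [Complex.real_smul]
    push_cast
    ring
  rwa [he] at this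

lemma Disc.shift [CompleteSpace E] (S : Setup Y K M δ δ₂) {z : E} {r : ℝ}
    (h : Disc Y δ z r) {c τ : ℂ} (hc : ‖c‖ < r) (hcτ : ‖c + τ‖ < r) :
    Φ Y (Φ Y z c) τ = Φ Y z (c + τ) := by
  have := seg S.g (w := Φ Y z) (a := c) (b := c + τ) (fun x hx =>
    h.hasDerivAt S (norm_seg_lt hc hcτ hx))
  simpa using this

/-- bounded entire solutions are trivial -/
lemma entire_trivial (S : Setup Y K M δ δ₂) {v : ℂ → E}
    (hv : ∀ t, HasDerivAt v (Y (v t)) t) (hb : ∀ t, ‖v t‖ ≤ δ) (t : ℂ) : v t = 0 := by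
  have hd : Differentiable ℂ v := fun t => (hv t).differentiableAt
  have hbd : Bornology.IsBounded (range v) := by
    rw [Metric.isBounded_iff_subset_closedBall (0:E)]
    exact ⟨δ, by rintro _ ⟨t, rfl⟩; simpa using hb t⟩
  have hc : v = fun _ => v t := funext fun s => hd.apply_eq_apply_of_bounded hbd s t
  have h1 := hv t
  have h2 : HasDerivAt v 0 t := by
    rw [hc]; exact hasDerivAt_const t (v t)
  exact S.iso _ (hb t) (h1.unique h2)

lemma Disc.all [CompleteSpace E] (S : Setup Y K M δ δ₂) {z : E}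
    (h : ∀ r, Disc Y δ z r) : z = 0 := by
  have h1 : ∀ t, HasDerivAt (Φ Y z) (Y (Φ Y z t)) t := fun t =>
    (h (‖t‖ + 1)).hasDerivAt S (by linarith)
  have := entire_trivial S h1 (fun t => (h (‖t‖ + 1) t (by linarith)).le) 0
  rwa [Φ_zero S.g] at this

/-- quadratic estimate for a solution of `v' = n • Y(v)` -/
lemma quad_est (hY : GField Y K M) {v : ℂ → E} {n : ℂ} (hn : ‖n‖ ≤ 2) {t h : ℂ}
    (hv : ∀ τ ∈ closedBall t ‖h‖, HasDerivAt v (n • Y (v τ)) τ) :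
    ‖v (t + h) - v t - h • (n • Y (v t))‖ ≤ 4 * K * M * ‖h‖ ^ 2 := by
  have hcv := convex_closedBall t ‖h‖
  have ht : t ∈ closedBall t ‖h‖ := mem_closedBall_self (norm_nonneg _)
  have hth : t + h ∈ closedBall t ‖h‖ := by simp [mem_closedBall, dist_eq_norm]
  have hb1 : ∀ τ ∈ closedBall t ‖h‖, ‖n • Y (v τ)‖ ≤ 2 * M := by
    intro τ _
    rw [norm_smul]
    exact mul_le_mul hn (hY.bd _) (norm_nonneg _) (by norm_num)
  have h1 : ∀ τ ∈ closedBall t ‖h‖, ‖v τ - v t‖ ≤ 2 * M * ‖h‖ := by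
    intro τ hτ
    have := hcv.norm_image_sub_le_of_norm_hasDerivWithin_le
      (fun x hx => (hv x hx).hasDerivWithinAt) hb1 ht hτ
    refine this.trans ?_
    have : ‖τ - t‖ ≤ ‖h‖ := by simpa [dist_eq_norm] using hτ
    gcongr
  have hd : ∀ τ ∈ closedBall t ‖h‖, HasDerivWithinAt (fun τ => v τ - τ • (n • Y (v t)))
      (n • Y (v τ) - n • Y (v t)) (closedBall t ‖h‖) τ := by
    intro τ hτ
    have h2 : HasDerivAt (fun τ : ℂ => τ • (n • Y (v t))) ((1:ℂ) • (n • Y (v t))) τ :=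
      (hasDerivAt_id τ).smul_const _
    rw [one_smul] at h2
    exact ((hv τ hτ).sub h2).hasDerivWithinAt
  have hb2 : ∀ τ ∈ closedBall t ‖h‖, ‖n • Y (v τ) - n • Y (v t)‖ ≤ 4 * K * M * ‖h‖ := by
    intro τ hτ
    rw [← smul_sub, norm_smul]
    have h3 : ‖Y (v τ) - Y (v t)‖ ≤ K * ‖v τ - v t‖ := by
      have := hY.lip.dist_le_mul (v τ) (v t)
      simpa [dist_eq_norm] using this
    calc ‖n‖ * ‖Y (v τ) - Y (v t)‖ ≤ 2 * (K * (2 * M * ‖h‖)) := by
          refine mul_le_mul hn (h3.trans ?_) (norm_nonneg _) (by norm_num)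
          exact mul_le_mul_of_nonneg_left (h1 τ hτ) K.2
      _ = _ := by ring
  have := hcv.norm_image_sub_le_of_norm_hasDerivWithin_le hd hb2 ht hth
  have he : v (t + h) - (t + h) • (n • Y (v t)) - (v t - t • (n • Y (v t))) =
      v (t + h) - v t - h • (n • Y (v t)) := by
    rw [add_smul]; abel
  rw [he] at this
  refine this.trans (le_of_eq ?_)
  simp
  ring

/-- Compactness: ultralimits of solutions are solutions. -/
lemma ultra [ProperSpace E] (hY : GField Y K M) {v : ℕ → ℂ → E} {n : ℕ → ℂ}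
    (hn : Tendsto n atTop (𝓝 1)) {S : Set ℂ}
    (h : ∀ t ∈ S, ∃ η > 0, ∀ᶠ k in atTop, ∀ τ ∈ ball t η,
      HasDerivAt (v k) (n k • Y (v k τ)) τ ∧ ‖v k τ‖ ≤ δ) :
    ∃ w : ℂ → E, (∀ t ∈ S, HasDerivAt w (Y (w t)) t ∧ ‖w t‖ ≤ δ) ∧
      ∀ t ∈ S, ∀ a : ℝ, (∀ᶠ k in atTop, a ≤ ‖v k t‖) → a ≤ ‖w t‖ := by
  classical
  set 𝒰 : Ultrafilter ℕ := hyperfilter ℕ with h𝒰
  have hle : (𝒰 : Filter ℕ) ≤ atTop := by
    rw [← Nat.cofinite_eq_atTop]; exact hyperfilter_le_cofinite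
  have hlim : ∀ t : ℂ, (∀ᶠ k in atTop, ‖v k t‖ ≤ δ) →
      ∃ y, Tendsto (fun k => v k t) 𝒰 (𝓝 y) := by
    intro t ht
    have hc : IsCompact (closedBall (0:E) δ) := isCompact_closedBall 0 δ
    obtain ⟨y, _, hy⟩ := hc.ultrafilter_le_nhds (𝒰.map (fun k => v k t)) (by
      rw [Filter.le_principal_iff]
      have h2 : ∀ᶠ k in (𝒰 : Filter ℕ), v k t ∈ closedBall (0:E) δ :=
        (ht.filter_mono hle).mono fun k hk => by simpa using hk
      exact h2)
    exact ⟨y, hy⟩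
  set w : ℂ → E := fun t => if h : ∃ y, Tendsto (fun k => v k t) 𝒰 (𝓝 y) then h.choose else 0
    with hw
  have hwt : ∀ t : ℂ, (∀ᶠ k in atTop, ‖v k t‖ ≤ δ) →
      Tendsto (fun k => v k t) 𝒰 (𝓝 (w t)) := by
    intro t ht
    have hex := hlim t ht
    simp only [hw, dif_pos hex]
    exact hex.choose_spec
  have hn𝒰 : Tendsto n 𝒰 (𝓝 1) := hn.mono_left hle
  have hn2 : ∀ᶠ k in atTop, ‖n k‖ ≤ 2 := by
    have := hn.norm.eventually (gt_mem_nhds (show ‖(1:ℂ)‖ < 2 by norm_num))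
    exact this.mono fun k hk => le_of_lt hk
  refine ⟨w, fun t ht => ?_, fun t ht a ha => ?_⟩
  · obtain ⟨η, hη, hev⟩ := h t ht
    have hbt : ∀ τ ∈ ball t η, Tendsto (fun k => v k τ) 𝒰 (𝓝 (w τ)) := fun τ hτ =>
      hwt τ (hev.mono fun k hk => (hk τ hτ).2)
    have htt := hbt t (mem_ball_self hη)
    have hYt : Tendsto (fun k => Y (v k t)) 𝒰 (𝓝 (Y (w t))) :=
      (hY.lip.continuous.tendsto _).comp htt
    refine ⟨?_, ?_⟩
    · have hq : ∀ h : ℂ, ‖h‖ < η → ‖w (t + h) - w t - h • Y (w t)‖ ≤ 4 * K * M * ‖h‖ ^ 2 := by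
        intro h hh
        have h1 : Tendsto (fun k => v k (t + h) - v k t - h • (n k • Y (v k t))) 𝒰
            (𝓝 (w (t + h) - w t - h • ((1:ℂ) • Y (w t)))) :=
          ((hbt (t + h) (by simpa [dist_eq_norm] using hh)).sub htt).sub
            (tendsto_const_nhds.smul (hn𝒰.smul hYt))
        rw [one_smul] at h1
        refine le_of_tendsto h1.norm ?_
        filter_upwards [hev.filter_mono hle, hn2.filter_mono hle] with k hk hk2
        refine quad_est hY hk2 (fun τ hτ => (hk τ ?_).1)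
        rw [mem_closedBall] at hτ
        exact mem_ball.2 (hτ.trans_lt hh)
      rw [hasDerivAt_iff_isLittleO_nhds_zero]
      have hO : (fun h : ℂ => w (t + h) - w t - h • Y (w t)) =O[𝓝 0] fun h : ℂ => ‖h‖ ^ 2 := by
        refine Asymptotics.IsBigO.of_bound (4 * K * M) ?_
        filter_upwards [ball_mem_nhds (0:ℂ) hη] with h hh
        rw [mem_ball_zero_iff] at hh
        simpa using hq h hh
      exact hO.trans_isLittleO (Asymptotics.isLittleO_norm_pow_id (by norm_num))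
    · refine le_of_tendsto htt.norm ?_
      exact (hev.filter_mono hle).mono fun k hk => (hk t (mem_ball_self hη)).2
  · obtain ⟨η, hη, hev⟩ := h t ht
    have htt := hwt t (hev.mono fun k hk => (hk t (mem_ball_self hη)).2)
    exact ge_of_tendsto htt.norm (ha.filter_mono hle)

end Run7.h718
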