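import Pool.Agent.Run7.h718.Half

open Set Metric Filter Topology
open scoped NNReal

namespace Run7.h718

variable {E : Type*} [NormedAddCommGroup E] [NormedSpace ℂ E]

/-- radial retraction onto the closed ball of radius `r` -/
noncomputable def retr (r : ℝ) (z : E) : E := ((r / max r ‖z‖ : ℝ) : ℂ) • z

lemma retr_of_le {r : ℝ} (hr : 0 < r) {z : E} (hz : ‖z‖ ≤ r) : retr r z = z := by
  unfold retr
  rw [max_eq_left hz, div_self hr.ne', Complex.ofReal_one, one_smul]

lemma norm_retr_le {r : ℝ} (hr : 0 < r) (z : E) : ‖retr r z‖ ≤ r := by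
  unfold retr
  have hm : 0 < max r ‖z‖ := lt_of_lt_of_le hr (le_max_left _ _)
  rw [norm_smul, Complex.norm_real, Real.norm_eq_abs, abs_of_pos (by positivity),
    div_mul_eq_mul_div, div_le_iff₀ hm]
  exact mul_le_mul_of_nonneg_left (le_max_right _ _) hr.le

lemma retr_dist {r : ℝ} (hr : 0 < r) (z z' : E) : ‖retr r z - retr r z'‖ ≤ 2 * ‖z - z'‖ := by
  set a := max r ‖z‖ with ha
  set a' := max r ‖z'‖ with ha'
  have hra : r ≤ a := le_max_left _ _
  have hra' : r ≤ a' := le_max_left _ _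
  have ha0 : 0 < a := hr.trans_le hra
  have ha0' : 0 < a' := hr.trans_le hra'
  have hza' : ‖z'‖ ≤ a' := le_max_right _ _
  have haa : |a' - a| ≤ ‖z - z'‖ := by
    have h1 : |a' - a| ≤ |‖z'‖ - ‖z‖| := by
      have := abs_max_sub_max_le_max r ‖z'‖ r ‖z‖
      rw [sub_self, abs_zero, max_eq_right (abs_nonneg (‖z'‖ - ‖z‖))] at this
      exact this
    refine h1.trans ?_
    have := abs_norm_sub_norm_le z' z
    rwa [norm_sub_rev z' z] at this
  have he : retr r z - retr r z' = ((r / a : ℝ) : ℂ) • (z - z') +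
      ((r / a - r / a' : ℝ) : ℂ) • z' := by
    unfold retr
    rw [← ha, ← ha', smul_sub, Complex.ofReal_sub, sub_smul]
    abel
  rw [he]
  refine (norm_add_le _ _).trans ?_
  rw [norm_smul, norm_smul, Complex.norm_real, Complex.norm_real, Real.norm_eq_abs,
    Real.norm_eq_abs, abs_of_pos (show 0 < r / a by positivity)]
  have h1 : r / a * ‖z - z'‖ ≤ ‖z - z'‖ :=
    mul_le_of_le_one_left (norm_nonneg _) ((div_le_one ha0).2 hra)
  have h2 : |r / a - r / a'| * ‖z'‖ ≤ ‖z - z'‖ := by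
    have h3 : r / a - r / a' = (r / a) * ((a' - a) / a') := by field_simp
    rw [h3, abs_mul, abs_of_pos (show 0 < r / a by positivity), abs_div, abs_of_pos ha0']
    calc r / a * (|a' - a| / a') * ‖z'‖ ≤ 1 * (|a' - a| / a') * a' := by
          gcongr
          exact (div_le_one ha0).2 hra
      _ = |a' - a| := by field_simp
      _ ≤ _ := haa
  linarith

/-- local estimates for a germ with vanishing linear part -/
structure Loc (X : E → E) (r C : ℝ) : Prop where
  rpos : 0 < r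
  Cpos : 0 < C
  diff : ∀ z, ‖z‖ ≤ r → DifferentiableAt ℂ X z
  zero : X 0 = 0
  lip : ∀ z z', ‖z‖ ≤ r → ‖z'‖ ≤ r → ‖X z - X z'‖ ≤ C * max ‖z‖ ‖z'‖ * ‖z - z'‖

lemma Loc.mono {X : E → E} {r r' C : ℝ} (h : Loc X r C) (hr' : 0 < r') (hle : r' ≤ r) :
    Loc X r' C where
  rpos := hr'
  Cpos := h.Cpos
  diff := fun z hz => h.diff z (hz.trans hle)
  zero := h.zero
  lip := fun z z' hz hz' => h.lip z z' (hz.trans hle) (hz'.trans hle)

lemma exists_loc [CompleteSpace E] {X : E → E} (hX : AnalyticAt ℂ X 0) (h0 : X 0 = 0)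
    (hD : fderiv ℂ X 0 = 0) : ∃ r C : ℝ, Loc X r C := by
  have h1 : AnalyticAt ℂ (fderiv ℂ X) 0 := hX.fderiv
  have h2 := h1.differentiableAt.isBigO_sub
  rw [hD] at h2
  obtain ⟨C, hC⟩ := h2.bound
  obtain ⟨r, hr, hball⟩ := Metric.eventually_nhds_iff_ball.1 (hC.and hX.eventually_analyticAt)
  refine ⟨r / 2, |C| + 1, by positivity, by positivity, ?_, h0, ?_⟩
  · intro z hz
    exact (hball z (by rw [mem_ball_zero_iff]; linarith)).2.differentiableAt
  · intro z z' hz hz'
    set m := max ‖z‖ ‖z'‖ with hm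
    have hmr : m ≤ r / 2 := max_le hz hz'
    have := (convex_closedBall (0:E) m).norm_image_sub_le_of_norm_fderiv_le (𝕜 := ℂ) (f := X)
      (C := (|C| + 1) * m)
      (fun x hx => by
        rw [mem_closedBall_zero_iff] at hx
        exact (hball x (by rw [mem_ball_zero_iff]; linarith)).2.differentiableAt)
      (fun x hx => by
        rw [mem_closedBall_zero_iff] at hx
        have h3 := (hball x (by rw [mem_ball_zero_iff]; linarith)).1
        rw [sub_zero, sub_zero] at h3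
        refine h3.trans ?_
        calc C * ‖x‖ ≤ (|C| + 1) * ‖x‖ := by
              gcongr
              linarith [le_abs_self C]
          _ ≤ (|C| + 1) * m := by gcongr)
      (mem_closedBall_zero_iff.2 (le_max_right ‖z‖ ‖z'‖))
      (mem_closedBall_zero_iff.2 (le_max_left ‖z‖ ‖z'‖))
    exact this

lemma Loc.quad {X : E → E} {r C : ℝ} (h : Loc X r C) {z : E} (hz : ‖z‖ ≤ r) :
    ‖X z‖ ≤ C * ‖z‖ ^ 2 := by
  have := h.lip z 0 hz (by rw [norm_zero]; exact h.rpos.le)
  rw [h.zero, sub_zero, sub_zero, norm_zero, max_eq_left (norm_nonneg _)] at this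
  nlinarith

/-- the extension -/
noncomputable def ext (X : E → E) (r : ℝ) : E → E := fun z => X (retr r z)

lemma ext_of_le {X : E → E} {r : ℝ} (hr : 0 < r) {z : E} (hz : ‖z‖ ≤ r) : ext X r z = X z := by
  unfold ext
  rw [retr_of_le hr hz]

lemma Loc.gfield {X : E → E} {r C : ℝ} (h : Loc X r C) :
    GField (ext X r) (Real.toNNReal (2 * C * r)) (Real.toNNReal (C * r ^ 2)) := by
  have hr := h.rpos
  have hC := h.Cpos
  constructor
  · apply LipschitzWith.of_dist_le_mul
    intro z z'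
    rw [Real.coe_toNNReal _ (by positivity), dist_eq_norm, dist_eq_norm]
    have h1 := h.lip _ _ (norm_retr_le hr z) (norm_retr_le hr z')
    refine h1.trans ?_
    calc C * max ‖retr r z‖ ‖retr r z'‖ * ‖retr r z - retr r z'‖
        ≤ C * r * (2 * ‖z - z'‖) := by
          have h2 : max ‖retr r z‖ ‖retr r z'‖ ≤ r :=
            max_le (norm_retr_le hr z) (norm_retr_le hr z')
          have h3 := retr_dist hr z z'
          gcongr
      _ = _ := by ring
  · intro z
    rw [Real.coe_toNNReal _ (by positivity)]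
    refine (h.quad (norm_retr_le hr z)).trans ?_
    have := norm_retr_le hr z
    have hC' := h.Cpos.le
    gcongr

lemma Loc.setup {X : E → E} {r C : ℝ} (h : Loc X r C) (hiso : ∀ z, ‖z‖ ≤ r → X z = 0 → z = 0)
    {δ : ℝ} (hδ : 0 < δ) (hδr : δ < r) :
    Setup (ext X r) (Real.toNNReal (2 * C * r)) (Real.toNNReal (C * r ^ 2)) δ r where
  g := h.gfield
  δpos := hδ
  δlt := hδr
  diff := by
    intro z hz
    rw [mem_ball_zero_iff] at hz
    have he : ext X r =ᶠ[𝓝 z] X := by
      have : ∀ᶠ y in 𝓝 z, ‖y‖ < r := (continuous_norm.tendsto z).eventually (gt_mem_nhds hz)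
      exact this.mono fun y hy => ext_of_le h.rpos hy.le
    exact he.differentiableAt_iff.2 (h.diff z hz.le)
  zero := by
    rw [ext_of_le h.rpos (by rw [norm_zero]; exact h.rpos.le), h.zero]
  iso := by
    intro z hz hY
    rw [ext_of_le h.rpos (hz.trans hδr.le)] at hY
    exact hiso z (hz.trans hδr.le) hY

/-- `f` is (the germ of) the time-one map of the germ of vector field `X`: for `z` close to
the origin the solution of `u' = X(u)`, `u(0) = z` exists on `[0,1]`, stays close to the origin,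
and `u(1) = f(z)`. -/
def IsTimeOneMap (X f : E → E) : Prop :=
  ∀ ε > 0, ∀ᶠ z in 𝓝 (0:E), ∃ u : ℝ → E, u 0 = z ∧ u 1 = f z ∧
    ∀ x ∈ Icc (0:ℝ) 1, ‖u x‖ < ε ∧ HasDerivWithinAt u (X (u x)) (Icc 0 1) x

lemma IsTimeOneMap.eq_Φ [CompleteSpace E] {X f : E → E} (hf : IsTimeOneMap X f) {r C : ℝ}
    (h : Loc X r C) : ∀ᶠ z in 𝓝 (0:E), f z = Φ (ext X r) z 1 := by
  filter_upwards [hf r h.rpos] with z hz
  obtain ⟨u, hu0, hu1, hu⟩ := hz
  have hs : IsSol (ext X r) z 1 u := by
    refine ⟨hu0, fun x hx => ?_⟩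
    rw [one_smul, ext_of_le h.rpos (hu x hx).1.le]
    exact (hu x hx).2
  rw [← hu1]
  exact Φ_of_sol h.gfield hs

/-- isolated fixed point of `f` gives isolated zero of `X` -/
lemma IsTimeOneMap.iso [CompleteSpace E] {X f : E → E} (hf : IsTimeOneMap X f) {r C : ℝ}
    (h : Loc X r C) (hfix : ∀ᶠ z in 𝓝[≠] (0:E), f z ≠ z) :
    ∃ r' > 0, r' ≤ r ∧ ∀ z, ‖z‖ ≤ r' → X z = 0 → z = 0 := by
  rw [eventually_nhdsWithin_iff] at hfix
  obtain ⟨ρ, hρ, hball⟩ := Metric.eventually_nhds_iff_ball.1 (hfix.and (hf.eq_Φ h))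
  refine ⟨min (ρ / 2) r, lt_min (by positivity) h.rpos, min_le_right _ _, ?_⟩
  intro z hz hXz
  by_contra hne
  have hz1 : ‖z‖ ≤ ρ / 2 := hz.trans (min_le_left _ _)
  have hz2 : ‖z‖ ≤ r := hz.trans (min_le_right _ _)
  have h1 := hball z (by rw [mem_ball_zero_iff]; linarith)
  apply h1.1 hne
  rw [h1.2]
  exact Φ_const h.gfield (by rw [ext_of_le h.rpos hz2, hXz]) 1

/-- The half plane theorem for time-one maps. -/
theorem half_plane [ProperSpace E] [Nontrivial E] {X f : E → E} (hX : AnalyticAt ℂ X 0)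
    (h0 : X 0 = 0) (hD : fderiv ℂ X 0 = 0) (hf : IsTimeOneMap X f)
    (hfix : ∀ᶠ z in 𝓝[≠] (0:E), f z ≠ z) :
    ∃ w : ℂ → E, (∀ t : ℂ, 0 < t.re → w t ≠ 0 ∧ HasDerivAt w (X (w t)) t ∧
        f (w t) = w (t + 1)) ∧
      InjOn w {t : ℂ | 0 < t.re} ∧
      ∀ ε > 0, ∃ R : ℝ, 0 ≤ R ∧ ∀ t : ℂ, R < t.re → ‖w t‖ < ε := by
  obtain ⟨r₀, C, hloc₀⟩ := exists_loc hX h0 hD
  obtain ⟨r, hr, hrr, hiso⟩ := hf.iso hloc₀ hfix
  have hloc : Loc X r C := hloc₀.mono hr hrr
  have S := hloc.setup hiso (δ := r / 2) (by positivity) (by linarith)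
  obtain ⟨w, hw, hw0, hinj, hdec⟩ := exists_half S hloc.Cpos
    (fun z hz => by
      rw [ext_of_le hr (hz.trans (by linarith))]
      exact hloc.quad (hz.trans (by linarith)))
    (fun ε hε => by
      refine ⟨min r (ε / C), lt_min hr (div_pos hε hloc.Cpos), ?_⟩
      intro z z' hz hz'
      have hzr : ‖z‖ ≤ r := hz.le.trans (min_le_left _ _)
      have hzr' : ‖z'‖ ≤ r := hz'.le.trans (min_le_left _ _)
      rw [ext_of_le hr hzr, ext_of_le hr hzr']
      refine (hloc.lip z z' hzr hzr').trans ?_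
      refine mul_le_mul_of_nonneg_right ?_ (norm_nonneg _)
      have h1 : max ‖z‖ ‖z'‖ ≤ ε / C :=
        max_le (hz.le.trans (min_le_right _ _)) (hz'.le.trans (min_le_right _ _))
      calc C * max ‖z‖ ‖z'‖ ≤ C * (ε / C) := mul_le_mul_of_nonneg_left h1 hloc.Cpos.le
        _ = ε := by field_simp [hloc.Cpos.ne'])
    (exists_ne (0:E))
  -- `f (w t) = w (t + 1)` for large real part
  obtain ⟨ρ, hρ, hball⟩ := Metric.eventually_nhds_iff_ball.1 (hf.eq_Φ hloc)
  obtain ⟨R, hR0, hR⟩ := hdec ρ hρ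
  have hsh : ∀ t : ℂ, 0 < t.re → 0 < (t + R).re := by
    intro t ht
    rw [Complex.add_re, Complex.ofReal_re]
    linarith
  refine ⟨fun t => w (t + R), ?_, ?_, ?_⟩
  · intro t ht
    have ht' := hsh t ht
    refine ⟨hw0 _ ht', ?_, ?_⟩
    · have h1 := hw _ ht'
      have h2 : HasDerivAt (fun t : ℂ => t + R) 1 t := (hasDerivAt_id t).add_const _
      have h3 := HasDerivAt.scomp t h1.1 h2
      rw [one_smul, ext_of_le hr (h1.2.trans (by linarith))] at h3
      exact h3
    · have h4 : ‖w (t + R)‖ < ρ := hR _ (by rw [Complex.add_re, Complex.ofReal_re]; linarith)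
      have h5 := hball _ (mem_ball_zero_iff.2 h4)
      have h6 : 0 < (t + R + 1).re := by
        rw [Complex.add_re, Complex.one_re]; linarith
      have h7 := hw.seg S ht' h6
      rw [add_sub_cancel_left] at h7
      show f (w (t + R)) = w (t + 1 + R)
      rw [h5, h7]
      congr 1
      ring
  · intro t₁ ht₁ t₂ ht₂ heq
    have := hinj (hsh t₁ ht₁) (hsh t₂ ht₂) heq
    exact add_right_cancel this
  · intro ε hε
    obtain ⟨R', hR0', hR'⟩ := hdec ε hε
    refine ⟨R', hR0', fun t ht => hR' _ ?_⟩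
    rw [Complex.add_re, Complex.ofReal_re]
    linarith

end Run7.h718
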