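import Pool.Agent.Run7.h718.Imp

open Set Metric Filter Topology
open scoped NNReal

namespace Run7.h718

variable {E : Type*} [NormedAddCommGroup E] [NormedSpace ℂ E]
variable {Y : E → E} {K M : ℝ≥0} {δ δ₂ : ℝ}

lemma P.mono {v : E} {m A σ σ' : ℝ} (h : P Y δ v m A σ) (hσ : σ' ≤ σ) : P Y δ v m A σ' :=
  fun s hs => h s (hs.trans_le hσ)

/-- initial disc -/
lemma init_disc [CompleteSpace E] (S : Setup Y K M δ δ₂) {C : ℝ} (hC0 : 0 < C)
    (hC : ∀ z, ‖z‖ ≤ δ → ‖Y z‖ ≤ C * ‖z‖ ^ 2) {z : E} (hz : 0 < ‖z‖) (hzδ : 2 * ‖z‖ < δ) :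
    Disc Y δ z (1 / (4 * C * ‖z‖)) := by
  intro t ht
  rw [lt_div_iff₀ (by positivity)] at ht
  have h := isSol_Φ S.g z t
  have hB : ∀ x ∈ Icc (0:ℝ) 1, ‖Φ Y z (x * t)‖ ≤ ‖z‖ * (1 + x) := by
    have := image_norm_le_of_norm_deriv_right_lt_deriv_boundary' (a := 0) (b := 1)
      (f := fun x : ℝ => Φ Y z (x * t)) h.continuousOn h.right
      (B := fun x => ‖z‖ * (1 + x)) (B' := fun _ => ‖z‖) (by simp [Φ_zero S.g])
      (by fun_prop)
      (fun x _ => by
        have : HasDerivAt (fun x : ℝ => ‖z‖ * (1 + x)) (‖z‖ * 1) x :=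
          ((hasDerivAt_id x).const_add 1).const_mul ‖z‖
        rw [mul_one] at this
        exact this.hasDerivWithinAt)
      (fun x hx hxe => by
        rw [norm_smul]
        have h2 : ‖Φ Y z (x * t)‖ ≤ 2 * ‖z‖ := by
          have hxe' : ‖Φ Y z (x * t)‖ = ‖z‖ * (1 + x) := hxe
          rw [hxe']
          nlinarith [hx.2]
        have h3 := hC _ (h2.trans hzδ.le)
        have h4 : ‖Φ Y z (x * t)‖ ^ 2 ≤ (2 * ‖z‖) ^ 2 := pow_le_pow_left₀ (norm_nonneg _) h2 2
        calc ‖t‖ * ‖Y (Φ Y z (x * t))‖ ≤ ‖t‖ * (C * (2 * ‖z‖) ^ 2) := by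
              refine mul_le_mul_of_nonneg_left (h3.trans ?_) (norm_nonneg _)
              exact mul_le_mul_of_nonneg_left h4 hC0.le
          _ = (‖t‖ * (4 * C * ‖z‖)) * ‖z‖ := by ring
          _ < 1 * ‖z‖ := by gcongr
          _ = ‖z‖ := one_mul _)
    exact this
  have := hB 1 (by simp)
  rw [Complex.ofReal_one, one_mul] at this
  linarith

lemma norm_exp_smul (s : ℂ) (v : E) : ‖Complex.exp s • v‖ = Real.exp s.re * ‖v‖ := by
  rw [norm_smul, Complex.norm_exp]

lemma init_P [CompleteSpace E] (S : Setup Y K M δ δ₂) {C : ℝ} (hC0 : 0 < C)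
    (hC : ∀ z, ‖z‖ ≤ δ → ‖Y z‖ ≤ C * ‖z‖ ^ 2) {v : E} (hv : 0 < ‖v‖)
    (hvδ : 2 * (Real.exp 1 * ‖v‖) < δ) :
    P Y δ v 1 (1 / (4 * C * ‖v‖)) 1 := by
  intro s hs
  have hn : ‖Complex.exp s • v‖ = Real.exp s.re * ‖v‖ := norm_exp_smul s v
  have h1 : Real.exp s.re ≤ Real.exp 1 := Real.exp_le_exp.2 hs.le
  have := init_disc S hC0 hC (z := Complex.exp s • v) (by rw [hn]; positivity) (by
    rw [hn]
    have : Real.exp s.re * ‖v‖ ≤ Real.exp 1 * ‖v‖ := by gcongr
    linarith)
  refine this.mono (le_of_eq ?_)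
  rw [hn, one_mul, Real.exp_neg]
  field_simp

lemma iter {R₀ c₁ : ℝ} (hc₁ : 0 < c₁)
    (himp : ∀ (v : E) (m A σ : ℝ), 0 < m → 0 < A →
      (∀ s : ℂ, s.re < σ → ‖Complex.exp s • v‖ < δ) → R₀ ≤ A * Real.exp (-(m * σ)) →
      P Y δ v m A σ → P Y δ v m ((1 + c₁) * A) (σ - 2 * Real.pi / m))
    {v : E} {m A σ : ℝ} (hm : 0 < m) (hA : 0 < A)
    (hvδ : ∀ s : ℂ, s.re < σ → ‖Complex.exp s • v‖ < δ) (hR : R₀ ≤ A * Real.exp (-(m * σ)))
    (hP : P Y δ v m A σ) (j : ℕ) :
    P Y δ v m ((1 + c₁) ^ j * A) (σ - 2 * Real.pi * j / m) := by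
  have hπ := Real.pi_pos
  induction j with
  | zero => simpa using hP
  | succ j ih =>
    have hle : σ - 2 * Real.pi * j / m ≤ σ := by
      have : 0 ≤ 2 * Real.pi * j / m := by positivity
      linarith
    have h1 : (1:ℝ) ≤ (1 + c₁) ^ j := one_le_pow₀ (by linarith)
    have := himp v m ((1 + c₁) ^ j * A) (σ - 2 * Real.pi * j / m) hm (by positivity)
      (fun s hs => hvδ s (hs.trans_le hle)) (by
        refine hR.trans ?_
        have h2 : m * (σ - 2 * Real.pi * j / m) ≤ m * σ := by gcongr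
        calc A * Real.exp (-(m * σ)) ≤ A * Real.exp (-(m * (σ - 2 * Real.pi * j / m))) := by
              gcongr
          _ ≤ (1 + c₁) ^ j * (A * Real.exp (-(m * (σ - 2 * Real.pi * j / m)))) :=
              le_mul_of_one_le_left (by positivity) h1
          _ = _ := by ring) ih
    convert this using 1
    · ring
    · push_cast; ring

/-- growth of the rate -/
lemma rate {R₀ c₁ : ℝ} (hc₁ : 0 < c₁)
    (himp : ∀ (v : E) (m A σ : ℝ), 0 < m → 0 < A →
      (∀ s : ℂ, s.re < σ → ‖Complex.exp s • v‖ < δ) → R₀ ≤ A * Real.exp (-(m * σ)) →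
      P Y δ v m A σ → P Y δ v m ((1 + c₁) * A) (σ - 2 * Real.pi / m))
    {v : E} {m A σ κ : ℝ} (hm : 0 < m) (hA : 0 < A) (hκ : κ = Real.log (1 + c₁) / (2 * Real.pi))
    (hvδ : ∀ s : ℂ, s.re < σ → ‖Complex.exp s • v‖ < δ) (hR : R₀ ≤ A * Real.exp (-(m * σ)))
    (hP : P Y δ v m A σ) :
    P Y δ v (m * (1 + κ)) (A * Real.exp (κ * m * σ) / (1 + c₁)) σ := by
  have hπ := Real.pi_pos
  intro s hs
  set y : ℝ := m * (σ - s.re) / (2 * Real.pi) with hy
  have hy0 : 0 < y := by
    have : 0 < σ - s.re := by linarith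
    positivity
  have hn1 : y ≤ ⌈y⌉₊ := Nat.le_ceil y
  have hn2 : (⌈y⌉₊ : ℝ) < y + 1 := Nat.ceil_lt_add_one hy0.le
  obtain ⟨j, hj⟩ : ∃ j : ℕ, ⌈y⌉₊ = j + 1 :=
    Nat.exists_eq_succ_of_ne_zero (Nat.ceil_pos.2 hy0).ne'
  rw [hj] at hn1 hn2
  push_cast at hn1 hn2
  have hjy : (j : ℝ) < y := by linarith
  have hs2 : s.re < σ - 2 * Real.pi * j / m := by
    have h1 : 2 * Real.pi * j / m < σ - s.re := by
      rw [div_lt_iff₀ hm]
      rw [hy, lt_div_iff₀ (by positivity)] at hjy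
      linarith
    linarith
  refine (iter hc₁ himp hm hA hvδ hR hP j s hs2).mono ?_
  have hlog : Real.exp (κ * (2 * Real.pi)) = 1 + c₁ := by
    rw [hκ, div_mul_cancel₀ _ (by positivity), Real.exp_log (by linarith)]
  have hpow : Real.exp (κ * (2 * Real.pi) * y) ≤ (1 + c₁) ^ (j + 1) := by
    rw [← hlog, ← Real.exp_nat_mul]
    apply Real.exp_le_exp.2
    have hκ0 : 0 ≤ κ := by
      rw [hκ]
      exact div_nonneg (Real.log_nonneg (by linarith)) (by positivity)
    push_cast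
    have : κ * (2 * Real.pi) * y ≤ κ * (2 * Real.pi) * (j + 1) := by gcongr
    linarith
  have hy2 : κ * (2 * Real.pi) * y = κ * m * (σ - s.re) := by
    rw [hy]; field_simp
  rw [hy2] at hpow
  have h1c : 0 < 1 + c₁ := by linarith
  rw [div_mul_eq_mul_div, div_le_iff₀ h1c]
  have he : Real.exp (κ * m * σ) * Real.exp (-(m * (1 + κ) * s.re)) =
      Real.exp (κ * m * (σ - s.re)) * Real.exp (-(m * s.re)) := by
    rw [← Real.exp_add, ← Real.exp_add]; congr 1; ring
  calc A * Real.exp (κ * m * σ) * Real.exp (-(m * (1 + κ) * s.re))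
      = A * (Real.exp (κ * m * σ) * Real.exp (-(m * (1 + κ) * s.re))) := by ring
    _ = A * (Real.exp (κ * m * (σ - s.re)) * Real.exp (-(m * s.re))) := by rw [he]
    _ ≤ A * ((1 + c₁) ^ (j + 1) * Real.exp (-(m * s.re))) := by gcongr
    _ = _ := by ring

lemma all_rates {R₀ c₁ : ℝ} (hc₁ : 0 < c₁) (hR₀ : 0 < R₀)
    (himp : ∀ (v : E) (m A σ : ℝ), 0 < m → 0 < A →
      (∀ s : ℂ, s.re < σ → ‖Complex.exp s • v‖ < δ) → R₀ ≤ A * Real.exp (-(m * σ)) →
      P Y δ v m A σ → P Y δ v m ((1 + c₁) * A) (σ - 2 * Real.pi / m))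
    {v : E} {A₁ : ℝ} (hA₁ : 0 < A₁)
    (hvδ : ∀ s : ℂ, s.re < 1 → ‖Complex.exp s • v‖ < δ)
    (hP : P Y δ v 1 A₁ 1) (B : ℝ) :
    ∃ m A σ : ℝ, B ≤ m ∧ 0 < A ∧ P Y δ v m A σ := by
  have hπ := Real.pi_pos
  set κ : ℝ := Real.log (1 + c₁) / (2 * Real.pi) with hκ
  have hκ0 : 0 < κ := div_pos (Real.log_pos (by linarith)) (by positivity)
  -- restoring the lower bound
  have hrest : ∀ m A σ : ℝ, 0 < m → 0 < A → ∃ σ' ≤ σ, R₀ ≤ A * Real.exp (-(m * σ')) := by
    intro m A σ hm hA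
    refine ⟨min σ (-(Real.log (R₀ / A) / m)), min_le_left _ _, ?_⟩
    have h1 : Real.log (R₀ / A) ≤ -(m * min σ (-(Real.log (R₀ / A) / m))) := by
      have h2 : min σ (-(Real.log (R₀ / A) / m)) ≤ -(Real.log (R₀ / A) / m) := min_le_right _ _
      have h3 := mul_le_mul_of_nonneg_left h2 hm.le
      have h4 : m * -(Real.log (R₀ / A) / m) = -Real.log (R₀ / A) := by field_simp
      linarith
    have h5 := Real.exp_le_exp.2 h1
    rw [Real.exp_log (by positivity)] at h5
    rw [div_le_iff₀ hA] at h5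
    linarith
  have hall : ∀ j : ℕ, ∃ A σ : ℝ, 0 < A ∧ σ ≤ 1 ∧
      R₀ ≤ A * Real.exp (-((1 + κ) ^ j * σ)) ∧ P Y δ v ((1 + κ) ^ j) A σ := by
    intro j
    induction j with
    | zero =>
      obtain ⟨σ', hσ', hR'⟩ := hrest 1 A₁ 1 one_pos hA₁
      exact ⟨A₁, σ', hA₁, hσ', by simpa using hR', by simpa using hP.mono hσ'⟩
    | succ j ih =>
      obtain ⟨A, σ, hA, hσ, hR, hPj⟩ := ih
      have hm : 0 < (1 + κ) ^ j := by positivity
      have h1 := rate hc₁ himp hm hA hκ (fun s hs => hvδ s (hs.trans_le hσ)) hR hPj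
      have hA' : 0 < A * Real.exp (κ * (1 + κ) ^ j * σ) / (1 + c₁) := by positivity
      have hm' : 0 < (1 + κ) ^ j * (1 + κ) := by positivity
      obtain ⟨σ', hσ', hR'⟩ := hrest _ _ σ hm' hA'
      refine ⟨_, σ', hA', hσ'.trans hσ, ?_, ?_⟩
      · rw [pow_succ]; exact hR'
      · rw [pow_succ]; exact h1.mono hσ'
  obtain ⟨j, hj⟩ := pow_unbounded_of_one_lt B (show (1:ℝ) < 1 + κ by linarith)
  obtain ⟨A, σ, hA, _, _, hPj⟩ := hall j
  exact ⟨(1 + κ) ^ j, A, σ, hj.le, hA, hPj⟩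

/-- the final step: infinite growth of the exit radius is impossible. -/
lemma final [CompleteSpace E] (S : Setup Y K M δ δ₂) {v : E} (hv : v ≠ 0) {A₁ : ℝ} (hA₁ : 0 < A₁)
    (hvδ : ∀ s : ℂ, s.re < 1 → ‖Complex.exp s • v‖ < δ)
    (hP : P Y δ v 1 A₁ 1)
    (hall : ∀ B : ℝ, ∃ m A σ : ℝ, B ≤ m ∧ 0 < A ∧ P Y δ v m A σ) : False := by
  have hkey : ∀ M' : ℝ, 1 ≤ M' → Disc Y δ (Complex.exp (-1) • v) (A₁ * Real.exp (M' - 1)) := by
    intro M' hM' t ht
    obtain ⟨m, A, σ, hm, hA, hPm⟩ := hall (4 * M')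
    obtain ⟨L, hL1, hL2, hL3⟩ : ∃ L : ℝ, M' ≤ L ∧ -σ < L / 2 ∧
        A₁ ≤ A * Real.exp (M' * (L / 2)) := by
      refine ⟨max M' (max (2 * (-σ + 1)) (2 * |Real.log (A₁ / A)|)), le_max_left _ _, ?_, ?_⟩
      · have : 2 * (-σ + 1) ≤ max M' (max (2 * (-σ + 1)) (2 * |Real.log (A₁ / A)|)) :=
          (le_max_left _ _).trans (le_max_right _ _)
        linarith
      · set L := max M' (max (2 * (-σ + 1)) (2 * |Real.log (A₁ / A)|))
        have h1 : 2 * |Real.log (A₁ / A)| ≤ L := (le_max_right _ _).trans (le_max_right _ _)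
        have h2 : |Real.log (A₁ / A)| ≤ L / 2 := by linarith
        have h3 : Real.log (A₁ / A) ≤ M' * (L / 2) := by
          have h4 : 0 ≤ L / 2 := (abs_nonneg _).trans h2
          calc Real.log (A₁ / A) ≤ |Real.log (A₁ / A)| := le_abs_self _
            _ ≤ L / 2 := h2
            _ ≤ M' * (L / 2) := le_mul_of_one_le_left h4 hM'
        have h5 := Real.exp_le_exp.2 h3
        rw [Real.exp_log (by positivity), div_le_iff₀ hA] at h5
        linarith
    have hL0 : 0 < L := by linarith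
    set η : ℝ := M' / L with hη
    have hη0 : 0 < η := by positivity
    have hη1 : η ≤ 1 := by rw [hη, div_le_one hL0]; exact hL1
    have hηL : η * L = M' := by rw [hη]; field_simp
    set τ : ℂ := t * Complex.exp (-M') with hτ
    have hτn : ‖τ‖ * Real.exp 1 < A₁ := by
      rw [hτ, norm_mul, Complex.norm_exp]
      simp only [Complex.neg_re, Complex.ofReal_re]
      have h1 : Real.exp (M' - 1) * (Real.exp (-M') * Real.exp 1) = 1 := by
        rw [← Real.exp_add, ← Real.exp_add]; simp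
      calc ‖t‖ * Real.exp (-M') * Real.exp 1 = ‖t‖ * (Real.exp (-M') * Real.exp 1) := by ring
        _ < A₁ * Real.exp (M' - 1) * (Real.exp (-M') * Real.exp 1) := by
            apply mul_lt_mul_of_pos_right ht; positivity
        _ = A₁ * (Real.exp (M' - 1) * (Real.exp (-M') * Real.exp 1)) := by ring
        _ = A₁ := by rw [h1, mul_one]
    set T : ℂ → ℂ := fun s => τ * Complex.exp (-(M' * s) + η * (s + 1) ^ 2) with hT
    have hrs : ∀ s ∈ closedBall (-(L : ℂ)) L, s.re ≤ 0 := by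
      intro s hs
      rw [mem_closedBall, dist_eq_norm] at hs
      have := (Complex.abs_re_le_norm (s - -(L : ℂ))).trans hs
      simp at this
      linarith [(abs_le.1 this).2]
    have hbd : ∀ s ∈ sphere (-(L : ℂ)) L, ∀ x ∈ Icc (0:ℝ) 1,
        ‖Φ Y (Complex.exp s • v) (x * T s)‖ < δ := by
      intro s hs x hx
      have hre := hrs s (sphere_subset_closedBall hs)
      rw [mem_sphere, dist_eq_norm] at hs
      set X : ℝ := -s.re with hX
      have hX0 : 0 ≤ X := by rw [hX]; linarith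
      have hsq : s.im ^ 2 = 2 * L * X - X ^ 2 := by
        have h1 : ‖s - -(L : ℂ)‖ ^ 2 = L ^ 2 := by rw [hs]
        rw [Complex.sq_norm, Complex.normSq_apply] at h1
        simp at h1
        rw [hX]
        nlinarith
      have hX2 : X ≤ 2 * L := by
        by_contra hcon
        push Not at hcon
        nlinarith [sq_nonneg s.im]
      have hTn : ‖T s‖ = ‖τ‖ * Real.exp (M' * X + η * ((1 - X) ^ 2 - s.im ^ 2)) := by
        have h7 : ((s + 1) ^ 2).re = (1 - X) ^ 2 - s.im ^ 2 := by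
          rw [hX, pow_two, Complex.mul_re]
          simp
          ring
        simp only [hT]
        rw [norm_mul, Complex.norm_exp, Complex.add_re, Complex.neg_re, Complex.re_ofReal_mul,
          Complex.re_ofReal_mul, h7, hX]
        congr 2
        ring
      have hexp : M' * X + η * ((1 - X) ^ 2 - s.im ^ 2) =
          η - M' * X + 2 * η * X * (X - 1) := by
        rw [hsq, ← hηL]; ring
      rw [hexp] at hTn
      rcases le_total X (L / 2) with hcase | hcase
      · have h1 : η - M' * X + 2 * η * X * (X - 1) ≤ 1 := by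
          have h2 : η * X * (2 * X - L) ≤ 0 :=
            mul_nonpos_of_nonneg_of_nonpos (by positivity) (by linarith)
          have h3 : 0 ≤ 2 * η * X := by positivity
          have h4 : η - M' * X + 2 * η * X * (X - 1) = η + η * X * (2 * X - L) - 2 * η * X := by
            rw [← hηL]; ring
          linarith
        have h5 : ‖T s‖ < A₁ := by
          rw [hTn]
          refine lt_of_le_of_lt ?_ hτn
          gcongr
        have h6 : A₁ ≤ A₁ * Real.exp (-(1 * s.re)) := by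
          refine le_mul_of_one_le_right hA₁.le (Real.one_le_exp ?_)
          linarith
        exact hP s (by linarith) _ ((norm_real_mul_le hx _).trans_lt (h5.trans_le h6))
      · have h1 : η - M' * X + 2 * η * X * (X - 1) ≤ 1 + 3 * M' * X := by
          have h2 : η * X * (X - 2 * L) ≤ 0 :=
            mul_nonpos_of_nonneg_of_nonpos (by positivity) (by linarith)
          have h3 : 0 ≤ 2 * η * X := by positivity
          have h4 : η - M' * X + 2 * η * X * (X - 1) =
              η + 2 * (η * X * (X - 2 * L)) + 3 * M' * X - 2 * η * X := by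
            rw [← hηL]; ring
          linarith
        have h5 : ‖T s‖ < A * Real.exp (-(m * s.re)) := by
          rw [hTn]
          calc ‖τ‖ * Real.exp (η - M' * X + 2 * η * X * (X - 1))
              ≤ ‖τ‖ * Real.exp (1 + 3 * M' * X) := by gcongr
            _ = (‖τ‖ * Real.exp 1) * Real.exp (3 * M' * X) := by rw [Real.exp_add]; ring
            _ < A₁ * Real.exp (3 * M' * X) := by
                apply mul_lt_mul_of_pos_right hτn; positivity
            _ ≤ (A * Real.exp (M' * (L / 2))) * Real.exp (3 * M' * X) := by gcongr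
            _ = A * Real.exp (M' * (L / 2) + 3 * M' * X) := by rw [Real.exp_add]; ring
            _ ≤ A * Real.exp (-(m * s.re)) := by
                have h6 : M' * (L / 2) ≤ M' * X := by gcongr
                have h7 : 4 * M' * X ≤ m * X := by gcongr
                have h8 : -(m * s.re) = m * X := by rw [hX]; ring
                rw [h8]
                gcongr
                linarith
        exact hPm s (by linarith) _ ((norm_real_mul_le hx _).trans_lt h5)
    have := cp S hL0 (z := fun s => Complex.exp s • v) (T := T) (c := -(L : ℂ))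
      (fun s _ => (Complex.differentiable_exp.differentiableAt).smul_const v)
      (fun s _ => by simp only [hT]; fun_prop)
      (fun s hs => hvδ s (by have := hrs s hs; linarith)) hbd (-1) (by
        rw [mem_closedBall, dist_eq_norm]
        have : (-1 : ℂ) - -(L : ℂ) = ((L - 1 : ℝ) : ℂ) := by push_cast; ring
        rw [this, Complex.norm_real, Real.norm_eq_abs, abs_of_nonneg (by linarith)]
        linarith) 1 (by simp)
    have hT1 : T (-1) = t := by
      simp only [hT, hτ]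
      rw [mul_assoc, ← Complex.exp_add]
      have : (-(M' : ℂ) + (-(M' * (-1)) + η * (-1 + 1) ^ 2)) = 0 := by ring
      rw [this, Complex.exp_zero, mul_one]
    simpa [hT1] using this
  have hz : Complex.exp (-1) • v = 0 := by
    apply Disc.all S
    intro r
    refine (hkey (max 1 (1 + |Real.log (|r| / A₁ + 1)|)) (le_max_left _ _)).mono ?_
    have h1 : |Real.log (|r| / A₁ + 1)| ≤ max 1 (1 + |Real.log (|r| / A₁ + 1)|) - 1 := by
      have := le_max_right (1:ℝ) (1 + |Real.log (|r| / A₁ + 1)|)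
      linarith
    have h2 : |r| / A₁ + 1 ≤ Real.exp (max 1 (1 + |Real.log (|r| / A₁ + 1)|) - 1) := by
      have h3 : 0 < |r| / A₁ + 1 := by positivity
      calc |r| / A₁ + 1 = Real.exp (Real.log (|r| / A₁ + 1)) := (Real.exp_log h3).symm
        _ ≤ _ := Real.exp_le_exp.2 ((le_abs_self _).trans h1)
    have h4 := mul_le_mul_of_nonneg_left h2 hA₁.le
    have h5 : A₁ * (|r| / A₁ + 1) = |r| + A₁ := by field_simp
    rw [h5] at h4
    linarith [le_abs_self r]
  rcases smul_eq_zero.1 hz with h | h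
  · exact Complex.exp_ne_zero _ h
  · exact hv h

/-- there is a nontrivial solution on the right half plane. -/
theorem not_NS [ProperSpace E] (S : Setup Y K M δ δ₂) {C : ℝ} (hC0 : 0 < C)
    (hC : ∀ z, ‖z‖ ≤ δ → ‖Y z‖ ≤ C * ‖z‖ ^ 2) (hne : ∃ v : E, v ≠ 0) : ¬ NS Y δ := by
  intro hNS
  have hδ := S.δpos
  obtain ⟨R₀, hR₀, c₀, hc₀, hc₀1, hgap⟩ := gap S hNS
  obtain ⟨c₁, hc₁, himp⟩ := improve S hc₀ hc₀1 hgap
  obtain ⟨v₀, hv₀⟩ := hne
  have hn₀ : 0 < ‖v₀‖ := norm_pos_iff.2 hv₀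
  set a : ℝ := δ / (4 * Real.exp 1 * ‖v₀‖) with ha
  have ha0 : 0 < a := by positivity
  set v : E := (a : ℂ) • v₀ with hv
  have hvn : ‖v‖ = a * ‖v₀‖ := by
    rw [hv, norm_smul, Complex.norm_real, Real.norm_eq_abs, abs_of_pos ha0]
  have hvpos : 0 < ‖v‖ := by rw [hvn]; positivity
  have hve : Real.exp 1 * ‖v‖ = δ / 4 := by
    rw [hvn, ha]; field_simp
  have hvδ : ∀ s : ℂ, s.re < 1 → ‖Complex.exp s • v‖ < δ := by
    intro s hs
    rw [norm_exp_smul]
    have : Real.exp s.re * ‖v‖ ≤ Real.exp 1 * ‖v‖ := by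
      have := Real.exp_le_exp.2 hs.le
      gcongr
    linarith
  have hP := init_P S hC0 hC hvpos (by linarith)
  exact final S (norm_pos_iff.1 hvpos) (by positivity) hvδ hP
    (all_rates hc₁ hR₀ himp (by positivity) hvδ hP)

end Run7.h718
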