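import Mathlib

open Set Metric Filter Topology
open scoped NNReal

namespace Run7.h718

variable {E : Type*} [NormedAddCommGroup E] [NormedSpace ℂ E]

/-- `Y` is a globally Lipschitz and bounded vector field. -/
structure GField (Y : E → E) (K M : ℝ≥0) : Prop where
  lip : LipschitzWith K Y
  bd : ∀ z, ‖Y z‖ ≤ M

/-- `u` solves `u' = t • Y(u)` on `[0,1]`, `u 0 = z`. -/
def IsSol (Y : E → E) (z : E) (t : ℂ) (u : ℝ → E) : Prop :=
  u 0 = z ∧ ∀ x ∈ Icc (0:ℝ) 1, HasDerivWithinAt u (t • Y (u x)) (Icc 0 1) x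

noncomputable def U (Y : E → E) (z : E) (t : ℂ) : ℝ → E :=
  Classical.epsilon (IsSol Y z t)

/-- the complex time flow along straight segments -/
noncomputable def Φ (Y : E → E) (z : E) (t : ℂ) : E := U Y z t 1

variable {Y : E → E} {K M : ℝ≥0}

lemma GField.lip_smul (hY : GField Y K M) (t : ℂ) :
    LipschitzWith (‖t‖₊ * K) (fun y => t • Y y) := by
  apply LipschitzWith.of_dist_le_mul
  intro x y
  rw [dist_eq_norm, ← smul_sub, norm_smul]
  have := hY.lip.dist_le_mul x y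
  rw [dist_eq_norm] at this
  push_cast
  calc ‖t‖ * ‖Y x - Y y‖ ≤ ‖t‖ * (K * dist x y) := by gcongr
    _ = _ := by ring

lemma exists_sol [CompleteSpace E] (hY : GField Y K M) (z : E) (t : ℂ) :
    ∃ u, IsSol Y z t u := by
  have h : IsPicardLindelof (fun _ : ℝ => fun y => t • Y y) (tmin := 0) (tmax := 1)
      ⟨0, by simp⟩ z (‖t‖₊ * M) 0 (‖t‖₊ * M) (‖t‖₊ * K) := by
    apply IsPicardLindelof.of_time_independent
    · intro x _
      rw [norm_smul]
      push_cast
      gcongr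
      exact hY.bd x
    · exact (hY.lip_smul t).lipschitzOnWith
    · simp
  obtain ⟨u, hu0, hu⟩ := h.exists_eq_forall_mem_Icc_hasDerivWithinAt₀
  exact ⟨u, hu0, hu⟩

lemma U_spec [CompleteSpace E] (hY : GField Y K M) (z : E) (t : ℂ) : IsSol Y z t (U Y z t) :=
  Classical.epsilon_spec (exists_sol hY z t)

lemma IsSol.continuousOn {z : E} {t : ℂ} {u : ℝ → E} (h : IsSol Y z t u) :
    ContinuousOn u (Icc 0 1) := fun x hx => (h.2 x hx).continuousWithinAt

lemma IsSol.right {z : E} {t : ℂ} {u : ℝ → E} (h : IsSol Y z t u) :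
    ∀ x ∈ Ico (0:ℝ) 1, HasDerivWithinAt u (t • Y (u x)) (Ici x) x := fun x hx =>
  (h.2 x (Ico_subset_Icc_self hx)).mono_of_mem_nhdsWithin (Icc_mem_nhdsGE_of_mem hx)

lemma IsSol.unique (hY : GField Y K M) {z : E} {t : ℂ} {u v : ℝ → E} (hu : IsSol Y z t u)
    (hv : IsSol Y z t v) : EqOn u v (Icc 0 1) :=
  ODE_solution_unique (v := fun _ y => t • Y y) (fun _ => hY.lip_smul t)
    hu.continuousOn hu.right hv.continuousOn hv.right (by rw [hu.1, hv.1])

lemma IsSol.scale {z : E} {t : ℂ} {u : ℝ → E} (h : IsSol Y z t u) {y : ℝ}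
    (hy : y ∈ Icc (0:ℝ) 1) : IsSol Y z (y * t) (fun x => u (y * x)) := by
  refine ⟨by simp [h.1], fun x hx => ?_⟩
  have hm : MapsTo (fun x : ℝ => y * x) (Icc 0 1) (Icc 0 1) := by
    intro x hx
    exact ⟨mul_nonneg hy.1 hx.1, mul_le_one₀ hy.2 hx.1 hx.2⟩
  have h1 : HasDerivWithinAt (fun x : ℝ => y * x) y (Icc 0 1) x := by
    simpa using (hasDerivWithinAt_id x (Icc (0:ℝ) 1)).const_mul y
  have := HasDerivWithinAt.scomp x (h.2 (y * x) (hm hx)) h1 hm
  convert! this using 1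
  rw [← smul_assoc]
  simp

lemma Φ_of_sol [CompleteSpace E] (hY : GField Y K M) {z : E} {t : ℂ} {u : ℝ → E}
    (h : IsSol Y z t u) : u 1 = Φ Y z t :=
  h.unique hY (U_spec hY z t) (by simp)

lemma sol_apply [CompleteSpace E] (hY : GField Y K M) {z : E} {t : ℂ} {u : ℝ → E}
    (h : IsSol Y z t u) {x : ℝ} (hx : x ∈ Icc (0:ℝ) 1) : u x = Φ Y z (x * t) := by
  have := Φ_of_sol hY (h.scale hx)
  simpa using this

lemma isSol_Φ [CompleteSpace E] (hY : GField Y K M) (z : E) (t : ℂ) :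
    IsSol Y z t (fun x : ℝ => Φ Y z (x * t)) := by
  have h := U_spec hY z t
  have h2 : ∀ x ∈ Icc (0:ℝ) 1, U Y z t x = Φ Y z (x * t) := fun x hx => sol_apply hY h hx
  refine ⟨?_, fun x hx => ?_⟩
  · simpa [h.1] using (h2 0 (by simp)).symm
  · have := (h.2 x hx)
    rw [h2 x hx] at this
    exact this.congr (fun y hy => (h2 y hy).symm) (h2 x hx).symm

lemma Φ_zero [CompleteSpace E] (hY : GField Y K M) (z : E) : Φ Y z 0 = z := by
  simpa using (isSol_Φ hY z 0).1

lemma Φ_const [CompleteSpace E] (hY : GField Y K M) {z : E} (hz : Y z = 0) (t : ℂ) :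
    Φ Y z t = z := by
  have : IsSol Y z t (fun _ => z) := by
    refine ⟨rfl, fun x _ => ?_⟩
    simpa [hz] using hasDerivWithinAt_const x (Icc (0:ℝ) 1) z
  exact (Φ_of_sol hY this).symm

/-- radial Lipschitz estimate -/
lemma Φ_radial [CompleteSpace E] (hY : GField Y K M) (z : E) (t : ℂ) {x y : ℝ}
    (hx : x ∈ Icc (0:ℝ) 1) (hy : y ∈ Icc (0:ℝ) 1) :
    ‖Φ Y z (y * t) - Φ Y z (x * t)‖ ≤ ‖t‖ * M * |y - x| := by
  have h := isSol_Φ hY z t
  have := Convex.norm_image_sub_le_of_norm_hasDerivWithin_le (𝕜 := ℝ) (C := ‖t‖ * M)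
    (f := fun x : ℝ => Φ Y z (x * t)) (fun x hx => h.2 x hx)
    (fun x _ => by rw [norm_smul]; gcongr; exact hY.bd _) (convex_Icc (0:ℝ) 1) hx hy
  simpa [Real.norm_eq_abs] using this

lemma Φ_dist_le [CompleteSpace E] (hY : GField Y K M) (z z' : E) (t t' : ℂ) :
    dist (Φ Y z t) (Φ Y z' t') ≤
      gronwallBound (dist z z') (‖t‖ * K + 1) (‖t - t'‖ * M) 1 := by
  have h := isSol_Φ hY z t
  have h' := isSol_Φ hY z' t'
  have hl : ∀ _ : ℝ, LipschitzWith (‖t‖₊ * K + 1) (fun y => t • Y y) := fun _ =>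
    (hY.lip_smul t).weaken (by simp)
  have := dist_le_of_approx_trajectories_ODE (v := fun _ y => t • Y y) (a := 0) (b := 1)
    (εf := 0) (εg := ‖t - t'‖ * M) (δ := dist z z') hl
    h.continuousOn h.right (fun x _ => by simp) h'.continuousOn h'.right
    (fun x _ => by
      rw [dist_eq_norm, ← sub_smul, norm_smul, norm_sub_rev t' t]
      gcongr
      exact hY.bd _)
    (by simp [Φ_zero hY]) 1 (by simp)
  simpa using this

lemma continuous_Φ [CompleteSpace E] (hY : GField Y K M) :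
    Continuous (fun p : E × ℂ => Φ Y p.1 p.2) := by
  rw [continuous_iff_continuousAt]
  rintro ⟨z, t⟩
  rw [ContinuousAt, tendsto_iff_dist_tendsto_zero]
  have hb : ∀ p : E × ℂ, dist (Φ Y p.1 p.2) (Φ Y z t) ≤
      dist z p.1 * Real.exp ((‖t‖ * K + 1) * 1) + (‖t - p.2‖ * M) / (‖t‖ * K + 1) *
        (Real.exp ((‖t‖ * K + 1) * 1) - 1) := by
    intro p
    have := Φ_dist_le hY z p.1 t p.2
    rw [dist_comm]
    have hne : (‖t‖ * K + 1 : ℝ) ≠ 0 := by positivity
    rwa [gronwallBound_of_K_ne_0 hne] at this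
  refine squeeze_zero (fun _ => dist_nonneg) hb ?_
  have hc : Continuous (fun p : E × ℂ => dist z p.1 * Real.exp ((‖t‖ * K + 1) * 1) +
      (‖t - p.2‖ * M) / (‖t‖ * K + 1) * (Real.exp ((‖t‖ * K + 1) * 1) - 1)) := by
    fun_prop
  have := hc.tendsto (z, t)
  simpa using this

/-- segment lemma: a solution along a complex segment is given by `Φ`. -/
lemma seg [CompleteSpace E] (hY : GField Y K M) {w : ℂ → E} {a b : ℂ}
    (h : ∀ x ∈ Icc (0:ℝ) 1, HasDerivAt w (Y (w (a + x * (b - a)))) (a + x * (b - a))) :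
    Φ Y (w a) (b - a) = w b := by
  have : IsSol Y (w a) (b - a) (fun x : ℝ => w (a + x * (b - a))) := by
    refine ⟨by simp, fun x hx => ?_⟩
    have h1 : HasDerivAt (fun x : ℝ => a + x * (b - a)) (b - a) x := by
      have : HasDerivAt (fun x : ℝ => (x : ℂ)) 1 x := Complex.ofRealCLM.hasDerivAt
      simpa using (this.mul_const (b - a)).const_add a
    have := HasDerivAt.scomp x (h x hx) h1
    exact this.hasDerivWithinAt
  simpa using (Φ_of_sol hY this).symm

end Run7.h718
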