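import Pool.Agent.Run7.h718.CP

open Set Metric Filter Topology
open scoped NNReal

namespace Run7.h718

variable {E : Type*} [NormedAddCommGroup E] [NormedSpace ℂ E]
variable {Y : E → E} {K M : ℝ≥0} {δ δ₂ : ℝ}

/-- there is no nontrivial solution on the right half plane with values in the closed ball -/
def NS (Y : E → E) (δ : ℝ) : Prop :=
  ¬ ∃ w : ℂ → E, (∀ t : ℂ, 0 < t.re → HasDerivAt w (Y (w t)) t ∧ ‖w t‖ ≤ δ) ∧
    ∃ t : ℂ, 0 < t.re ∧ w t ≠ 0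

/-- one step: from a failure of the extension near `-ϱ` we get a large maximal disc touching
an exit point in a direction close to `-1`. -/
lemma gap_step [CompleteSpace E] (S : Setup Y K M δ δ₂) {z : E} {ϱ c d₀ : ℝ} (hc : 0 < c)
    (hc8 : c ≤ 1 / 8) (hd₀ : 0 < d₀) (hMd : M * d₀ ≤ δ / 4) (hdc : d₀ ≤ c * ϱ)
    (hD : Disc Y δ z ϱ) {t : ℂ} (ht : ‖t + ϱ‖ < c * ϱ) {x : ℝ} (hx : x ∈ Icc (0:ℝ) 1)
    (hΦ : δ ≤ ‖Φ Y z (x * t)‖) :
    ∃ (z' : E) (n : ℂ) (r : ℝ), ‖n‖ = 1 ∧ ϱ / 2 ≤ r ∧ ‖n - 1‖ ^ 2 ≤ 24 * c ∧ Disc Y δ z' r ∧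
      δ / 2 ≤ ‖Φ Y z' (-n * (r - d₀))‖ := by
  have hϱ : 0 < ϱ := by
    by_contra h
    push Not at h
    nlinarith [mul_nonpos_of_nonneg_of_nonpos hc.le h]
  set z' := Φ Y z (-(ϱ / 2 : ℝ) : ℂ) with hz'
  have hnorm : ‖(-(ϱ / 2 : ℝ) : ℂ)‖ = ϱ / 2 := by
    rw [norm_neg, Complex.norm_real, Real.norm_eq_abs, abs_of_pos (by linarith)]
  have hlt : ‖(-(ϱ / 2 : ℝ) : ℂ)‖ < ϱ := by rw [hnorm]; linarith
  -- A
  have hA : Disc Y δ z' (ϱ / 2) := by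
    intro τ hτ
    have h1 : ‖(-(ϱ / 2 : ℝ) : ℂ) + τ‖ < ϱ := by
      calc _ ≤ ‖(-(ϱ / 2 : ℝ) : ℂ)‖ + ‖τ‖ := norm_add_le _ _
        _ < ϱ := by rw [hnorm]; linarith
    rw [hz', hD.shift S hlt h1]
    exact hD _ h1
  -- B
  have hB : ¬ Disc Y δ z' ((1 / 2 + c) * ϱ) := by
    intro hD'
    have h1 : Φ Y z' ((ϱ / 2 : ℝ) : ℂ) = z := by
      rw [hz', hD.shift S hlt (by simpa using hϱ)]
      simp [Φ_zero S.g]
    have h2 : ‖((ϱ / 2 : ℝ) : ℂ)‖ < (1 / 2 + c) * ϱ := by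
      rw [Complex.norm_real, Real.norm_eq_abs, abs_of_pos (by linarith)]
      nlinarith
    have h3 : ‖((ϱ / 2 : ℝ) : ℂ) + t‖ < (1 / 2 + c) * ϱ := by
      have : ((ϱ / 2 : ℝ) : ℂ) + t = (t + ϱ) + (-(ϱ / 2 : ℝ) : ℂ) := by push_cast; ring
      rw [this]
      calc _ ≤ ‖t + ϱ‖ + ‖(-(ϱ / 2 : ℝ) : ℂ)‖ := norm_add_le _ _
        _ < _ := by rw [hnorm]; linarith
    have h4 := norm_seg_lt h2 h3 hx
    have h5 : ((ϱ / 2 : ℝ) : ℂ) + x * (((ϱ / 2 : ℝ) : ℂ) + t - ((ϱ / 2 : ℝ) : ℂ)) =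
        ((ϱ / 2 : ℝ) : ℂ) + x * t := by ring
    rw [h5] at h4
    have h6 := hD'.shift S h2 h4
    rw [h1] at h6
    rw [h6] at hΦ
    exact absurd (hD' _ h4) (not_lt.2 hΦ)
  -- the maximal radius
  set A : Set ℝ := {r | Disc Y δ z' r} with hAdef
  have hAne : A.Nonempty := ⟨ϱ / 2, hA⟩
  have hAub : ∀ r ∈ A, r ≤ (1 / 2 + c) * ϱ := by
    intro r hr
    by_contra h
    push Not at h
    exact hB (Disc.mono hr h.le)
  have hAbdd : BddAbove A := ⟨_, hAub⟩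
  set r := sSup A with hr
  have hr1 : ϱ / 2 ≤ r := le_csSup hAbdd hA
  have hr2 : r ≤ (1 / 2 + c) * ϱ := csSup_le hAne hAub
  have hDr : Disc Y δ z' r := by
    intro τ hτ
    obtain ⟨r', hr', hlt'⟩ := exists_lt_of_lt_csSup hAne hτ
    exact hr' τ hlt'
  have hnD : ¬ Disc Y δ z' (r + d₀) := by
    intro h
    have := le_csSup hAbdd (show r + d₀ ∈ A from h)
    linarith
  obtain ⟨τ, hτ1, hτ2⟩ : ∃ τ : ℂ, ‖τ‖ < r + d₀ ∧ δ ≤ ‖Φ Y z' τ‖ := by
    unfold Disc at hnD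
    push Not at hnD
    exact hnD
  have hτr : r ≤ ‖τ‖ := by
    by_contra h
    push Not at h
    exact absurd (hDr τ h) (not_lt.2 hτ2)
  set q := ‖τ‖ with hq
  have hqpos : 0 < q := by linarith
  have hτ0 : τ ≠ 0 := by
    intro h
    rw [h, norm_zero] at hq
    linarith
  have hC : ϱ ≤ ‖(-(ϱ / 2 : ℝ) : ℂ) + τ‖ := by
    by_contra h
    push Not at h
    have := hD.shift S hlt h
    rw [← hz'] at this
    rw [this] at hτ2
    exact absurd (hD _ h) (not_lt.2 hτ2)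
  refine ⟨z', -(τ / q), r, ?_, hr1, ?_, hDr, ?_⟩
  · rw [norm_neg, norm_div, Complex.norm_real, Real.norm_eq_abs, abs_of_pos hqpos, ← hq,
      div_self hqpos.ne']
  · -- D
    have h1 : ‖(-(ϱ / 2 : ℝ) : ℂ) + τ‖ ^ 2 = ϱ ^ 2 / 4 - ϱ * τ.re + q ^ 2 := by
      rw [hq, Complex.sq_norm, Complex.sq_norm, Complex.normSq_apply, Complex.normSq_apply]
      simp
      ring
    have h2 : ϱ ^ 2 ≤ ϱ ^ 2 / 4 - ϱ * τ.re + q ^ 2 := by
      rw [← h1]
      exact pow_le_pow_left₀ hϱ.le hC 2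
    have h3 : ‖-(τ / q) - 1‖ ^ 2 = 2 + 2 * (τ.re / q) := by
      have hqq : τ.re ^ 2 + τ.im ^ 2 = q ^ 2 := by
        rw [hq, Complex.sq_norm, Complex.normSq_apply]; ring
      rw [Complex.sq_norm, Complex.normSq_apply]
      simp only [Complex.sub_re, Complex.neg_re, Complex.one_re, Complex.sub_im, Complex.neg_im,
        Complex.one_im, Complex.div_ofReal_re, Complex.div_ofReal_im]
      have : τ.im ^ 2 = q ^ 2 - τ.re ^ 2 := by linarith
      field_simp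
      nlinarith
    rw [h3]
    have h4 : q ≤ (1 / 2 + 2 * c) * ϱ := by nlinarith
    have h5 : ϱ / 2 ≤ q := by linarith
    -- ϱ q (2 + 2 re/q) = 2 ϱ q + 2 ϱ re ≤ 2ϱq - 3/2 ϱ^2 + 2 q^2
    have h6 : ϱ * q * (2 + 2 * (τ.re / q)) = 2 * ϱ * q + 2 * (ϱ * τ.re) := by
      field_simp
    have h7 : 2 * ϱ * q + 2 * (ϱ * τ.re) ≤ 2 * (q - ϱ / 2) * (q + 3 * ϱ / 2) := by nlinarith
    have h8 : 2 * (q - ϱ / 2) * (q + 3 * ϱ / 2) ≤ 2 * (2 * c * ϱ) * (3 * ϱ) := by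
      have h9 : q - ϱ / 2 ≤ 2 * c * ϱ := by linarith
      have h10 : q + 3 * ϱ / 2 ≤ 3 * ϱ := by nlinarith
      have h11 : 0 ≤ q - ϱ / 2 := by linarith
      have h12 : 0 ≤ q + 3 * ϱ / 2 := by linarith
      have := mul_le_mul h9 h10 h12 (by positivity)
      linarith
    have h13 : ϱ * q * (2 + 2 * (τ.re / q)) ≤ 12 * c * ϱ ^ 2 := by
      rw [h6]; linarith
    have h14 : ϱ ^ 2 / 2 ≤ ϱ * q := by nlinarith
    have h15 : 0 ≤ 2 + 2 * (τ.re / q) := by rw [← h3]; positivity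
    have h16 : ϱ ^ 2 / 2 * (2 + 2 * (τ.re / q)) ≤ 12 * c * ϱ ^ 2 :=
      (mul_le_mul_of_nonneg_right h14 h15).trans h13
    have hϱ2 : 0 < ϱ ^ 2 := by positivity
    have h17 : ϱ ^ 2 * (2 + 2 * (τ.re / q)) ≤ ϱ ^ 2 * (24 * c) := by linarith
    exact le_of_mul_le_mul_left h17 hϱ2
  · -- lower bound
    have hrd : d₀ ≤ r := by nlinarith
    set y := (r - d₀) / q with hy
    have hy0 : 0 ≤ y := div_nonneg (by linarith) hqpos.le
    have hy1 : y ≤ 1 := by rw [hy, div_le_one hqpos]; linarith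
    have he : - -(τ / q) * ((r : ℂ) - d₀) = y * τ := by
      rw [hy]; push_cast; ring
    rw [he]
    have h1 := Φ_radial S.g z' τ (x := 1) (y := y) (by simp) ⟨hy0, hy1⟩
    rw [Complex.ofReal_one, one_mul] at h1
    have h2 : |y - 1| = 1 - y := by rw [abs_sub_comm, abs_of_nonneg (by linarith)]
    rw [h2] at h1
    have h3 : q * M * (1 - y) = M * (q - r + d₀) := by
      rw [hy]; field_simp; ring
    rw [← hq, h3] at h1
    have h4 : M * (q - r + d₀) ≤ δ / 2 := by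
      have : (M : ℝ) * (q - r + d₀) ≤ M * (2 * d₀) :=
        mul_le_mul_of_nonneg_left (by linarith) M.2
      linarith
    have h5 : ‖Φ Y z' τ‖ ≤ ‖Φ Y z' (y * τ)‖ + ‖Φ Y z' (y * τ) - Φ Y z' τ‖ := by
      have := norm_sub_le (Φ Y z' (y * τ)) (Φ Y z' (y * τ) - Φ Y z' τ)
      simpa using this
    linarith

/-- If there is no nontrivial half plane solution, then large discs always extend to the left. -/
lemma gap [ProperSpace E] (S : Setup Y K M δ δ₂) (hNS : NS Y δ) :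
    ∃ R₀ > 0, ∃ c₀ > 0, c₀ < 1 ∧ ∀ (z : E) (ϱ : ℝ), R₀ ≤ ϱ → Disc Y δ z ϱ →
      ∀ t : ℂ, ‖t + ϱ‖ < c₀ * ϱ → ∀ x ∈ Icc (0:ℝ) 1, ‖Φ Y z (x * t)‖ < δ := by
  by_contra hcon
  push Not at hcon
  obtain ⟨d₀, hd₀, hMd⟩ : ∃ d₀ > 0, M * d₀ ≤ δ / 4 := by
    refine ⟨δ / (4 * (M + 1)), by have := S.δpos; positivity, ?_⟩
    have hM : (0 : ℝ) ≤ M := M.2
    have := S.δpos
    rw [mul_div_assoc', div_le_div_iff₀ (by positivity) (by norm_num)]
    nlinarith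
  have hstep : ∀ k : ℕ, ∃ (z' : E) (n : ℂ) (r : ℝ), ‖n‖ = 1 ∧ ((k : ℝ) + 1) / 2 ≤ r ∧
      ‖n - 1‖ ^ 2 ≤ 24 * (1 / ((k : ℝ) + 8)) ∧ Disc Y δ z' r ∧
      δ / 2 ≤ ‖Φ Y z' (-n * (r - d₀))‖ := by
    intro k
    have hk8 : (0 : ℝ) < (k : ℝ) + 8 := by positivity
    obtain ⟨z, ϱ, hϱ, hD, t, ht, x, hx, hΦ⟩ := hcon (((k : ℝ) + 1) + d₀ * (k + 8)) (by positivity)
      (1 / ((k : ℝ) + 8)) (by positivity) (by rw [div_lt_one hk8]; linarith [k.cast_nonneg (α := ℝ)])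
    have hk0 : (0:ℝ) ≤ k := k.cast_nonneg
    obtain ⟨z', n, r, h1, h2, h3, h4, h5⟩ := gap_step S (c := 1 / ((k : ℝ) + 8)) (by positivity)
      (by rw [div_le_div_iff₀ hk8 (by norm_num)]; linarith) hd₀ hMd (by
        rw [div_mul_eq_mul_div, one_mul, le_div_iff₀ hk8]
        nlinarith) hD ht hx hΦ
    exact ⟨z', n, r, h1, by nlinarith, h3, h4, h5⟩
  choose z n r hn hr hn1 hD hlow using hstep
  have hnlim : Tendsto n atTop (𝓝 1) := by
    rw [tendsto_iff_norm_sub_tendsto_zero]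
    have h1 : Tendsto (fun k : ℕ => Real.sqrt (24 * (1 / ((k : ℝ) + 8)))) atTop (𝓝 0) := by
      have h2 : Tendsto (fun k : ℕ => 24 * (1 / ((k : ℝ) + 8))) atTop (𝓝 (24 * 0)) := by
        refine Tendsto.const_mul _ ?_
        have h3 : Tendsto (fun k : ℕ => (k : ℝ) + 8) atTop atTop :=
          tendsto_atTop_add_const_right _ _ tendsto_natCast_atTop_atTop
        simpa [Pi.inv_def] using h3.inv_tendsto_atTop
      rw [mul_zero] at h2
      have h4 := (Real.continuous_sqrt.tendsto 0).comp h2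
      rw [Real.sqrt_zero] at h4
      exact h4
    refine squeeze_zero (fun _ => norm_nonneg _) (fun k => ?_) h1
    exact Real.le_sqrt_of_sq_le (hn1 k)
  have hrlim : Tendsto r atTop atTop := by
    refine tendsto_atTop_mono hr ?_
    have : Tendsto (fun k : ℕ => ((k : ℝ) + 1)) atTop atTop :=
      tendsto_atTop_add_const_right _ _ tendsto_natCast_atTop_atTop
    exact this.atTop_div_const (by norm_num)
  set v : ℕ → ℂ → E := fun k t => Φ Y (z k) (-n k * (r k - t)) with hv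
  have hkey : ∀ t ∈ {t : ℂ | 0 < t.re}, ∃ η > 0, ∀ᶠ k in atTop, ∀ τ ∈ ball t η,
      HasDerivAt (v k) (n k • Y (v k τ)) τ ∧ ‖v k τ‖ ≤ δ := by
    intro t ht
    have ht' : 0 < t.re := ht
    refine ⟨t.re / 2, by positivity, ?_⟩
    filter_upwards [hrlim.eventually_gt_atTop ((‖t‖ + t.re / 2) ^ 2 / t.re),
      hrlim.eventually_gt_atTop 0] with k hk hk0 τ hτ
    rw [mem_ball, dist_eq_norm] at hτ
    have h1 : t.re / 2 < τ.re := by
      have := Complex.abs_re_le_norm (τ - t)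
      rw [Complex.sub_re] at this
      have := abs_le.1 this
      linarith
    have h2 : ‖τ‖ ≤ ‖t‖ + t.re / 2 := by
      have := norm_add_le (τ - t) t
      rw [sub_add_cancel] at this
      linarith
    have h3 : ‖(r k : ℂ) - τ‖ < r k := by
      have h4 : ‖(r k : ℂ) - τ‖ ^ 2 = r k ^ 2 - 2 * r k * τ.re + ‖τ‖ ^ 2 := by
        rw [Complex.sq_norm, Complex.sq_norm, Complex.normSq_apply, Complex.normSq_apply]
        simp
        ring
      have h5 : ‖τ‖ ^ 2 < 2 * r k * τ.re := by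
        have h6 : ‖τ‖ ^ 2 ≤ (‖t‖ + t.re / 2) ^ 2 := pow_le_pow_left₀ (norm_nonneg _) h2 2
        rw [div_lt_iff₀ ht'] at hk
        have h7 : r k * t.re < 2 * r k * τ.re := by nlinarith
        linarith
      have h8 : ‖(r k : ℂ) - τ‖ ^ 2 < r k ^ 2 := by rw [h4]; linarith
      exact lt_of_pow_lt_pow_left₀ 2 hk0.le h8
    have h9 : ‖-n k * ((r k : ℂ) - τ)‖ < r k := by
      rw [norm_mul, norm_neg, hn k, one_mul]; exact h3
    refine ⟨?_, (hD k _ h9).le⟩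
    have h10 := (hD k).hasDerivAt S h9
    have h11 : HasDerivAt (fun τ : ℂ => -n k * ((r k : ℂ) - τ)) (n k) τ := by
      have := ((hasDerivAt_id τ).const_sub (r k : ℂ)).const_mul (-n k)
      simpa using this
    exact HasDerivAt.scomp τ h10 h11
  obtain ⟨w, hw1, hw2⟩ := ultra S.g hnlim hkey
  apply hNS
  refine ⟨w, fun t ht => hw1 t ht, d₀, by simpa using hd₀, ?_⟩
  have := hw2 d₀ (by simpa using hd₀) (δ / 2) (Eventually.of_forall fun k => hlow k)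
  intro h0
  rw [h0, norm_zero] at this
  linarith [S.δpos]

end Run7.h718
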