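import Pool.Agent.Run7.h718.Fin

open Set Metric Filter Topology
open scoped NNReal

namespace Run7.h718

variable {E : Type*} [NormedAddCommGroup E] [NormedSpace ℂ E]
variable {Y : E → E} {K M : ℝ≥0} {δ δ₂ : ℝ}

/-- `w` is a solution on the right half plane with values in the closed ball. -/
def IsHalf (Y : E → E) (δ : ℝ) (w : ℂ → E) : Prop :=
  ∀ t : ℂ, 0 < t.re → HasDerivAt w (Y (w t)) t ∧ ‖w t‖ ≤ δ

lemma re_seg_pos {a b : ℂ} (ha : 0 < a.re) (hb : 0 < b.re) {x : ℝ} (hx : x ∈ Icc (0:ℝ) 1) :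
    0 < (a + x * (b - a)).re := by
  rw [Complex.add_re, Complex.re_ofReal_mul, Complex.sub_re]
  have h1 := mul_nonneg hx.1 hb.le
  have h2 := mul_nonneg (sub_nonneg.2 hx.2) ha.le
  rcases eq_or_lt_of_le hx.1 with h | h
  · rw [← h]; simpa using ha
  · have h3 := mul_pos h hb
    nlinarith

lemma IsHalf.seg [CompleteSpace E] (S : Setup Y K M δ δ₂) {w : ℂ → E} (h : IsHalf Y δ w)
    {a b : ℂ} (ha : 0 < a.re) (hb : 0 < b.re) : Φ Y (w a) (b - a) = w b :=
  Run7.h718.seg S.g (fun _ hx => (h _ (re_seg_pos ha hb hx)).1)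

lemma IsHalf.ne_zero [CompleteSpace E] (S : Setup Y K M δ δ₂) {w : ℂ → E} (h : IsHalf Y δ w)
    (hne : ∃ t : ℂ, 0 < t.re ∧ w t ≠ 0) {t : ℂ} (ht : 0 < t.re) : w t ≠ 0 := by
  intro h0
  obtain ⟨t₀, ht₀, hw₀⟩ := hne
  have h1 := h.seg S ht ht₀
  rw [h0, Φ_const S.g S.zero] at h1
  exact hw₀ h1.symm

lemma IsHalf.decay [ProperSpace E] (S : Setup Y K M δ δ₂) {w : ℂ → E} (h : IsHalf Y δ w)
    {ε : ℝ} (hε : 0 < ε) : ∃ R : ℝ, 0 ≤ R ∧ ∀ t : ℂ, R < t.re → ‖w t‖ < ε := by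
  by_contra hcon
  push Not at hcon
  have hk : ∀ k : ℕ, ∃ t : ℂ, (k : ℝ) < t.re ∧ ε ≤ ‖w t‖ := fun k => hcon k (Nat.cast_nonneg k)
  choose tk htk hwk using hk
  obtain ⟨w', hw', hlow⟩ := ultra (δ := δ) S.g (v := fun k t => w (tk k + t)) (n := fun _ => 1)
    tendsto_const_nhds (S := univ) (fun t _ => by
      refine ⟨1, one_pos, ?_⟩
      obtain ⟨N, hN⟩ := exists_nat_gt (‖t‖ + 1)
      filter_upwards [eventually_ge_atTop N] with k hk τ hτ
      have hkN : (N : ℝ) ≤ k := by exact_mod_cast hk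
      have hτ1 : ‖τ‖ < ‖t‖ + 1 := by
        rw [mem_ball, dist_eq_norm] at hτ
        have := norm_sub_norm_le τ t
        linarith
      have hre : 0 < (tk k + τ).re := by
        rw [Complex.add_re]
        have h1 := htk k
        have h2 := abs_le.1 (Complex.abs_re_le_norm τ)
        linarith
      have h3 := h _ hre
      refine ⟨?_, h3.2⟩
      rw [one_smul]
      have h4 : HasDerivAt (fun t => tk k + t) 1 τ := (hasDerivAt_id τ).const_add _
      have := HasDerivAt.scomp τ h3.1 h4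
      rw [one_smul] at this
      exact this)
  have h1 := entire_trivial S (fun t => (hw' t (mem_univ t)).1) (fun t => (hw' t (mem_univ t)).2) 0
  have h2 := hlow 0 (mem_univ _) ε (Eventually.of_forall fun k => by simpa using hwk k)
  rw [h1, norm_zero] at h2
  linarith

lemma IsHalf.per [CompleteSpace E] (S : Setup Y K M δ δ₂) {w : ℂ → E} (h : IsHalf Y δ w)
    {t₁ p : ℂ} (ht₁ : 0 < t₁.re) (ht₂ : 0 < (t₁ + p).re) (heq : w (t₁ + p) = w t₁)
    {t : ℂ} (ht : 0 < t.re) (htp : 0 < (t + p).re) : w (t + p) = w t := by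
  have h1 := h.seg S ht₁ ht
  have h2 := h.seg S ht₂ htp
  rw [heq] at h2
  have : t + p - (t₁ + p) = t - t₁ := by ring
  rw [this, h1] at h2
  exact h2.symm

lemma IsHalf.inj_aux [ProperSpace E] (S : Setup Y K M δ δ₂)
    (hlip : ∀ ε > 0, ∃ ρ > 0, ∀ z z', ‖z‖ < ρ → ‖z'‖ < ρ → ‖Y z - Y z'‖ ≤ ε * ‖z - z'‖)
    {w : ℂ → E} (h : IsHalf Y δ w)
    (hne : ∃ t : ℂ, 0 < t.re ∧ w t ≠ 0)
    {t₁ p : ℂ} (ht₁ : 0 < t₁.re) (hp : 0 ≤ p.re) (heq : w (t₁ + p) = w t₁) : p = 0 := by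
  by_contra hp0
  have ht₂ : 0 < (t₁ + p).re := by rw [Complex.add_re]; linarith
  rcases hp.lt_or_eq with hpos | hzero
  · -- positive real part
    have hk : ∀ k : ℕ, w (t₁ + k * p) = w t₁ := by
      intro k
      induction k with
      | zero => simp
      | succ k ih =>
        have h1 : 0 < (t₁ + k * p).re := by
          rw [Complex.add_re, ← Complex.ofReal_natCast, Complex.re_ofReal_mul]
          positivity
        have h2 := h.per S ht₁ ht₂ heq h1 (by rw [Complex.add_re]; linarith)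
        rw [← ih, ← h2]
        push_cast
        congr 1
        ring
    have hwn : 0 < ‖w t₁‖ := norm_pos_iff.2 (h.ne_zero S hne ht₁)
    obtain ⟨R, hR0, hR⟩ := h.decay S hwn
    obtain ⟨k, hkR⟩ := exists_nat_gt (R / p.re)
    have h3 : R < (t₁ + k * p).re := by
      rw [Complex.add_re, ← Complex.ofReal_natCast, Complex.re_ofReal_mul]
      rw [div_lt_iff₀ hpos] at hkR
      linarith
    have h4 := hR _ h3
    rw [hk k] at h4
    exact lt_irrefl _ h4
  · -- imaginary period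
    have hpn : 0 < ‖p‖ := norm_pos_iff.2 hp0
    obtain ⟨ρ, hρ, hL⟩ := hlip (1 / (2 * ‖p‖)) (by positivity)
    obtain ⟨R, hR0, hR⟩ := h.decay S hρ
    set t : ℂ := ((R + 1 : ℝ) : ℂ) with ht
    have htre : ∀ x : ℝ, (t + x * p).re = R + 1 := by
      intro x
      rw [Complex.add_re, Complex.re_ofReal_mul, ← hzero, mul_zero, add_zero, ht,
        Complex.ofReal_re]
    have hpos : ∀ x : ℝ, 0 < (t + x * p).re := fun x => by rw [htre]; linarith
    have hper : ∀ x : ℝ, w (t + (x + 1 : ℝ) * p) = w (t + x * p) := by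
      intro x
      have := h.per S ht₁ ht₂ heq (hpos x) (by
        rw [Complex.add_re, htre, ← hzero]; linarith)
      rw [← this]
      congr 1
      push_cast
      ring
    set F : ℝ → ℝ := fun x => ‖Y (w (t + x * p))‖ with hF
    have hwd : ∀ x : ℝ, HasDerivAt (fun x : ℝ => w (t + x * p)) (p • Y (w (t + x * p))) x := by
      intro x
      have h2 : HasDerivAt (fun x : ℝ => t + (x : ℂ) * p) p x := by
        have : HasDerivAt (fun x : ℝ => (x : ℂ)) 1 x := Complex.ofRealCLM.hasDerivAt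
        simpa using (this.mul_const p).const_add t
      exact HasDerivAt.scomp x (h _ (hpos x)).1 h2
    have hFc : Continuous F := by
      have : Continuous (fun x : ℝ => w (t + x * p)) :=
        continuous_iff_continuousAt.2 fun x => (hwd x).continuousAt
      exact (S.g.lip.continuous.comp this).norm
    have hF1 : ∀ x, F (x + 1) = F x := fun x => by simp only [hF]; rw [hper]
    obtain ⟨x₀, hx₀, hmax⟩ := isCompact_Icc.exists_isMaxOn (nonempty_Icc.2 zero_le_one)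
      (hFc.continuousOn (s := Icc (0:ℝ) 1))
    have hmax' : ∀ x ∈ Icc (0:ℝ) 1, F (x₀ + x) ≤ F x₀ := by
      intro x hx
      by_cases hc : x₀ + x ≤ 1
      · exact hmax ⟨by linarith [hx.1, hx₀.1], hc⟩
      · push Not at hc
        have := hF1 (x₀ + x - 1)
        rw [sub_add_cancel] at this
        rw [this]
        exact hmax ⟨by linarith, by linarith [hx.2, hx₀.2]⟩
    set B := F x₀ with hB
    have hB0 : 0 ≤ B := norm_nonneg _
    set u : ℝ → E := fun x => w (t + (x₀ + x : ℝ) * p) with hu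
    have hud : ∀ x : ℝ, HasDerivAt u (p • Y (u x)) x := by
      intro x
      have h3 : HasDerivAt (fun x : ℝ => x₀ + x) 1 x := (hasDerivAt_id x).const_add x₀
      have := HasDerivAt.scomp x (hwd (x₀ + x)) h3
      rw [one_smul] at this
      exact this
    have hu01 : u 1 = u 0 := by
      simp only [hu]
      rw [hper, add_zero]
    have huρ : ∀ x : ℝ, ‖u x‖ < ρ := fun x => hR _ (by rw [htre]; linarith)
    have hconv : Convex ℝ (Icc (0:ℝ) 1) := convex_Icc 0 1
    have hlen : ∀ x ∈ Icc (0:ℝ) 1, ‖u x - u 0‖ ≤ ‖p‖ * B := by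
      intro x hx
      have := hconv.norm_image_sub_le_of_norm_hasDerivWithin_le (𝕜 := ℝ) (f := u)
        (C := ‖p‖ * B) (fun y _ => (hud y).hasDerivWithinAt)
        (fun y hy => by
          rw [norm_smul]
          exact mul_le_mul_of_nonneg_left (hmax' y hy) (norm_nonneg _))
        (by simp : (0:ℝ) ∈ Icc (0:ℝ) 1) hx
      refine this.trans ?_
      rw [sub_zero, Real.norm_eq_abs, abs_of_nonneg hx.1]
      exact mul_le_of_le_one_right (by positivity) hx.2
    have hg := hconv.norm_image_sub_le_of_norm_hasDerivWithin_le (𝕜 := ℝ)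
      (f := fun x : ℝ => u x - x • (p • Y (u 0))) (C := ‖p‖ * (1 / (2 * ‖p‖) * (‖p‖ * B)))
      (f' := fun x => p • Y (u x) - p • Y (u 0))
      (fun y _ => by
        have h5 : HasDerivAt (fun x : ℝ => x • (p • Y (u 0))) ((1:ℝ) • (p • Y (u 0))) y :=
          (hasDerivAt_id y).smul_const _
        rw [one_smul] at h5
        exact ((hud y).sub h5).hasDerivWithinAt)
      (fun y hy => by
        rw [← smul_sub, norm_smul]
        refine mul_le_mul_of_nonneg_left ?_ (norm_nonneg _)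
        refine (hL _ _ (huρ y) (huρ 0)).trans ?_
        exact mul_le_mul_of_nonneg_left (hlen y hy) (by positivity))
      (by simp : (0:ℝ) ∈ Icc (0:ℝ) 1) (by simp : (1:ℝ) ∈ Icc (0:ℝ) 1)
    rw [hu01, one_smul, zero_smul, sub_zero, sub_sub_cancel_left, norm_neg, norm_smul, sub_zero,
      norm_one, mul_one] at hg
    have h6 : ‖Y (u 0)‖ ≤ 1 / (2 * ‖p‖) * (‖p‖ * B) := le_of_mul_le_mul_left hg hpn
    have h7 : 1 / (2 * ‖p‖) * (‖p‖ * B) = B / 2 := by field_simp
    have h8 : ‖Y (u 0)‖ = B := by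
      simp only [hu, hB, hF, add_zero]
    rw [h7, h8] at h6
    have h9 : B = 0 := by linarith
    rw [h9] at h8
    have h10 : u 0 = 0 := S.iso _ (by
      have := (h (t + (x₀ + 0 : ℝ) * p) (hpos _)).2
      exact this) (norm_eq_zero.1 h8)
    exact h.ne_zero S hne (hpos (x₀ + 0)) h10

lemma IsHalf.inj [ProperSpace E] (S : Setup Y K M δ δ₂)
    (hlip : ∀ ε > 0, ∃ ρ > 0, ∀ z z', ‖z‖ < ρ → ‖z'‖ < ρ → ‖Y z - Y z'‖ ≤ ε * ‖z - z'‖)
    {w : ℂ → E} (h : IsHalf Y δ w)
    (hne : ∃ t : ℂ, 0 < t.re ∧ w t ≠ 0) : InjOn w {t : ℂ | 0 < t.re} := by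
  intro t₁ ht₁ t₂ ht₂ heq
  rcases le_total t₁.re t₂.re with hle | hle
  · have := h.inj_aux S hlip hne (t₁ := t₁) (p := t₂ - t₁) ht₁
      (by rw [Complex.sub_re]; linarith) (by rw [add_sub_cancel]; exact heq.symm)
    exact (sub_eq_zero.1 this).symm
  · have := h.inj_aux S hlip hne (t₁ := t₂) (p := t₁ - t₂) ht₂
      (by rw [Complex.sub_re]; linarith) (by rw [add_sub_cancel]; exact heq)
    exact sub_eq_zero.1 this

/-- Summary: existence of an injective decaying half plane solution. -/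
theorem exists_half [ProperSpace E] (S : Setup Y K M δ δ₂) {C : ℝ} (hC0 : 0 < C)
    (hC : ∀ z, ‖z‖ ≤ δ → ‖Y z‖ ≤ C * ‖z‖ ^ 2)
    (hlip : ∀ ε > 0, ∃ ρ > 0, ∀ z z', ‖z‖ < ρ → ‖z'‖ < ρ → ‖Y z - Y z'‖ ≤ ε * ‖z - z'‖)
    (hne : ∃ v : E, v ≠ 0) :
    ∃ w : ℂ → E, IsHalf Y δ w ∧ (∀ t : ℂ, 0 < t.re → w t ≠ 0) ∧
      InjOn w {t : ℂ | 0 < t.re} ∧
      ∀ ε > 0, ∃ R : ℝ, 0 ≤ R ∧ ∀ t : ℂ, R < t.re → ‖w t‖ < ε := by
  have h := not_NS S hC0 hC hne
  unfold NS at h
  push Not at h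
  obtain ⟨w, hw, hne'⟩ := h
  have hw' : IsHalf Y δ w := hw
  exact ⟨w, hw', fun t ht => hw'.ne_zero S hne' ht, hw'.inj S hlip hne',
    fun ε hε => hw'.decay S hε⟩

end Run7.h718
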