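import Pool.Agent.Run7.h718.Flow

open Set Metric Filter Topology
open scoped NNReal

namespace Run7.h718

variable {E : Type*} [NormedAddCommGroup E] [NormedSpace ℂ E] [CompleteSpace E]
variable {Y : E → E} {K M : ℝ≥0}

/-- Euler polygons with `N` steps. -/
noncomputable def eul (Y : E → E) (N : ℕ) (z : E) (t : ℂ) : ℕ → E
  | 0 => z
  | j + 1 => eul Y N z t j + (t / N) • Y (eul Y N z t j)

lemma trunc (hY : GField Y K M) (z : E) (t : ℂ) {x h : ℝ} (hx : 0 ≤ x) (hh : 0 ≤ h)
    (hxh : x + h ≤ 1) :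
    ‖Φ Y z ((x + h : ℝ) * t) - Φ Y z (x * t) - ((h : ℂ) * t) • Y (Φ Y z (x * t))‖ ≤
      h ^ 2 * (‖t‖ ^ 2 * K * M) := by
  have hs := isSol_Φ hY z t
  have hsub : Icc x (x + h) ⊆ Icc (0:ℝ) 1 := Icc_subset_Icc hx hxh
  have hd : ∀ y ∈ Icc x (x + h), HasDerivWithinAt
      (fun y : ℝ => Φ Y z (y * t) - y • (t • Y (Φ Y z (x * t))))
      (t • Y (Φ Y z (y * t)) - t • Y (Φ Y z (x * t))) (Icc x (x + h)) y := by
    intro y hy
    have h1 := (hs.2 y (hsub hy)).mono hsub
    have h2 : HasDerivWithinAt (fun y : ℝ => y • (t • Y (Φ Y z (x * t))))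
        ((1 : ℝ) • (t • Y (Φ Y z (x * t)))) (Icc x (x + h)) y :=
      (hasDerivWithinAt_id y _).smul_const _
    rw [one_smul] at h2
    exact h1.sub h2
  have hb : ∀ y ∈ Icc x (x + h), ‖t • Y (Φ Y z (y * t)) - t • Y (Φ Y z (x * t))‖ ≤
      ‖t‖ ^ 2 * K * M * h := by
    intro y hy
    rw [← smul_sub, norm_smul]
    have h1 : ‖Y (Φ Y z (y * t)) - Y (Φ Y z (x * t))‖ ≤
        K * ‖Φ Y z (y * t) - Φ Y z (x * t)‖ := by
      have := hY.lip.dist_le_mul (Φ Y z (y * t)) (Φ Y z (x * t))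
      simpa [dist_eq_norm] using this
    have h2 := Φ_radial hY z t (hsub (left_mem_Icc.2 (by linarith))) (hsub hy)
    have h3 : |y - x| ≤ h := by
      rw [abs_of_nonneg (by linarith [hy.1])]; linarith [hy.2]
    calc ‖t‖ * ‖Y (Φ Y z (y * t)) - Y (Φ Y z (x * t))‖
        ≤ ‖t‖ * (K * (‖t‖ * M * h)) := by
          refine mul_le_mul_of_nonneg_left ?_ (norm_nonneg _)
          refine h1.trans (mul_le_mul_of_nonneg_left ?_ K.2)
          exact h2.trans (mul_le_mul_of_nonneg_left h3 (by positivity))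
      _ = _ := by ring
  have := Convex.norm_image_sub_le_of_norm_hasDerivWithin_le (𝕜 := ℝ) hd hb
    (convex_Icc x (x + h)) (left_mem_Icc.2 (by linarith)) (right_mem_Icc.2 (by linarith))
  have he : Φ Y z ((x + h : ℝ) * t) - (x + h) • (t • Y (Φ Y z (x * t))) -
      (Φ Y z (x * t) - x • (t • Y (Φ Y z (x * t)))) =
      Φ Y z ((x + h : ℝ) * t) - Φ Y z (x * t) - ((h : ℂ) * t) • Y (Φ Y z (x * t)) := by
    rw [add_smul, mul_smul]
    have : (h : ℂ) • t • Y (Φ Y z (x * t)) = h • t • Y (Φ Y z (x * t)) := by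
      rw [Complex.coe_smul]
    rw [this]
    abel
  rw [he] at this
  refine this.trans (le_of_eq ?_)
  rw [Real.norm_eq_abs, abs_of_nonneg (by linarith)]
  ring

lemma eul_err (hY : GField Y K M) (z : E) (t : ℂ) {N : ℕ} (hN : 0 < N) :
    ∀ j ≤ N, ‖eul Y N z t j - Φ Y z ((j / N : ℝ) * t)‖ ≤
      j * ((‖t‖ ^ 2 * K * M) / N ^ 2) * (1 + ‖t‖ * K / N) ^ j := by
  intro j
  induction j with
  | zero => intro _; simp [eul, Φ_zero hY]
  | succ j ih =>
    intro hj
    have ih := ih (by omega)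
    have hN' : (0 : ℝ) < N := by exact_mod_cast hN
    set c := (‖t‖ ^ 2 * K * M) with hc
    have hc0 : 0 ≤ c := by positivity
    set q := (1 + ‖t‖ * K / N) with hq
    have hq1 : 1 ≤ q := by rw [hq]; linarith [show 0 ≤ ‖t‖ * K / N by positivity]
    have htr := trunc hY z t (x := j / N) (h := 1 / N) (by positivity) (by positivity)
      (by rw [← add_div, div_le_one hN']; exact_mod_cast hj)
    have e1 : ((j / N + 1 / N : ℝ)) = ((j + 1 : ℕ) / N : ℝ) := by push_cast; ring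
    rw [e1] at htr
    set a := Φ Y z ((j / N : ℝ) * t) with ha
    set b := Φ Y z (((j + 1 : ℕ) / N : ℝ) * t) with hb
    set e := eul Y N z t j with he
    have hlip : ‖Y e - Y a‖ ≤ K * ‖e - a‖ := by
      have := hY.lip.dist_le_mul e a
      simpa [dist_eq_norm] using this
    have e2 : ((1 / N : ℝ) : ℂ) * t = t / N := by push_cast; ring
    rw [e2] at htr
    have e3 : eul Y N z t (j + 1) - b =
        (e - a) + (t / N) • (Y e - Y a) - (b - a - (t / N) • Y a) := by
      simp only [eul, smul_sub, ← he]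
      abel
    rw [e3]
    have hn : ‖(t / N : ℂ)‖ = ‖t‖ / N := by simp
    calc ‖(e - a) + (t / N) • (Y e - Y a) - (b - a - (t / N) • Y a)‖
        ≤ ‖e - a‖ + ‖t‖ / N * (K * ‖e - a‖) + (1 / N) ^ 2 * c := by
          refine (norm_sub_le _ _).trans (add_le_add ((norm_add_le _ _).trans
            (add_le_add le_rfl ?_)) htr)
          rw [norm_smul, hn]
          gcongr
      _ = ‖e - a‖ * q + c / N ^ 2 := by rw [hq]; ring
      _ ≤ (j * (c / N ^ 2) * q ^ j) * q + c / N ^ 2 * q ^ (j + 1) := by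
          have : (1 : ℝ) ≤ q ^ (j + 1) := one_le_pow₀ hq1
          have h0 : 0 ≤ c / N ^ 2 := by positivity
          gcongr
          nlinarith
      _ = _ := by push_cast; ring

lemma eul_err' (hY : GField Y K M) (z : E) (t : ℂ) {N : ℕ} (hN : 0 < N) {τ : ℝ}
    (ht : ‖t‖ ≤ τ) {j : ℕ} (hj : j ≤ N) :
    ‖eul Y N z t j - Φ Y z ((j / N : ℝ) * t)‖ ≤
      (τ ^ 2 * K * M * Real.exp (τ * K)) / N := by
  have hN' : (0 : ℝ) < N := by exact_mod_cast hN
  have hτ : 0 ≤ τ := (norm_nonneg t).trans ht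
  refine (eul_err hY z t hN j hj).trans ?_
  have h1 : (1 + ‖t‖ * K / N) ^ j ≤ Real.exp (τ * K) := by
    calc (1 + ‖t‖ * K / N) ^ j ≤ (1 + ‖t‖ * K / N) ^ N :=
          pow_le_pow_right₀ (by linarith [show 0 ≤ ‖t‖ * K / N by positivity]) hj
      _ ≤ (Real.exp (‖t‖ * K / N)) ^ N := by
          gcongr
          rw [add_comm]
          exact Real.add_one_le_exp _
      _ = Real.exp (‖t‖ * K) := by
          rw [← Real.exp_nat_mul]
          congr 1
          field_simp
      _ ≤ _ := by gcongr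
  have h2 : (j : ℝ) ≤ N := by exact_mod_cast hj
  calc (j : ℝ) * ((‖t‖ ^ 2 * K * M) / N ^ 2) * (1 + ‖t‖ * K / N) ^ j
      ≤ N * ((τ ^ 2 * K * M) / N ^ 2) * Real.exp (τ * K) := by gcongr
    _ = _ := by field_simp

theorem hol_Φ (hY : GField Y K M) {δ δ₂ : ℝ} (hδ : δ < δ₂)
    (hdiff : ∀ z ∈ ball (0:E) δ₂, DifferentiableAt ℂ Y z) {V : Set ℂ} (hV : IsOpen V)
    {z : ℂ → E} {T : ℂ → ℂ} (hz : DifferentiableOn ℂ z V) (hT : DifferentiableOn ℂ T V)
    (hr : ∀ s ∈ V, ∀ x ∈ Icc (0:ℝ) 1, ‖Φ Y (z s) (x * T s)‖ ≤ δ) :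
    DifferentiableOn ℂ (fun s => Φ Y (z s) (T s)) V := by
  intro s₀ hs₀
  have hTc : ContinuousAt T s₀ := (hT.differentiableAt (hV.mem_nhds hs₀)).continuousAt
  have hev : ∀ᶠ s in 𝓝 s₀, s ∈ V ∧ ‖T s‖ ≤ ‖T s₀‖ + 1 := by
    have h1 : ∀ᶠ s in 𝓝 s₀, s ∈ V := hV.mem_nhds hs₀
    have h2 := hTc.norm.eventually (gt_mem_nhds (show ‖T s₀‖ < ‖T s₀‖ + 1 by linarith))
    filter_upwards [h1, h2] with s hs1 hs2 using ⟨hs1, le_of_lt hs2⟩
  obtain ⟨r, hr0, hrr⟩ := Metric.eventually_nhds_iff_ball.1 hev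
  set W := ball s₀ r with hW
  set τ := ‖T s₀‖ + 1 with hτ
  set C := (τ ^ 2 * K * M * Real.exp (τ * K)) with hC
  have hC0 : 0 ≤ C := by positivity
  have hlim : Tendsto (fun N : ℕ => C / N) atTop (𝓝 0) := tendsto_const_div_atTop_nhds_zero_nat C
  have hunif : TendstoUniformlyOn (fun (N : ℕ) s => eul Y N (z s) (T s) N)
      (fun s => Φ Y (z s) (T s)) atTop W := by
    rw [Metric.tendstoUniformlyOn_iff]
    intro ε hε
    filter_upwards [hlim.eventually (gt_mem_nhds hε), eventually_gt_atTop 0] with N hN hN0 s hs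
    have := eul_err' hY (z s) (T s) hN0 (hrr s hs).2 le_rfl
    have hN' : (N : ℝ) ≠ 0 := by exact_mod_cast hN0.ne'
    rw [dist_comm, dist_eq_norm]
    rw [div_self hN'] at this
    simp only [Complex.ofReal_one, one_mul] at this
    exact this.trans_lt hN
  have hdiffN : ∀ᶠ N : ℕ in atTop,
      DifferentiableOn ℂ (fun s => eul Y N (z s) (T s) N) W := by
    filter_upwards [hlim.eventually (gt_mem_nhds (show 0 < δ₂ - δ by linarith)),
      eventually_gt_atTop 0] with N hN hN0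
    have key : ∀ j ≤ N, DifferentiableOn ℂ (fun s => eul Y N (z s) (T s) j) W := by
      intro j
      induction j with
      | zero => intro _; exact hz.mono fun s hs => (hrr s hs).1
      | succ j ih =>
        intro hj
        have ih := ih (by omega)
        simp only [eul]
        have hTW : DifferentiableOn ℂ (fun s => T s / N) W :=
          (hT.mono fun s hs => (hrr s hs).1).div_const _
        refine ih.add (hTW.smul ?_)
        intro s hs
        have hmem : eul Y N (z s) (T s) j ∈ ball (0:E) δ₂ := by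
          rw [mem_ball_zero_iff]
          have h1 := eul_err' hY (z s) (T s) hN0 (hrr s hs).2 (show j ≤ N by omega)
          have h2 := hr s (hrr s hs).1 (j / N : ℝ) ⟨by positivity, by
            rw [div_le_one (by exact_mod_cast hN0)]; exact_mod_cast (show j ≤ N by omega)⟩
          calc ‖eul Y N (z s) (T s) j‖ ≤ ‖eul Y N (z s) (T s) j - Φ Y (z s) ((j / N : ℝ) * T s)‖
                + ‖Φ Y (z s) ((j / N : ℝ) * T s)‖ := by
                  simpa using norm_add_le (eul Y N (z s) (T s) j - Φ Y (z s) ((j / N : ℝ) * T s))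
                    (Φ Y (z s) ((j / N : ℝ) * T s))
            _ < (δ₂ - δ) + δ := add_lt_add_of_lt_of_le (h1.trans_lt hN) h2
            _ = δ₂ := by ring
        exact (hdiff _ hmem).comp_differentiableWithinAt s (ih s hs)
    exact key N le_rfl
  have := hunif.tendstoLocallyUniformlyOn.differentiableOn hdiffN isOpen_ball
  exact ((this s₀ (mem_ball_self hr0)).differentiableAt
    (isOpen_ball.mem_nhds (mem_ball_self hr0))).differentiableWithinAt

end Run7.h718
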