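import Pool.Agent.Run7.h718.Gap

open Set Metric Filter Topology
open scoped NNReal

namespace Run7.h718

variable {E : Type*} [NormedAddCommGroup E] [NormedSpace ℂ E]
variable {Y : E → E} {K M : ℝ≥0} {δ δ₂ : ℝ}

/-- the exit radius from `exp s • v` is at least `A exp(-m Re s)` for `Re s < σ`. -/
def P (Y : E → E) (δ : ℝ) (v : E) (m A σ : ℝ) : Prop :=
  ∀ s : ℂ, s.re < σ → Disc Y δ (Complex.exp s • v) (A * Real.exp (-(m * s.re)))

/-- Poisson-type kernel. -/
noncomputable def ker (r : ℝ) (x : ℂ) : ℂ := (1 + r * x) / (1 - r * x)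

lemma one_sub_norm_ge {r : ℝ} (hr0 : 0 ≤ r) {x : ℂ} (hx : ‖x‖ ≤ 1) :
    1 - r ≤ ‖1 - r * x‖ := by
  have h1 : ‖(r : ℂ) * x‖ ≤ r := by
    rw [norm_mul, Complex.norm_real, Real.norm_eq_abs, abs_of_nonneg hr0]
    exact mul_le_of_le_one_right hr0 hx
  have h2 := norm_sub_norm_le (1 : ℂ) (r * x)
  rw [norm_one] at h2
  linarith

lemma ker_norm_le {r : ℝ} (hr0 : 0 ≤ r) (hr1 : r < 1) {x : ℂ} (hx : ‖x‖ ≤ 1) :
    ‖ker r x‖ ≤ 2 / (1 - r) := by
  unfold ker
  rw [norm_div]
  have h1 := one_sub_norm_ge hr0 hx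
  have h2 : ‖1 + (r : ℂ) * x‖ ≤ 2 := by
    have h3 : ‖(r : ℂ) * x‖ ≤ 1 := by
      rw [norm_mul, Complex.norm_real, Real.norm_eq_abs, abs_of_nonneg hr0]
      nlinarith [norm_nonneg x]
    calc _ ≤ ‖(1:ℂ)‖ + ‖(r : ℂ) * x‖ := norm_add_le _ _
      _ ≤ 2 := by rw [norm_one]; linarith
  exact div_le_div₀ (by norm_num) h2 (by linarith) h1

lemma ker_re {r : ℝ} (hr0 : 0 ≤ r) (hr1 : r < 1) {x : ℂ} (hx : ‖x‖ = 1) :
    (ker r x).re = (1 - r ^ 2) / ‖1 - r * x‖ ^ 2 := by
  have hne : (1 : ℂ) - r * x ≠ 0 := by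
    intro h
    have := one_sub_norm_ge hr0 hx.le
    rw [h, norm_zero] at this
    linarith
  have hx2 : x.re ^ 2 + x.im ^ 2 = 1 := by
    have : ‖x‖ ^ 2 = 1 := by rw [hx]; norm_num
    rw [Complex.sq_norm, Complex.normSq_apply] at this
    linarith
  have h1 : ker r x = ((1 + r * x) * (starRingEnd ℂ) (1 - r * x)) / (‖1 - r * x‖ ^ 2 : ℝ) := by
    unfold ker
    rw [Complex.sq_norm, Complex.normSq_eq_conj_mul_self]
    have hc : (starRingEnd ℂ) (1 - r * x) ≠ 0 := (map_ne_zero (starRingEnd ℂ)).2 hne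
    rw [div_eq_div_iff hne (mul_ne_zero hc hne)]
    ring
  rw [h1, Complex.div_ofReal_re]
  congr 1
  simp
  nlinarith

/-- off the arc the kernel is small -/
lemma ker_re_le {r α : ℝ} (hα0 : 0 < α) (hα1 : α ≤ 1) (hr : r = 1 - α ^ 2 / 32) {x : ℂ}
    (hx : ‖x‖ = 1) (hxα : α ≤ ‖x - 1‖) : (ker r x).re ≤ 1 / 2 := by
  have hr0 : 0 ≤ r := by rw [hr]; nlinarith
  have hr1 : r < 1 := by rw [hr]; nlinarith [sq_pos_of_pos hα0]
  rw [ker_re hr0 hr1 hx]
  have h1 : α / 2 ≤ ‖1 - r * x‖ := by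
    have h2 : ‖x - 1‖ ≤ ‖1 - r * x‖ + ‖(x - r * x : ℂ)‖ := by
      have : x - 1 = -(1 - r * x) + (x - r * x) := by ring
      rw [this]
      refine (norm_add_le _ _).trans ?_
      rw [norm_neg]
    have h3 : ‖(x - r * x : ℂ)‖ = 1 - r := by
      have : (x - r * x : ℂ) = ((1 - r : ℝ) : ℂ) * x := by push_cast; ring
      rw [this, norm_mul, hx, Complex.norm_real, Real.norm_eq_abs, abs_of_pos (by linarith),
        mul_one]
    rw [h3] at h2
    have h4 : 1 - r ≤ α / 2 := by rw [hr]; nlinarith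
    linarith
  have h5 : α ^ 2 / 4 ≤ ‖1 - r * x‖ ^ 2 := by
    have := pow_le_pow_left₀ (by positivity) h1 2
    nlinarith
  have h6 : 0 < ‖1 - r * x‖ ^ 2 := lt_of_lt_of_le (by positivity) h5
  rw [div_le_div_iff₀ h6 (by norm_num)]
  have h7 : 1 - r ^ 2 ≤ 2 * (1 - r) := by nlinarith
  have h8 : 1 - r = α ^ 2 / 32 := by rw [hr]; ring
  nlinarith

theorem improve [ProperSpace E] (S : Setup Y K M δ δ₂) {R₀ c₀ : ℝ} (hc₀ : 0 < c₀)
    (hc₁ : c₀ < 1)
    (hgap : ∀ (z : E) (ϱ : ℝ), R₀ ≤ ϱ → Disc Y δ z ϱ →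
      ∀ t : ℂ, ‖t + ϱ‖ < c₀ * ϱ → ∀ x ∈ Icc (0:ℝ) 1, ‖Φ Y z (x * t)‖ < δ) :
    ∃ c₁ > 0, ∀ (v : E) (m A σ : ℝ), 0 < m → 0 < A →
      (∀ s : ℂ, s.re < σ → ‖Complex.exp s • v‖ < δ) → R₀ ≤ A * Real.exp (-(m * σ)) →
      P Y δ v m A σ → P Y δ v m ((1 + c₁) * A) (σ - 2 * Real.pi / m) := by
  set α : ℝ := c₀ / 64 with hα
  have hα0 : 0 < α := by positivity
  have hα1 : α ≤ 1 := by rw [hα]; linarith
  set r : ℝ := 1 - α ^ 2 / 32 with hr
  have hr0 : 0 ≤ r := by rw [hr]; nlinarith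
  have hr1 : r < 1 := by rw [hr]; nlinarith [sq_pos_of_pos hα0]
  set Kr : ℝ := 2 / (1 - r) with hKr
  have hKr0 : 0 < Kr := div_pos (by norm_num) (by linarith)
  have hKr1 : 1 ≤ Kr := by rw [hKr, le_div_iff₀ (by linarith)]; linarith
  set ε : ℝ := c₀ / 8 / Kr with hε
  have hε0 : 0 < ε := by positivity
  have hεK : ε * Kr = c₀ / 8 := by rw [hε]; field_simp
  have hε1 : ε ≤ c₀ / 8 := by
    rw [← hεK]; exact le_mul_of_one_le_right hε0.le hKr1
  refine ⟨ε / 4, by positivity, ?_⟩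
  intro v m A σ hm hA hvδ hR hP s₁ hs₁ t₁ ht₁
  have hπ := Real.pi_pos
  set ϱ₁ : ℝ := 2 * Real.pi / m with hϱ₁
  have hϱ₁0 : 0 < ϱ₁ := by positivity
  have hmϱ : m * ϱ₁ = 2 * Real.pi := by rw [hϱ₁]; field_simp
  have hs₁σ : s₁.re < σ := by linarith
  by_cases ht0 : t₁ = 0
  · rw [ht0, Φ_zero S.g]; exact hvδ s₁ hs₁σ
  -- the direction
  set ψ : ℝ := Complex.arg (-t₁) with hψ
  set y₀ : ℝ := ψ / (2 * Real.pi) with hy₀
  have hy₀b : |y₀| ≤ 1 / 2 := by
    rw [hy₀, abs_div, abs_of_pos (show 0 < 2 * Real.pi by positivity),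
      div_le_div_iff₀ (by positivity) (by norm_num)]
    have := Complex.abs_arg_le_pi (-t₁)
    linarith
  have hy₀sq : y₀ ^ 2 ≤ 1 / 4 := by
    have := sq_le_sq' (abs_le.1 hy₀b).1 (abs_le.1 hy₀b).2
    linarith
  set e₀ : ℂ := ⟨Real.sqrt (1 - y₀ ^ 2), y₀⟩ with he₀
  have he₀n : ‖e₀‖ = 1 := by
    have : ‖e₀‖ ^ 2 = 1 := by
      rw [Complex.sq_norm, Complex.normSq_apply]
      simp only [he₀]
      rw [Real.mul_self_sqrt (by linarith)]
      ring
    nlinarith [norm_nonneg e₀]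
  have he₀im : 2 * Real.pi * e₀.im = ψ := by
    simp only [he₀, hy₀]; field_simp
  set e₀' : ℂ := (starRingEnd ℂ) e₀ with he₀'
  have he₀'n : ‖e₀'‖ = 1 := by rw [he₀', RCLike.norm_conj, he₀n]
  have he₀mul : e₀' * e₀ = 1 := by
    rw [he₀', ← Complex.normSq_eq_conj_mul_self, Complex.normSq_eq_norm_sq, he₀n]; norm_num
  -- the analytic disc
  set X : ℂ → ℂ := fun s => e₀' * ((s - s₁) / ϱ₁) with hX
  set T : ℂ → ℂ := fun s => t₁ * Complex.exp (-(m * (s - s₁)) + ε * (ker r (X s) - 1)) with hT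
  have hXn : ∀ s ∈ closedBall s₁ ϱ₁, ‖X s‖ ≤ 1 := by
    intro s hs
    rw [mem_closedBall, dist_eq_norm] at hs
    simp only [hX]
    rw [norm_mul, he₀'n, one_mul, norm_div, Complex.norm_real, Real.norm_eq_abs,
      abs_of_pos hϱ₁0, div_le_one hϱ₁0]
    exact hs
  have hTs₁ : T s₁ = t₁ := by
    simp [hT, hX, ker]
  have hTd : ∀ s ∈ closedBall s₁ ϱ₁, DifferentiableAt ℂ T s := by
    intro s hs
    have hne : (1 : ℂ) - r * X s ≠ 0 := by
      intro h
      have := one_sub_norm_ge hr0 (hXn s hs)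
      rw [h, norm_zero] at this
      linarith
    have hXd : DifferentiableAt ℂ X s := by
      simp only [hX]; fun_prop
    have hkd : DifferentiableAt ℂ (fun s => ker r (X s)) s := by
      unfold ker
      exact ((hXd.const_mul _).const_add _).div ((hXd.const_mul _).const_sub _) hne
    simp only [hT]
    have h1 : DifferentiableAt ℂ (fun s => -((m : ℂ) * (s - s₁)) + ε * (ker r (X s) - 1)) s := by
      refine DifferentiableAt.add (by fun_prop) ?_
      exact (hkd.sub_const 1).const_mul _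
    exact (h1.cexp).const_mul t₁
  have hre : ∀ s ∈ closedBall s₁ ϱ₁, s.re < σ := by
    intro s hs
    rw [mem_closedBall, dist_eq_norm] at hs
    have := (Complex.abs_re_le_norm (s - s₁)).trans hs
    rw [Complex.sub_re] at this
    have := abs_le.1 this
    linarith
  have hzd : ∀ s ∈ closedBall s₁ ϱ₁, DifferentiableAt ℂ (fun s => Complex.exp s • v) s := by
    intro s _
    exact (Complex.differentiable_exp.differentiableAt).smul_const v
  -- boundary condition
  have hbd : ∀ s ∈ sphere s₁ ϱ₁, ∀ x ∈ Icc (0:ℝ) 1,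
      ‖Φ Y (Complex.exp s • v) (x * T s)‖ < δ := by
    intro s hs x hx
    have hscb : s ∈ closedBall s₁ ϱ₁ := sphere_subset_closedBall hs
    have hsσ := hre s hscb
    rw [mem_sphere, dist_eq_norm] at hs
    set e : ℂ := (s - s₁) / ϱ₁ with he
    have hϱc : (ϱ₁ : ℂ) ≠ 0 := by exact_mod_cast hϱ₁0.ne'
    have hen : ‖e‖ = 1 := by
      rw [he, norm_div, Complex.norm_real, Real.norm_eq_abs, abs_of_pos hϱ₁0, hs,
        div_self hϱ₁0.ne']
    have hse : s - s₁ = ϱ₁ * e := by rw [he]; field_simp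
    have hms : (m : ℂ) * (s - s₁) = 2 * Real.pi * e := by
      rw [hse, ← mul_assoc, ← Complex.ofReal_mul, hmϱ]; push_cast; ring
    have hXe : X s = e₀' * e := rfl
    have hXn1 : ‖X s‖ = 1 := by rw [hXe, norm_mul, he₀'n, hen, one_mul]
    have hX1 : ‖X s - 1‖ = ‖e - e₀‖ := by
      rw [hXe, ← he₀mul, ← mul_sub, norm_mul, he₀'n, one_mul]
    set k : ℂ := ker r (X s) with hk
    have hkn : ‖k‖ ≤ Kr := ker_norm_le hr0 hr1 hXn1.le
    set ϱs : ℝ := A * Real.exp (-(m * s.re)) with hϱs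
    have hϱs0 : 0 < ϱs := by positivity
    have hsre : m * s.re = m * s₁.re + 2 * Real.pi * e.re := by
      have h1 := congrArg Complex.re hse
      rw [Complex.sub_re, Complex.re_ofReal_mul] at h1
      have h2 : s.re = s₁.re + ϱ₁ * e.re := by linarith
      rw [h2, mul_add, ← mul_assoc, hmϱ]
    have hDs : Disc Y δ (Complex.exp s • v) ϱs := hP s hsσ
    have hRs : R₀ ≤ ϱs := by
      refine hR.trans ?_
      rw [hϱs]
      have : m * s.re ≤ m * σ := mul_le_mul_of_nonneg_left hsσ.le hm.le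
      gcongr
    -- the norm of T s
    have hTn : ‖T s‖ ≤ ((1 + ε / 4) * Real.exp (ε * (k.re - 1))) * ϱs := by
      have h1 : ‖T s‖ = ‖t₁‖ * Real.exp (-(2 * Real.pi * e.re) + ε * (k.re - 1)) := by
        simp only [hT]
        rw [norm_mul, Complex.norm_exp, hms, ← hk]
        congr 2
        simp
      rw [h1]
      have h2 : ‖t₁‖ ≤ (1 + ε / 4) * A * Real.exp (-(m * s₁.re)) := ht₁.le
      calc ‖t₁‖ * Real.exp (-(2 * Real.pi * e.re) + ε * (k.re - 1))
          ≤ ((1 + ε / 4) * A * Real.exp (-(m * s₁.re))) *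
            Real.exp (-(2 * Real.pi * e.re) + ε * (k.re - 1)) := by gcongr
        _ = ((1 + ε / 4) * Real.exp (ε * (k.re - 1))) * ϱs := by
            rw [hϱs, hsre, Real.exp_add, neg_add, Real.exp_add]; ring
    by_cases hcase : ‖T s‖ < ϱs
    · exact hDs _ ((norm_real_mul_le hx _).trans_lt hcase)
    · push Not at hcase
      -- then we are on the arc
      have harc : ‖e - e₀‖ < α := by
        by_contra hoff
        push Not at hoff
        have hk2 : k.re ≤ 1 / 2 := ker_re_le hα0 hα1 hr hXn1 (by rw [hX1]; exact hoff)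
        have h1 : (1 + ε / 4) * Real.exp (ε * (k.re - 1)) < 1 := by
          have h2 : 1 + ε / 4 ≤ Real.exp (ε / 4) := by
            have := Real.add_one_le_exp (ε / 4); linarith
          have h3 : Real.exp (ε * (k.re - 1)) ≤ Real.exp (-(ε / 2)) := by
            apply Real.exp_le_exp.2; nlinarith
          calc _ ≤ Real.exp (ε / 4) * Real.exp (-(ε / 2)) :=
                mul_le_mul h2 h3 (Real.exp_pos _).le (Real.exp_pos _).le
            _ = Real.exp (-(ε / 4)) := by rw [← Real.exp_add]; congr 1; ring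
            _ < 1 := by rw [Real.exp_lt_one_iff]; linarith
        have h4 : ‖T s‖ < ϱs := hTn.trans_lt (by nlinarith)
        linarith
      have hTn2 : ‖T s‖ ≤ (1 + c₀ / 2) * ϱs := by
        refine hTn.trans (mul_le_mul_of_nonneg_right ?_ hϱs0.le)
        have h1 : k.re ≤ Kr := (Complex.re_le_norm k).trans hkn
        have h2 : Real.exp (ε * (k.re - 1)) ≤ Real.exp (c₀ / 8) := by
          apply Real.exp_le_exp.2
          rw [← hεK]
          have : ε * (k.re - 1) ≤ ε * Kr := mul_le_mul_of_nonneg_left (by linarith) hε0.le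
          exact this
        have h3 : Real.exp (c₀ / 8) ≤ 1 + c₀ / 4 := by
          have h4 : 1 - c₀ / 8 ≤ Real.exp (-(c₀ / 8)) := by
            have := Real.add_one_le_exp (-(c₀ / 8)); linarith
          have h5 : Real.exp (c₀ / 8) * Real.exp (-(c₀ / 8)) = 1 := by
            rw [← Real.exp_add]; simp
          have h6 : 0 < Real.exp (c₀ / 8) := Real.exp_pos _
          have h7 : Real.exp (c₀ / 8) * (1 - c₀ / 8) ≤ 1 :=
            (mul_le_mul_of_nonneg_left h4 h6.le).trans_eq h5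
          have h8 : 1 ≤ (1 + c₀ / 4) * (1 - c₀ / 8) := by nlinarith
          have h9 : 0 < 1 - c₀ / 8 := by linarith
          exact le_of_mul_le_mul_right (h7.trans h8) h9
        calc (1 + ε / 4) * Real.exp (ε * (k.re - 1)) ≤ (1 + c₀ / 8) * (1 + c₀ / 4) := by
              refine mul_le_mul (by linarith) (h2.trans h3) (Real.exp_pos _).le (by linarith)
          _ ≤ 1 + c₀ / 2 := by nlinarith
      -- the angle
      set θ : ℝ := ψ - 2 * Real.pi * e.im + ε * k.im with hθ
      have hTθ : T s = -((‖T s‖ : ℂ) * Complex.exp (Complex.I * θ)) := by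
        have h1 : t₁ = -((‖t₁‖ : ℂ) * Complex.exp (ψ * Complex.I)) := by
          have := Complex.norm_mul_exp_arg_mul_I (-t₁)
          rw [norm_neg] at this
          rw [hψ, this, neg_neg]
        have h2 : ‖T s‖ = ‖t₁‖ * Real.exp (-(2 * Real.pi * e.re) + ε * (k.re - 1)) := by
          simp only [hT]
          rw [norm_mul, Complex.norm_exp, hms, ← hk]
          congr 2
          simp
        have h3 : T s = t₁ * Complex.exp (-(2 * Real.pi * e) + ε * (k - 1)) := by
          simp only [hT]; rw [hms]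
        have h4 : (ψ : ℂ) * Complex.I + (-(2 * Real.pi * e) + ε * (k - 1)) =
            ((-(2 * Real.pi * e.re) + ε * (k.re - 1) : ℝ) : ℂ) + Complex.I * θ := by
          rw [hθ]
          apply Complex.ext
          · simp
          · simp
            ring
        have h5 : T s = -((‖t₁‖ : ℂ) * (Complex.exp (ψ * Complex.I) *
            Complex.exp (-(2 * Real.pi * e) + ε * (k - 1)))) := by
          rw [h3]
          conv_lhs => rw [h1]
          ring
        rw [← Complex.exp_add, h4, Complex.exp_add, ← Complex.ofReal_exp] at h5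
        refine h5.trans ?_
        rw [h2, Complex.ofReal_mul]
        ring
      have hθb : |θ| ≤ c₀ / 4 := by
        have h1 : θ = 2 * Real.pi * (e₀.im - e.im) + ε * k.im := by rw [hθ, ← he₀im]; ring
        have h2 : |e₀.im - e.im| ≤ α := by
          have := Complex.abs_im_le_norm (e₀ - e)
          rw [Complex.sub_im, norm_sub_rev] at this
          linarith
        have h3 : |k.im| ≤ Kr := (Complex.abs_im_le_norm k).trans hkn
        rw [h1]
        calc |2 * Real.pi * (e₀.im - e.im) + ε * k.im|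
            ≤ |2 * Real.pi * (e₀.im - e.im)| + |ε * k.im| := abs_add_le _ _
          _ = 2 * Real.pi * |e₀.im - e.im| + ε * |k.im| := by
              rw [abs_mul, abs_mul ε, abs_of_pos (show 0 < 2 * Real.pi by positivity),
                abs_of_pos hε0]
          _ ≤ 8 * α + ε * Kr := by
              have h4 : 2 * Real.pi ≤ 8 := by linarith [Real.pi_le_four]
              refine add_le_add ?_ (mul_le_mul_of_nonneg_left h3 hε0.le)
              exact mul_le_mul h4 h2 (abs_nonneg _) (by norm_num)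
          _ = c₀ / 4 := by rw [hεK, hα]; ring
      refine hgap _ ϱs hRs hDs (T s) ?_ x hx
      have h1 : T s + ϱs = ((ϱs - ‖T s‖ : ℝ) : ℂ) -
          (‖T s‖ : ℂ) * (Complex.exp (Complex.I * θ) - 1) := by
        conv_lhs => rw [hTθ]
        push_cast
        ring
      rw [h1]
      calc ‖((ϱs - ‖T s‖ : ℝ) : ℂ) - (‖T s‖ : ℂ) * (Complex.exp (Complex.I * θ) - 1)‖
          ≤ ‖((ϱs - ‖T s‖ : ℝ) : ℂ)‖ + ‖(‖T s‖ : ℂ) * (Complex.exp (Complex.I * θ) - 1)‖ :=
            norm_sub_le _ _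
        _ ≤ (‖T s‖ - ϱs) + ‖T s‖ * |θ| := by
            have h2 : ‖((ϱs - ‖T s‖ : ℝ) : ℂ)‖ = ‖T s‖ - ϱs := by
              rw [Complex.norm_real, Real.norm_eq_abs, abs_sub_comm,
                abs_of_nonneg (by linarith)]
            have h4 : ‖(‖T s‖ : ℂ) * (Complex.exp (Complex.I * θ) - 1)‖ =
                ‖T s‖ * ‖Complex.exp (Complex.I * θ) - 1‖ := by
              rw [norm_mul (‖T s‖ : ℂ), Complex.norm_real, Real.norm_eq_abs,
                abs_of_nonneg (norm_nonneg _)]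
            rw [h2, h4]
            have h3 : ‖Complex.exp (Complex.I * θ) - 1‖ ≤ |θ| := by
              have := Real.norm_exp_I_mul_ofReal_sub_one_le (x := θ)
              simpa using this
            have := mul_le_mul_of_nonneg_left h3 (norm_nonneg (T s))
            linarith
        _ ≤ (c₀ / 2) * ϱs + ((1 + c₀ / 2) * ϱs) * (c₀ / 4) := by
            refine add_le_add (by linarith) ?_
            exact mul_le_mul hTn2 hθb (abs_nonneg _) (by positivity)
        _ < c₀ * ϱs := by nlinarith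
  have := cp S hϱ₁0 hzd hTd (fun s hs => hvδ s (hre s hs)) hbd s₁
    (mem_closedBall_self hϱ₁0.le) 1 (by simp)
  rw [hTs₁] at this
  simpa using this

end Run7.h718
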