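import Mathlib

open Set Metric Filter Topology

namespace Run7.h718

/-- the set `D_{δ,ν} = {ζ : |ζ^(ν-1) - δ| < δ}` -/
def petals (δ : ℝ) (ν : ℕ) : Set ℂ := {ζ : ℂ | ‖ζ ^ (ν - 1) - δ‖ < δ}

/-- `φ` restricted to `Δ` is a parabolic curve for `f`. -/
structure IsParabolicCurve {E : Type*} [NormedAddCommGroup E] [NormedSpace ℂ E]
    (f : E → E) (Δ : Set ℂ) (φ : ℂ → E) : Prop where
  isOpen : IsOpen Δ
  simplyConnected : IsSimplyConnected Δ
  zero_mem_frontier : (0:ℂ) ∈ frontier Δ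
  differentiableOn : DifferentiableOn ℂ φ Δ
  injOn : InjOn φ Δ
  ne_zero : ∀ ζ ∈ Δ, φ ζ ≠ 0
  tendsto_zero : Tendsto φ (𝓝[Δ] 0) (𝓝 0)
  invariant : MapsTo f (φ '' Δ) (φ '' Δ)
  attracted : ∀ K ⊆ φ '' Δ, IsCompact K →
    TendstoUniformlyOn (fun (k : ℕ) (z : E) => f^[k] z) (fun _ => 0) atTop K

/-- the root of unity attached to a point -/
noncomputable def om (k : ℕ) (ζ : ℂ) : ℂ := ζ / (ζ ^ k) ^ ((k : ℂ)⁻¹)

/-- the time coordinate -/
noncomputable def tt (δ : ℝ) (k : ℕ) (ζ : ℂ) : ℂ :=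
  Complex.log (2 * δ / ζ ^ k) + ((k * Complex.arg (om k ζ) : ℝ) : ℂ) * Complex.I

section geom

variable {δ : ℝ} {k : ℕ}

lemma re_pos {ξ : ℂ} (h : ‖ξ - δ‖ < δ) : 0 < ξ.re := by
  have h1 := (Complex.abs_re_le_norm (ξ - δ)).trans_lt h
  rw [Complex.sub_re, Complex.ofReal_re] at h1
  have := (abs_lt.1 h1).1
  linarith

lemma ne_zero' {ξ : ℂ} (h : ‖ξ - δ‖ < δ) : ξ ≠ 0 := by
  intro h0
  have := re_pos h
  rw [h0] at this
  simp at this

lemma mem_iff {ξ : ℂ} (hδ : 0 < δ) : ‖ξ - δ‖ < δ ↔ ξ.re ^ 2 + ξ.im ^ 2 < 2 * δ * ξ.re := by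
  have h1 : ‖ξ - δ‖ ^ 2 = (ξ.re - δ) ^ 2 + ξ.im ^ 2 := by
    rw [Complex.sq_norm, Complex.normSq_apply]
    simp
    ring
  rw [← sq_lt_sq₀ (norm_nonneg _) hδ.le, h1]
  constructor <;> intro h <;> nlinarith

lemma om_pow (hk : k ≠ 0) {ζ : ℂ} (h : ζ ^ k ≠ 0) : om k ζ ^ k = 1 := by
  unfold om
  rw [div_pow, Complex.cpow_nat_inv_pow _ hk, div_self h]

lemma om_root (hk : k ≠ 0) {ω ξ : ℂ} (hω : ω ^ k = 1) (hξ : ξ ≠ 0) :
    om k (ω * ξ ^ ((k : ℂ)⁻¹)) = ω := by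
  have h1 : (ω * ξ ^ ((k : ℂ)⁻¹)) ^ k = ξ := by
    rw [mul_pow, hω, one_mul, Complex.cpow_nat_inv_pow _ hk]
  unfold om
  rw [h1, mul_div_assoc, div_self, mul_one]
  intro h0
  rw [h0, mul_zero, zero_pow hk] at h1
  exact hξ h1.symm

lemma om_mul {ζ : ℂ} (h : ζ ^ k ≠ 0) (hk : k ≠ 0) : om k ζ * (ζ ^ k) ^ ((k : ℂ)⁻¹) = ζ := by
  unfold om
  rw [div_mul_cancel₀]
  intro h0
  have := Complex.cpow_nat_inv_pow (ζ ^ k) hk
  rw [h0, zero_pow hk] at this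
  exact h this.symm

lemma om_norm (hk : k ≠ 0) {ζ : ℂ} (h : ζ ^ k ≠ 0) : ‖om k ζ‖ = 1 :=
  Complex.norm_eq_one_of_pow_eq_one (om_pow hk h) hk

lemma continuousAt_om {ζ : ℂ} (h : 0 < (ζ ^ k).re) (hk : k ≠ 0) : ContinuousAt (om k) ζ := by
  have hne : ζ ^ k ≠ 0 := by
    intro h0; rw [h0] at h; simp at h
  unfold om
  refine ContinuousAt.div continuousAt_id ?_ ?_
  · exact ContinuousAt.cpow (continuousAt_id.pow k) continuousAt_const (Or.inl h)
  · intro h0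
    have := Complex.cpow_nat_inv_pow (ζ ^ k) hk
    rw [h0, zero_pow hk] at this
    exact hne this.symm

lemma finite_roots (hk : k ≠ 0) : {z : ℂ | z ^ k = 1}.Finite := by
  have : {z : ℂ | z ^ k = 1} ⊆ (Polynomial.nthRoots k (1:ℂ)).toFinset := by
    intro z hz
    simp only [Finset.mem_coe, Multiset.mem_toFinset]
    exact (Polynomial.mem_nthRoots (Nat.pos_of_ne_zero hk)).2 hz
  exact (Finset.finite_toSet _).subset this

variable (δ) in
lemma petals_eq (k : ℕ) : petals δ (k + 1) = {ζ : ℂ | ‖ζ ^ k - δ‖ < δ} := rfl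

variable (δ) in
lemma isOpen_petals (k : ℕ) : IsOpen {ζ : ℂ | ‖ζ ^ k - δ‖ < δ} :=
  isOpen_lt (by fun_prop) continuous_const

lemma om_locally (hk : k ≠ 0) {ζ₀ : ℂ} (h : ‖ζ₀ ^ k - δ‖ < δ) :
    ∀ᶠ ζ : ℂ in 𝓝 ζ₀, ‖ζ ^ k - δ‖ < δ ∧ om k ζ = om k ζ₀ := by
  have h1 : ∀ᶠ ζ : ℂ in 𝓝 ζ₀, ‖ζ ^ k - δ‖ < δ := (isOpen_petals δ k).mem_nhds h
  have hfin : ({z : ℂ | z ^ k = 1} \ {om k ζ₀}).Finite := (finite_roots hk).subset sdiff_subset
  have h2 : ∀ᶠ ζ in 𝓝 ζ₀, om k ζ ∈ ({z : ℂ | z ^ k = 1} \ {om k ζ₀})ᶜ := by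
    apply (continuousAt_om (re_pos h) hk).eventually
    apply hfin.isClosed.isOpen_compl.mem_nhds
    simp
  filter_upwards [h1, h2] with ζ hζ1 hζ2
  refine ⟨hζ1, ?_⟩
  by_contra hne
  exact hζ2 ⟨om_pow hk (ne_zero' hζ1), hne⟩

/-- the pieces -/
def piece (δ : ℝ) (k : ℕ) (ω : ℂ) : Set ℂ := {ζ : ℂ | ‖ζ ^ k - δ‖ < δ ∧ om k ζ = ω}

/-- each piece is homeomorphic to a disc -/
noncomputable def pieceHomeo (hk : k ≠ 0) {ω : ℂ} (hω : ω ^ k = 1) :
    ball (δ : ℂ) δ ≃ₜ piece δ k ω where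
  toFun ξ := ⟨ω * (ξ : ℂ) ^ ((k : ℂ)⁻¹), by
    have hξ : ‖(ξ : ℂ) - δ‖ < δ := by
      have := ξ.2
      rwa [mem_ball, dist_eq_norm] at this
    refine ⟨?_, om_root hk hω (ne_zero' hξ)⟩
    rw [mul_pow, hω, one_mul, Complex.cpow_nat_inv_pow _ hk]
    exact hξ⟩
  invFun ζ := ⟨(ζ : ℂ) ^ k, by
    rw [mem_ball, dist_eq_norm]
    exact ζ.2.1⟩
  left_inv ξ := by
    apply Subtype.ext
    show (ω * (ξ : ℂ) ^ ((k : ℂ)⁻¹)) ^ k = ξ
    rw [mul_pow, hω, one_mul, Complex.cpow_nat_inv_pow _ hk]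
  right_inv ζ := by
    apply Subtype.ext
    show ω * ((ζ : ℂ) ^ k) ^ ((k : ℂ)⁻¹) = ζ
    have := om_mul (ne_zero' ζ.2.1) hk
    rwa [ζ.2.2] at this
  continuous_toFun := by
    refine Continuous.subtype_mk ?_ _
    rw [continuous_iff_continuousAt]
    intro ξ
    have hξ : ‖(ξ : ℂ) - δ‖ < δ := by
      have := ξ.2
      rwa [mem_ball, dist_eq_norm] at this
    refine continuousAt_const.mul ?_
    exact ContinuousAt.cpow continuous_subtype_val.continuousAt continuousAt_const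
      (Or.inl (re_pos hξ))
  continuous_invFun := by
    refine Continuous.subtype_mk ?_ _
    exact continuous_subtype_val.pow k

lemma piece_sc (hδ : 0 < δ) (hk : k ≠ 0) {ω : ℂ} (hω : ω ^ k = 1) :
    IsSimplyConnected (piece δ k ω) := by
  have hc : ContractibleSpace (ball (δ : ℂ) δ) :=
    (convex_ball (δ : ℂ) δ).contractibleSpace ⟨δ, mem_ball_self hδ⟩
  have hs : SimplyConnectedSpace (ball (δ : ℂ) δ) := inferInstance
  exact (pieceHomeo hk hω).toHomotopyEquiv.simplyConnectedSpace_iff.1 hs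

lemma component_eq (hδ : 0 < δ) (hk : k ≠ 0) {ζ₀ : ℂ} (h : ‖ζ₀ ^ k - δ‖ < δ) :
    connectedComponentIn {ζ : ℂ | ‖ζ ^ k - δ‖ < δ} ζ₀ = piece δ k (om k ζ₀) := by
  apply Subset.antisymm
  · intro ζ hζ
    have hsub := connectedComponentIn_subset {ζ : ℂ | ‖ζ ^ k - δ‖ < δ} ζ₀
    refine ⟨hsub hζ, ?_⟩
    have hpre : IsPreconnected (connectedComponentIn {ζ : ℂ | ‖ζ ^ k - δ‖ < δ} ζ₀) :=
      isPreconnected_connectedComponentIn
    obtain ⟨y, _, hy⟩ := hpre.eqOn_const_of_mapsTo (T := {z : ℂ | z ^ k = 1}) (f := om k)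
      (finite_roots hk).isDiscrete
      (fun x hx => (continuousAt_om (re_pos (hsub hx)) hk).continuousWithinAt)
      (fun x hx => om_pow hk (ne_zero' (hsub hx))) ⟨1, by simp⟩
    have h1 := hy hζ
    have h2 := hy (mem_connectedComponentIn (show ζ₀ ∈ {ζ : ℂ | ‖ζ ^ k - δ‖ < δ} from h))
    simp only [Function.const_apply] at h1 h2
    rw [h1, h2]
  · have hω := om_pow hk (ne_zero' h)
    have hconn : IsPreconnected (piece δ k (om k ζ₀)) :=
      (piece_sc hδ hk hω).isPathConnected.isConnected.isPreconnected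
    exact hconn.subset_connectedComponentIn ⟨h, rfl⟩ (fun ζ hζ => hζ.1)

lemma piece_frontier (hδ : 0 < δ) (hk : k ≠ 0) {ω : ℂ} (hω : ω ^ k = 1) :
    (0:ℂ) ∈ frontier (piece δ k ω) := by
  refine ⟨?_, ?_⟩
  · rw [Metric.mem_closure_iff]
    intro ε hε
    have hev : ∀ᶠ x : ℝ in 𝓝[>] 0, x < ε ∧ x ^ k < δ := by
      have h1 : ∀ᶠ x : ℝ in 𝓝 0, x < ε := gt_mem_nhds hε
      have h2 : ∀ᶠ x : ℝ in 𝓝 0, x ^ k < δ := by
        have hc : ContinuousAt (fun x : ℝ => x ^ k) 0 := by fun_prop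
        refine hc.eventually_lt_const ?_
        show (0:ℝ) ^ k < δ
        rw [zero_pow hk]
        exact hδ
      exact (h1.and h2).filter_mono nhdsWithin_le_nhds
    obtain ⟨x, ⟨hx1, hx2⟩, hx0⟩ := (hev.and self_mem_nhdsWithin).exists
    replace hx0 : 0 < x := hx0
    have hωn : ‖ω‖ = 1 := Complex.norm_eq_one_of_pow_eq_one hω hk
    have hxk : 0 < x ^ k := pow_pos hx0 k
    have hroot : ((x : ℂ) ^ k) ^ ((k : ℂ)⁻¹) = x := by
      apply Complex.pow_cpow_nat_inv hk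
      · rw [Complex.arg_ofReal_of_nonneg hx0.le]
        have : 0 < Real.pi / k := div_pos Real.pi_pos (by exact_mod_cast Nat.pos_of_ne_zero hk)
        linarith
      · rw [Complex.arg_ofReal_of_nonneg hx0.le]
        positivity
    refine ⟨ω * x, ⟨?_, ?_⟩, ?_⟩
    · rw [mul_pow, hω, one_mul, ← Complex.ofReal_pow, ← Complex.ofReal_sub, Complex.norm_real,
        Real.norm_eq_abs, abs_lt]
      constructor <;> linarith
    · have := om_root hk hω (ξ := (x : ℂ) ^ k) (pow_ne_zero _ (by exact_mod_cast hx0.ne'))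
      rwa [hroot] at this
    · rw [dist_eq_norm, zero_sub, norm_neg, norm_mul, hωn, one_mul, Complex.norm_real,
        Real.norm_eq_abs, abs_of_pos hx0]
      exact hx1
  · intro hmem
    have := (interior_subset hmem).1
    rw [zero_pow hk, zero_sub, norm_neg, Complex.norm_real, Real.norm_eq_abs, abs_of_pos hδ] at this
    exact lt_irrefl _ this

/-- the quotient has real part `> 1` -/
lemma quot_re (hδ : 0 < δ) {ξ : ℂ} (h : ‖ξ - δ‖ < δ) : 1 < (2 * δ / ξ : ℂ).re := by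
  have h1 := (mem_iff hδ).1 h
  have h2 := re_pos h
  have h3 : (2 * δ / ξ : ℂ).re = 2 * δ * ξ.re / (ξ.re ^ 2 + ξ.im ^ 2) := by
    rw [Complex.div_re, Complex.normSq_apply]
    simp
    ring
  rw [h3, lt_div_iff₀ (by positivity)]
  linarith

lemma tt_re (δ : ℝ) (k : ℕ) (ζ : ℂ) : (tt δ k ζ).re = Real.log ‖(2 * δ / ζ ^ k : ℂ)‖ := by
  unfold tt
  rw [Complex.add_re, Complex.log_re, Complex.re_ofReal_mul]
  simp

lemma tt_im (δ : ℝ) (k : ℕ) (ζ : ℂ) :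
    (tt δ k ζ).im = Complex.arg (2 * δ / ζ ^ k) + k * Complex.arg (om k ζ) := by
  unfold tt
  rw [Complex.add_im, Complex.log_im, Complex.im_ofReal_mul]
  simp

lemma tt_re_pos (hδ : 0 < δ) {ζ : ℂ} (h : ‖ζ ^ k - δ‖ < δ) : 0 < (tt δ k ζ).re := by
  rw [tt_re]
  apply Real.log_pos
  exact (quot_re hδ h).trans_le (Complex.re_le_norm _)

lemma height_int (hk : k ≠ 0) {ζ : ℂ} (h : ζ ^ k ≠ 0) :
    ∃ n : ℤ, (k : ℝ) * Complex.arg (om k ζ) = n * (2 * Real.pi) := by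
  have h1 := om_pow hk h
  have h2 : om k ζ = Complex.exp (Complex.arg (om k ζ) * Complex.I) := by
    have := Complex.norm_mul_exp_arg_mul_I (om k ζ)
    rw [om_norm hk h, Complex.ofReal_one, one_mul] at this
    exact this.symm
  rw [h2, ← Complex.exp_nat_mul, Complex.exp_eq_one_iff] at h1
  obtain ⟨n, hn⟩ := h1
  refine ⟨n, ?_⟩
  have := congrArg Complex.im hn
  simpa using this

lemma tt_inj (hδ : 0 < δ) (hk : k ≠ 0) : InjOn (tt δ k) {ζ : ℂ | ‖ζ ^ k - δ‖ < δ} := by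
  intro ζ hζ ζ' hζ' heq
  have hπ := Real.pi_pos
  have hne := ne_zero' (show ‖ζ ^ k - δ‖ < δ from hζ)
  have hne' := ne_zero' (show ‖ζ' ^ k - δ‖ < δ from hζ')
  obtain ⟨n, hn⟩ := height_int hk hne
  obtain ⟨n', hn'⟩ := height_int hk hne'
  have him := congrArg Complex.im heq
  rw [tt_im, tt_im, hn, hn'] at him
  have ha : |Complex.arg (2 * δ / ζ ^ k)| < Real.pi / 2 :=
    Complex.abs_arg_lt_pi_div_two_iff.2 (Or.inl (by linarith [quot_re hδ hζ]))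
  have ha' : |Complex.arg (2 * δ / ζ' ^ k)| < Real.pi / 2 :=
    Complex.abs_arg_lt_pi_div_two_iff.2 (Or.inl (by linarith [quot_re hδ hζ']))
  have hnn : n = n' := by
    have h1 : |((n : ℝ) - n')| * (2 * Real.pi) < Real.pi := by
      have h2 : ((n : ℝ) - n') * (2 * Real.pi) =
          Complex.arg (2 * δ / ζ' ^ k) - Complex.arg (2 * δ / ζ ^ k) := by linarith
      have h3 : |((n : ℝ) - n')| * (2 * Real.pi) = |((n : ℝ) - n') * (2 * Real.pi)| := by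
        rw [abs_mul, abs_of_pos (show 0 < 2 * Real.pi by positivity)]
      rw [h3, h2]
      rw [abs_lt] at ha ha' ⊢
      constructor <;> linarith
    have h4 : |((n : ℝ) - n')| < 1 := by nlinarith [abs_nonneg ((n : ℝ) - n')]
    have h5 : |n - n'| < 1 := by exact_mod_cast h4
    have := Int.abs_lt_one_iff.1 h5
    omega
  have harg : Complex.arg (om k ζ) = Complex.arg (om k ζ') := by
    have hk' : (k : ℝ) ≠ 0 := by exact_mod_cast hk
    have : (k : ℝ) * Complex.arg (om k ζ) = k * Complex.arg (om k ζ') := by rw [hn, hn', hnn]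
    exact mul_left_cancel₀ hk' this
  have hom : om k ζ = om k ζ' := by
    have h1 := Complex.norm_mul_exp_arg_mul_I (om k ζ)
    have h2 := Complex.norm_mul_exp_arg_mul_I (om k ζ')
    rw [om_norm hk hne] at h1
    rw [om_norm hk hne'] at h2
    rw [← h1, ← h2, harg]
  have hlog : Complex.log (2 * δ / ζ ^ k) = Complex.log (2 * δ / ζ' ^ k) := by
    have h1 : tt δ k ζ = tt δ k ζ' := heq
    unfold tt at h1
    rw [hom] at h1
    exact add_right_cancel h1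
  have hδc : (2 * δ : ℂ) ≠ 0 := by
    have : (δ : ℂ) ≠ 0 := by exact_mod_cast hδ.ne'
    exact mul_ne_zero two_ne_zero this
  have hq : (2 * δ / ζ ^ k : ℂ) = 2 * δ / ζ' ^ k := by
    have h1 := congrArg Complex.exp hlog
    rwa [Complex.exp_log (div_ne_zero hδc hne), Complex.exp_log (div_ne_zero hδc hne')] at h1
  have hpow : ζ ^ k = ζ' ^ k := by
    rw [div_eq_div_iff hne hne'] at hq
    exact (mul_left_cancel₀ hδc hq).symm
  have h1 := om_mul hne hk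
  have h2 := om_mul hne' hk
  rw [← h1, ← h2, hom, hpow]

lemma tt_diff (hδ : 0 < δ) (hk : k ≠ 0) {ζ₀ : ℂ} (h : ‖ζ₀ ^ k - δ‖ < δ) :
    DifferentiableAt ℂ (tt δ k) ζ₀ := by
  have he : tt δ k =ᶠ[𝓝 ζ₀] fun ζ => Complex.log (2 * δ / ζ ^ k) +
      ((k * Complex.arg (om k ζ₀) : ℝ) : ℂ) * Complex.I := by
    filter_upwards [om_locally hk h] with ζ hζ
    unfold tt
    rw [hζ.2]
  rw [he.differentiableAt_iff]
  have hne := ne_zero' h
  have h1 : DifferentiableAt ℂ (fun ζ : ℂ => 2 * δ / ζ ^ k) ζ₀ :=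
    (differentiableAt_const _).div (differentiableAt_pow k) hne
  exact (h1.clog (Or.inl (by linarith [quot_re hδ h]))).add_const _

/-- scaling by `exp(-1/k)` is the shift by one -/
lemma tt_shift (hδ : 0 < δ) (hk : k ≠ 0) {ζ : ℂ} (h : ‖ζ ^ k - δ‖ < δ) :
    ∃ ζ' : ℂ, ‖ζ' ^ k - δ‖ < δ ∧ om k ζ' = om k ζ ∧ tt δ k ζ' = tt δ k ζ + 1 := by
  have hne := ne_zero' h
  have hkc : (k : ℂ) ≠ 0 := by exact_mod_cast hk
  set c : ℂ := Complex.exp (-(k : ℂ)⁻¹) with hc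
  have hck : c ^ k = ((Real.exp (-1) : ℝ) : ℂ) := by
    rw [hc, ← Complex.exp_nat_mul]
    have : (k : ℂ) * -(k : ℂ)⁻¹ = ((-1 : ℝ) : ℂ) := by
      push_cast
      field_simp
    rw [this, Complex.ofReal_exp]
  have hpow : (c * ζ) ^ k = ((Real.exp (-1) : ℝ) : ℂ) * ζ ^ k := by rw [mul_pow, hck]
  have hroot : (((Real.exp (-1) : ℝ) : ℂ) * ζ ^ k) ^ ((k : ℂ)⁻¹) =
      c * (ζ ^ k) ^ ((k : ℂ)⁻¹) := by
    have he0 : ((Real.exp (-1) : ℝ) : ℂ) ≠ 0 := by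
      exact_mod_cast (Real.exp_pos (-1)).ne'
    rw [Complex.cpow_def_of_ne_zero (mul_ne_zero he0 hne), Complex.cpow_def_of_ne_zero hne,
      Complex.log_ofReal_mul (Real.exp_pos _) hne, Real.log_exp, hc, ← Complex.exp_add]
    congr 1
    push_cast
    ring
  have hom : om k (c * ζ) = om k ζ := by
    unfold om
    rw [hpow, hroot, mul_div_mul_left _ _ (Complex.exp_ne_zero _)]
  refine ⟨c * ζ, ?_, hom, ?_⟩
  · rw [hpow, mem_iff hδ]
    rw [mem_iff hδ] at h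
    have hre : 0 < (ζ ^ k).re := by
      by_contra hcon
      push Not at hcon
      nlinarith [sq_nonneg (ζ ^ k).re, sq_nonneg (ζ ^ k).im]
    rw [Complex.re_ofReal_mul, Complex.im_ofReal_mul]
    have he0 : 0 < Real.exp (-1) := Real.exp_pos _
    have he1 : Real.exp (-1) < 1 := by rw [Real.exp_lt_one_iff]; norm_num
    have h1 : (Real.exp (-1) * (ζ ^ k).re) ^ 2 + (Real.exp (-1) * (ζ ^ k).im) ^ 2 =
        Real.exp (-1) * (Real.exp (-1) * ((ζ ^ k).re ^ 2 + (ζ ^ k).im ^ 2)) := by ring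
    rw [h1]
    calc Real.exp (-1) * (Real.exp (-1) * ((ζ ^ k).re ^ 2 + (ζ ^ k).im ^ 2))
        ≤ Real.exp (-1) * (1 * ((ζ ^ k).re ^ 2 + (ζ ^ k).im ^ 2)) := by gcongr
      _ < Real.exp (-1) * (2 * δ * (ζ ^ k).re) := by
          rw [one_mul]; gcongr
      _ = _ := by ring
  · unfold tt
    rw [hom, hpow]
    have hδc : (2 * δ : ℂ) ≠ 0 := by
      have : (δ : ℂ) ≠ 0 := by exact_mod_cast hδ.ne'
      exact mul_ne_zero two_ne_zero this
    have hq : (2 * δ / (((Real.exp (-1) : ℝ) : ℂ) * ζ ^ k) : ℂ) =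
        ((Real.exp 1 : ℝ) : ℂ) * (2 * δ / ζ ^ k) := by
      have he0 : ((Real.exp (-1) : ℝ) : ℂ) ≠ 0 := by
        exact_mod_cast (Real.exp_pos (-1)).ne'
      have he1 : ((Real.exp 1 : ℝ) : ℂ) * ((Real.exp (-1) : ℝ) : ℂ) = 1 := by
        rw [← Complex.ofReal_mul, ← Real.exp_add]
        simp
      rw [div_eq_iff (mul_ne_zero he0 hne)]
      calc (2 * δ : ℂ) = 1 * (2 * δ / ζ ^ k) * ζ ^ k := by
            rw [one_mul, div_mul_cancel₀ _ hne]
        _ = _ := by rw [← he1]; ring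
    rw [hq, Complex.log_ofReal_mul (Real.exp_pos _) (div_ne_zero hδc hne), Real.log_exp]
    push_cast
    ring

lemma tt_tendsto (hδ : 0 < δ) (hk : k ≠ 0) (R : ℝ) :
    ∀ᶠ ζ : ℂ in 𝓝 (0:ℂ), ‖ζ ^ k - δ‖ < δ → R < (tt δ k ζ).re := by
  have hc : ContinuousAt (fun ζ : ℂ => ‖ζ‖ ^ k) 0 := by fun_prop
  have h1 : ∀ᶠ ζ in 𝓝 (0:ℂ), ‖ζ‖ ^ k < 2 * δ * Real.exp (-R) := by
    refine hc.eventually_lt_const ?_
    show ‖(0:ℂ)‖ ^ k < _
    rw [norm_zero, zero_pow hk]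
    positivity
  filter_upwards [h1] with ζ hζ hmem
  rw [tt_re]
  have hne := ne_zero' hmem
  have hn : 0 < ‖ζ‖ ^ k := by
    rw [← norm_pow]; exact norm_pos_iff.2 hne
  have h2 : ‖(2 * δ / ζ ^ k : ℂ)‖ = 2 * δ / ‖ζ‖ ^ k := by
    rw [norm_div, norm_pow, norm_mul, Complex.norm_real, Real.norm_eq_abs, abs_of_pos hδ]
    simp
  rw [h2, Real.lt_log_iff_exp_lt (by positivity), lt_div_iff₀ hn]
  calc Real.exp R * ‖ζ‖ ^ k < Real.exp R * (2 * δ * Real.exp (-R)) := by gcongr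
    _ = 2 * δ * (Real.exp R * Real.exp (-R)) := by ring
    _ = 2 * δ := by rw [← Real.exp_add]; simp

end geom

end Run7.h718
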