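import Pool.Agent.Run7.h718.Ext
import Pool.Agent.Run7.h718.Petal

open Set Metric Filter Topology

namespace Run7.h718

variable {E : Type*} [NormedAddCommGroup E] [NormedSpace ℂ E]

/-- from an invariant half plane to the curves on the components of `D_{δ,ν}`. -/
theorem curves_of_half {f : E → E} {w : ℂ → E}
    (hw : ∀ t : ℂ, 0 < t.re → w t ≠ 0 ∧ DifferentiableAt ℂ w t ∧ f (w t) = w (t + 1))
    (hinj : InjOn w {t : ℂ | 0 < t.re})
    (hdec : ∀ ε > 0, ∃ R : ℝ, 0 ≤ R ∧ ∀ t : ℂ, R < t.re → ‖w t‖ < ε)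
    {δ : ℝ} (hδ : 0 < δ) {ν : ℕ} (hν : 2 ≤ ν) :
    ∃ φ : ℂ → E, InjOn φ (petals δ ν) ∧ φ '' petals δ ν ⊆ w '' {t : ℂ | 0 < t.re} ∧
      ∀ ζ₀ ∈ petals δ ν,
        IsParabolicCurve f (connectedComponentIn (petals δ ν) ζ₀) φ := by
  obtain ⟨k, rfl⟩ : ∃ k, ν = k + 1 := ⟨ν - 1, by omega⟩
  have hk : k ≠ 0 := by omega
  rw [petals_eq]
  have hpos : ∀ ζ : ℂ, ‖ζ ^ k - δ‖ < δ → 0 < (tt δ k ζ).re := fun ζ h => tt_re_pos hδ h
  have hinj' : InjOn (fun ζ => w (tt δ k ζ)) {ζ : ℂ | ‖ζ ^ k - δ‖ < δ} := by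
    intro ζ hζ ζ' hζ' heq
    exact tt_inj hδ hk hζ hζ' (hinj (hpos ζ hζ) (hpos ζ' hζ') heq)
  refine ⟨fun ζ => w (tt δ k ζ), hinj', ?_, ?_⟩
  · rintro _ ⟨ζ, hζ, rfl⟩
    exact ⟨tt δ k ζ, hpos ζ hζ, rfl⟩
  intro ζ₀ hζ₀
  rw [component_eq hδ hk hζ₀]
  have hω := om_pow hk (ne_zero' hζ₀)
  have hiter : ∀ (j : ℕ) (t : ℂ), 0 < t.re → f^[j] (w t) = w (t + j) := by
    intro j
    induction j with
    | zero => intro t _; simp
    | succ j ih =>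
      intro t ht
      rw [Function.iterate_succ_apply, (hw t ht).2.2, ih (t + 1) (by
        rw [Complex.add_re, Complex.one_re]; linarith)]
      congr 1
      push_cast
      ring
  refine
    { isOpen := ?_
      simplyConnected := piece_sc hδ hk hω
      zero_mem_frontier := piece_frontier hδ hk hω
      differentiableOn := ?_
      injOn := hinj'.mono fun ζ hζ => hζ.1
      ne_zero := fun ζ hζ => (hw _ (hpos ζ hζ.1)).1
      tendsto_zero := ?_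
      invariant := ?_
      attracted := ?_ }
  · rw [← component_eq hδ hk hζ₀]
    exact (isOpen_petals δ k).connectedComponentIn
  · intro ζ hζ
    have h1 := (hw _ (hpos ζ hζ.1)).2.1
    exact (h1.comp ζ (tt_diff hδ hk hζ.1)).differentiableWithinAt
  · rw [Metric.tendsto_nhds]
    intro ε hε
    obtain ⟨R, _, hR⟩ := hdec ε hε
    rw [eventually_nhdsWithin_iff]
    filter_upwards [tt_tendsto hδ hk R] with ζ hζ hmem
    rw [dist_zero_right]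
    exact hR _ (hζ hmem.1)
  · rintro _ ⟨ζ, hζ, rfl⟩
    obtain ⟨ζ', h1, h2, h3⟩ := tt_shift hδ hk hζ.1
    refine ⟨ζ', ⟨h1, by rw [h2, hζ.2]⟩, ?_⟩
    show w (tt δ k ζ') = f (w (tt δ k ζ))
    rw [h3, (hw _ (hpos ζ hζ.1)).2.2]
  · intro K hK _
    rw [Metric.tendstoUniformlyOn_iff]
    intro ε hε
    obtain ⟨R, _, hR⟩ := hdec ε hε
    obtain ⟨N, hN⟩ := exists_nat_gt R
    filter_upwards [eventually_ge_atTop N] with j hj z hz
    obtain ⟨ζ, hζ, rfl⟩ := hK hz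
    rw [dist_zero_left]
    show ‖f^[j] (w (tt δ k ζ))‖ < ε
    rw [hiter j _ (hpos ζ hζ.1)]
    apply hR
    have h1 := hpos ζ hζ.1
    have h2 : (N : ℝ) ≤ j := by exact_mod_cast hj
    rw [Complex.add_re, Complex.natCast_re]
    linarith

theorem main_thm [ProperSpace E] [Nontrivial E] {X f : E → E} (hX : AnalyticAt ℂ X 0)
    (h0 : X 0 = 0) (hD : fderiv ℂ X 0 = 0) (hf : IsTimeOneMap X f)
    (hfix : ∀ᶠ z in 𝓝[≠] (0:E), f z ≠ z) :
    ∃ w : ℂ → E,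
      (∀ t : ℂ, 0 < t.re → w t ≠ 0 ∧ HasDerivAt w (X (w t)) t ∧ f (w t) = w (t + 1)) ∧
      InjOn w {t : ℂ | 0 < t.re} ∧
      (∀ ε > 0, ∃ R : ℝ, ∀ t : ℂ, R < t.re → ‖w t‖ < ε) ∧
      ∀ (ν : ℕ) (δ : ℝ), 2 ≤ ν → 0 < δ →
        ∃ φ : ℂ → E, InjOn φ (petals δ ν) ∧ φ '' petals δ ν ⊆ w '' {t : ℂ | 0 < t.re} ∧
          ∀ ζ₀ ∈ petals δ ν,
            IsParabolicCurve f (connectedComponentIn (petals δ ν) ζ₀) φ := by
  obtain ⟨w, hw, hinj, hdec⟩ := half_plane hX h0 hD hf hfix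
  refine ⟨w, hw, hinj, fun ε hε => ?_, fun ν δ hν hδ => ?_⟩
  · obtain ⟨R, _, hR⟩ := hdec ε hε
    exact ⟨R, hR⟩
  · exact curves_of_half (fun t ht => ⟨(hw t ht).1, (hw t ht).2.1.differentiableAt, (hw t ht).2.2⟩)
      hinj hdec hδ hν

end Run7.h718
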